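import Mathlib

/-!
# Points of `ℝ³` as spinors, and the product of the mutual distances on the sphere
-/

set_option autoImplicit false

open Finset

namespace Pool.Agent.H79.Ba

abbrev E3 := EuclideanSpace ℝ (Fin 3)

/-- the horizontal coordinate -/
noncomputable def ze (r : E3) : ℂ := ⟨r 0, r 1⟩

/-- the phase, with value `c` at `0` -/
noncomputable def ph (c z : ℂ) : ℂ := open Classical in if z = 0 then c else z / (‖z‖ : ℂ)

/-- first component of the spinor -/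
noncomputable def su (r : E3) : ℝ := √((‖r‖ + r 2) / 2)

/-- modulus of the second component of the spinor -/
noncomputable def sw (r : E3) : ℝ := √((‖r‖ - r 2) / 2)

noncomputable def sv (c : ℂ) (r : E3) : ℂ := (sw r : ℂ) * ph c (ze r)

lemma norm_sq_E3 (r : E3) : ‖r‖ ^ 2 = r 0 ^ 2 + r 1 ^ 2 + r 2 ^ 2 := by
  rw [EuclideanSpace.norm_sq_eq, Fin.sum_univ_three]
  simp

lemma abs_le_norm (r : E3) : |r 2| ≤ ‖r‖ := by
  have h := norm_sq_E3 r
  refine abs_le_of_sq_le_sq ?_ (norm_nonneg _)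
  nlinarith [sq_nonneg (r 0), sq_nonneg (r 1)]

lemma su_sq (r : E3) : su r ^ 2 = (‖r‖ + r 2) / 2 := by
  unfold su
  have h := abs_le.1 (abs_le_norm r)
  exact Real.sq_sqrt (by linarith [h.1])

lemma sw_sq (r : E3) : sw r ^ 2 = (‖r‖ - r 2) / 2 := by
  unfold sw
  have h := abs_le.1 (abs_le_norm r)
  exact Real.sq_sqrt (by linarith [h.2])

lemma su_nonneg (r : E3) : 0 ≤ su r := Real.sqrt_nonneg _

lemma sw_nonneg (r : E3) : 0 ≤ sw r := Real.sqrt_nonneg _

lemma norm_ze (r : E3) : ‖ze r‖ ^ 2 = r 0 ^ 2 + r 1 ^ 2 := by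
  rw [← Complex.normSq_eq_norm_sq, Complex.normSq_apply]
  simp only [ze]
  ring

lemma su_mul_sw (r : E3) : 2 * (su r * sw r) = ‖ze r‖ := by
  have h1 := su_sq r
  have h2 := sw_sq r
  have h3 : (2 * (su r * sw r)) ^ 2 = ‖ze r‖ ^ 2 := by
    rw [norm_ze, mul_pow, mul_pow, h1, h2]
    have := norm_sq_E3 r
    nlinarith
  exact (pow_left_inj₀ (by have := su_nonneg r; have := sw_nonneg r; positivity) (norm_nonneg _)
    (by norm_num)).1 h3

lemma ph_norm_le (c z : ℂ) (hc : ‖c‖ ≤ 1) : ‖ph c z‖ ≤ 1 := by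
  unfold ph
  split_ifs with h
  · exact hc
  · rw [norm_div, Complex.norm_real, norm_norm, div_self (norm_ne_zero_iff.2 h)]

lemma ph_norm_one (c z : ℂ) (hc : ‖c‖ = 1) : ‖ph c z‖ = 1 := by
  unfold ph
  split_ifs with h
  · exact hc
  · rw [norm_div, Complex.norm_real, norm_norm, div_self (norm_ne_zero_iff.2 h)]

lemma norm_mul_ph (c z : ℂ) : (‖z‖ : ℂ) * ph c z = z := by
  unfold ph
  split_ifs with h
  · rw [h]; simp
  · have : (‖z‖ : ℂ) ≠ 0 := by
      rw [Ne, Complex.ofReal_eq_zero, norm_eq_zero]; exact h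
    field_simp

lemma su_mul_sv (c : ℂ) (r : E3) : 2 * ((su r : ℂ) * sv c r) = ze r := by
  have h := norm_mul_ph c (ze r)
  rw [← su_mul_sw r] at h
  push_cast at h
  unfold sv
  linear_combination h

lemma sv_sq_le (c : ℂ) (hc : ‖c‖ ≤ 1) (r : E3) : ‖sv c r‖ ^ 2 ≤ (‖r‖ - r 2) / 2 := by
  unfold sv
  rw [norm_mul, Complex.norm_real, Real.norm_of_nonneg (sw_nonneg r), mul_pow, sw_sq]
  have h1 := ph_norm_le c (ze r) hc
  have h2 := norm_nonneg (ph c (ze r))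
  have h3 : ‖ph c (ze r)‖ ^ 2 ≤ 1 := by nlinarith
  have h := abs_le.1 (abs_le_norm r)
  nlinarith [h.2]

lemma sv_sq_eq (c : ℂ) (hc : ‖c‖ = 1) (r : E3) : ‖sv c r‖ ^ 2 = (‖r‖ - r 2) / 2 := by
  unfold sv
  rw [norm_mul, Complex.norm_real, Real.norm_of_nonneg (sw_nonneg r), mul_pow, sw_sq,
    ph_norm_one c _ hc]
  ring

lemma pair_formula (c : ℂ) (r r' : E3) :
    4 * ‖(sv c r') * (su r : ℂ) - (sv c r) * (su r' : ℂ)‖ ^ 2 =
      4 * (su r ^ 2 * ‖sv c r'‖ ^ 2) + 4 * (su r' ^ 2 * ‖sv c r‖ ^ 2) -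
        2 * (r 0 * r' 0 + r 1 * r' 1) := by
  have h1 := su_mul_sv c r
  have h2 := su_mul_sv c r'
  rw [← Complex.normSq_eq_norm_sq, ← Complex.normSq_eq_norm_sq, ← Complex.normSq_eq_norm_sq,
    Complex.normSq_sub, Complex.normSq_mul, Complex.normSq_mul, Complex.normSq_ofReal,
    Complex.normSq_ofReal]
  have h3 : 4 * ((sv c r' * (su r : ℂ)) * (starRingEnd ℂ) (sv c r * (su r' : ℂ))) =
      (starRingEnd ℂ) (ze r) * ze r' := by
    rw [← h1, ← h2]
    simp only [map_mul, Complex.conj_ofReal, map_ofNat]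
    ring
  have h4 : 4 * ((sv c r' * (su r : ℂ)) * (starRingEnd ℂ) (sv c r * (su r' : ℂ))).re =
      r 0 * r' 0 + r 1 * r' 1 := by
    have h5 := congrArg Complex.re h3
    rw [show (4 : ℂ) = ((4 : ℝ) : ℂ) by norm_num, Complex.re_ofReal_mul] at h5
    rw [h5]
    simp [ze, Complex.mul_re]
  linear_combination (-2) * h4

lemma norm_sub_sq' (r r' : E3) : ‖r' - r‖ ^ 2 = ‖r‖ ^ 2 + ‖r'‖ ^ 2 -
    2 * (r 0 * r' 0 + r 1 * r' 1 + r 2 * r' 2) := by
  rw [norm_sq_E3, norm_sq_E3, norm_sq_E3]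
  simp only [PiLp.sub_apply]
  ring

/-- exact formula for the distance -/
lemma dist_eq (c : ℂ) (hc : ‖c‖ = 1) (r r' : E3) :
    ‖r' - r‖ ^ 2 = (‖r‖ - ‖r'‖) ^ 2 +
      4 * ‖(sv c r') * (su r : ℂ) - (sv c r) * (su r' : ℂ)‖ ^ 2 := by
  rw [pair_formula, norm_sub_sq', sv_sq_eq c hc, sv_sq_eq c hc, su_sq, su_sq]
  ring

lemma dist_ge (c : ℂ) (hc : ‖c‖ ≤ 1) (r r' : E3) :
    4 * ‖(sv c r') * (su r : ℂ) - (sv c r) * (su r' : ℂ)‖ ^ 2 ≤ ‖r' - r‖ ^ 2 := by
  rw [pair_formula, norm_sub_sq']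
  have h1 := mul_le_mul_of_nonneg_left (sv_sq_le c hc r') (sq_nonneg (su r))
  have h2 := mul_le_mul_of_nonneg_left (sv_sq_le c hc r) (sq_nonneg (su r'))
  have h3 := su_sq r
  have h4 := su_sq r'
  have h5 := sq_nonneg (‖r‖ - ‖r'‖)
  rw [h3] at h1
  rw [h4] at h2
  rw [h3, h4]
  nlinarith

/-- the product of the squared mutual distances -/
noncomputable def Q {n : ℕ} (r : Fin n → E3) : ℝ :=
  ∏ k : Fin n, ∏ j ∈ Finset.Ioi k, ‖r j - r k‖ ^ 2

/-- the matrix of monomials in the spinors -/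
noncomputable def Mt (c : ℂ) {n : ℕ} (r : Fin n → E3) : Matrix (Fin n) (Fin n) ℂ :=
  Matrix.projVandermonde (fun i => sv c (r i)) (fun i => (su (r i) : ℂ))

lemma prod_four (n : ℕ) : ∏ k : Fin n, ∏ _j ∈ Finset.Ioi k, (4 : ℝ) = 2 ^ (n * (n - 1)) := by
  simp_rw [Finset.prod_const, Fin.card_Ioi]
  rw [Finset.prod_pow_eq_pow_sum]
  have h1 : ∑ i : Fin n, (n - 1 - (i : ℕ)) = ∑ i ∈ range n, (n - 1 - i) :=
    Fin.sum_univ_eq_sum_range (fun i => n - 1 - i) n
  rw [h1, Finset.sum_range_reflect (fun i => i) n, show (4 : ℝ) = 2 ^ 2 by norm_num, ← pow_mul,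
    mul_comm 2, Finset.sum_range_id_mul_two]

lemma det_Mt (c : ℂ) {n : ℕ} (r : Fin n → E3) :
    2 ^ (n * (n - 1)) * ‖(Mt c r).det‖ ^ 2 = ∏ k : Fin n, ∏ j ∈ Finset.Ioi k,
      (4 * ‖(sv c (r j)) * (su (r k) : ℂ) - (sv c (r k)) * (su (r j) : ℂ)‖ ^ 2) := by
  unfold Mt
  rw [Matrix.det_projVandermonde, ← prod_four, norm_prod, ← Finset.prod_pow, ← Finset.prod_mul_distrib]
  refine Finset.prod_congr rfl fun k _ => ?_
  rw [norm_prod, ← Finset.prod_pow, ← Finset.prod_mul_distrib]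

lemma Q_ge (c : ℂ) (hc : ‖c‖ ≤ 1) {n : ℕ} (r : Fin n → E3) :
    2 ^ (n * (n - 1)) * ‖(Mt c r).det‖ ^ 2 ≤ Q r := by
  rw [det_Mt]
  unfold Q
  refine Finset.prod_le_prod (fun k _ => Finset.prod_nonneg fun j _ => by positivity) fun k _ => ?_
  exact Finset.prod_le_prod (fun j _ => by positivity) fun j _ => dist_ge c hc _ _

lemma Q_eq (c : ℂ) (hc : ‖c‖ = 1) {n : ℕ} (r : Fin n → E3) (hr : ∀ i, ‖r i‖ = 1) :
    Q r = 2 ^ (n * (n - 1)) * ‖(Mt c r).det‖ ^ 2 := by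
  rw [det_Mt]
  unfold Q
  refine Finset.prod_congr rfl fun k _ => Finset.prod_congr rfl fun j _ => ?_
  rw [dist_eq c hc, hr, hr]
  ring

open scoped ComplexOrder in
/-- Hadamard's inequality in the form needed here. -/
lemma hadamard {n : ℕ} (A : Matrix (Fin n) (Fin n) ℂ) (hA : ∀ i, ∑ j, ‖A i j‖ ^ 2 = 1) :
    ‖A.det‖ ^ 2 ≤ 1 := by
  have hP := Matrix.posSemidef_self_mul_conjTranspose A
  have h1 := hP.isHermitian.det_eq_prod_eigenvalues
  have h2 := hP.isHermitian.trace_eq_sum_eigenvalues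
  rw [Matrix.det_mul, Matrix.det_conjTranspose] at h1
  have h1 : A.det * star A.det = ∏ i, (Complex.ofReal (hP.isHermitian.eigenvalues i)) := h1
  have h2 : (A * A.conjTranspose).trace = ∑ i, (Complex.ofReal (hP.isHermitian.eigenvalues i)) := h2
  have h3 : ((‖A.det‖ ^ 2 : ℝ) : ℂ) = ∏ i, (hP.isHermitian.eigenvalues i : ℂ) := by
    rw [← h1]
    push_cast
    rw [← Complex.mul_conj']
    rfl
  have h4 : ‖A.det‖ ^ 2 = ∏ i, hP.isHermitian.eigenvalues i := by exact_mod_cast h3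
  have h5 : (A * A.conjTranspose).trace = n := by
    unfold Matrix.trace
    have : ∀ i, (A * A.conjTranspose).diag i = 1 := by
      intro i
      rw [Matrix.diag_apply, Matrix.mul_apply]
      have h6 : ∀ j, A i j * A.conjTranspose j i = ((‖A i j‖ ^ 2 : ℝ) : ℂ) := by
        intro j
        rw [Matrix.conjTranspose_apply]
        push_cast
        rw [← Complex.mul_conj']
        rfl
      simp_rw [h6]
      rw [← Complex.ofReal_sum, hA i, Complex.ofReal_one]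
    simp_rw [this]
    simp
  have h7 : ∑ i, hP.isHermitian.eigenvalues i = n := by
    rw [h5] at h2
    exact_mod_cast h2.symm
  rw [h4]
  calc ∏ i, hP.isHermitian.eigenvalues i ≤ ∏ i, Real.exp (hP.isHermitian.eigenvalues i - 1) := by
        refine Finset.prod_le_prod (fun i _ => hP.eigenvalues_nonneg i) fun i _ => ?_
        have := Real.add_one_le_exp (hP.isHermitian.eigenvalues i - 1)
        linarith
    _ = 1 := by
        rw [← Real.exp_sum, Finset.sum_sub_distrib, h7]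
        simp

/-- the maximum of `Q` on the sphere is at most this -/
noncomputable def Bn (n : ℕ) : ℝ := 2 ^ (n * (n - 1)) / ∏ k : Fin n, ((n - 1).choose k : ℝ)

lemma det_le {n : ℕ} (v w : Fin n → ℂ) (h : ∀ i, ‖v i‖ ^ 2 + ‖w i‖ ^ 2 = 1) :
    ‖(Matrix.projVandermonde v w).det‖ ^ 2 * ∏ k : Fin n, ((n - 1).choose k : ℝ) ≤ 1 := by
  set A : Matrix (Fin n) (Fin n) ℂ :=
    Matrix.of fun i j => (√((n - 1).choose j : ℝ) : ℂ) * Matrix.projVandermonde v w i j with hA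
  have hdet : A.det = (∏ j : Fin n, (√((n - 1).choose j : ℝ) : ℂ)) *
      (Matrix.projVandermonde v w).det := by
    rw [hA]
    exact Matrix.det_mul_row (fun j : Fin n => (√((n - 1).choose j : ℝ) : ℂ)) _
  have h1 := hadamard A (by
    intro i
    have e : ∀ j : Fin n, ‖A i j‖ ^ 2 =
        (‖v i‖ ^ 2) ^ (j : ℕ) * (‖w i‖ ^ 2) ^ (n - 1 - (j : ℕ)) * ((n - 1).choose j : ℝ) := by
      intro j
      rw [hA]
      simp only [Matrix.of_apply, Matrix.projVandermonde_apply, norm_mul, norm_pow,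
        Complex.norm_real]
      rw [Real.norm_of_nonneg (Real.sqrt_nonneg _), mul_pow, Real.sq_sqrt (by positivity)]
      rw [Fin.val_rev, show n - ((j : ℕ) + 1) = n - 1 - (j : ℕ) by omega]
      ring
    simp_rw [e]
    rcases Nat.eq_zero_or_pos n with hn | hn
    · exact absurd i.2 (by omega)
    · have h2 := add_pow (‖v i‖ ^ 2) (‖w i‖ ^ 2) (n - 1)
      rw [h i, one_pow, show n - 1 + 1 = n by omega] at h2
      rw [h2]
      exact Fin.sum_univ_eq_sum_range (fun j : ℕ => (‖v i‖ ^ 2) ^ j * (‖w i‖ ^ 2) ^ (n - 1 - j) *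
        ((n - 1).choose j : ℝ)) n)
  rw [hdet, norm_mul, mul_pow, norm_prod, ← Finset.prod_pow] at h1
  have h3 : ∀ j : Fin n, ‖(√((n - 1).choose j : ℝ) : ℂ)‖ ^ 2 = ((n - 1).choose j : ℝ) := by
    intro j
    rw [Complex.norm_real, Real.norm_of_nonneg (Real.sqrt_nonneg _), Real.sq_sqrt (by positivity)]
  simp_rw [h3] at h1
  linarith

lemma prod_choose_pos (n : ℕ) : 0 < ∏ k : Fin n, ((n - 1).choose k : ℝ) := by
  refine Finset.prod_pos fun k _ => ?_
  have := Nat.choose_pos (show (k : ℕ) ≤ n - 1 by omega)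
  exact_mod_cast this

/-- upper bound on the sphere -/
lemma Q_sphere_le {n : ℕ} (r : Fin n → E3) (hr : ∀ i, ‖r i‖ = 1) : Q r ≤ Bn n := by
  rw [Q_eq 1 (by simp) r hr]
  unfold Bn
  rw [le_div_iff₀ (prod_choose_pos n), mul_assoc]
  have h := det_le (fun i => sv 1 (r i)) (fun i => (su (r i) : ℂ)) (by
    intro i
    rw [sv_sq_eq 1 (by simp), Complex.norm_real, Real.norm_of_nonneg (su_nonneg _), su_sq, hr]
    ring)
  have h2 : (0 : ℝ) < 2 ^ (n * (n - 1)) := by positivity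
  calc _ ≤ (2 : ℝ) ^ (n * (n - 1)) * 1 := mul_le_mul_of_nonneg_left h h2.le
    _ = _ := mul_one _

end Pool.Agent.H79.Ba
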