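import Pool.Agent.H79.Ba.S9

/-!
# The Moebius translations of the ball and the logarithmic potential of the sphere
-/

set_option autoImplicit false

open MeasureTheory Metric Set

namespace Pool.Agent.H79.Ba

/-- Moebius translation of the ball -/
noncomputable def mob (r w : E3) : E3 :=
  (‖w + r‖ ^ 2)⁻¹ • ((2 * (1 + inner ℝ r w)) • r + (1 - ‖r‖ ^ 2) • w)

lemma norm_add_unit {r w : E3} (hw : ‖w‖ = 1) :
    ‖w + r‖ ^ 2 = 1 + 2 * inner ℝ r w + ‖r‖ ^ 2 := by
  rw [norm_add_sq_real, hw, real_inner_comm]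
  ring

lemma add_sq_pos {r w : E3} (hw : ‖w‖ = 1) (hr : ‖r‖ < 1) : 0 < ‖w + r‖ ^ 2 := by
  have : w + r ≠ 0 := by
    intro h
    have h1 : w = -r := eq_neg_of_add_eq_zero_left h
    rw [h1, norm_neg] at hw
    linarith
  have := norm_pos_iff.2 this
  positivity

lemma inner_mob (r w y : E3) : inner ℝ (mob r w) y =
    (‖w + r‖ ^ 2)⁻¹ * (2 * (1 + inner ℝ r w) * inner ℝ r y + (1 - ‖r‖ ^ 2) * inner ℝ w y) := by
  unfold mob
  rw [real_inner_smul_left, inner_add_left, real_inner_smul_left, real_inner_smul_left]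

lemma norm_mob {r w : E3} (hw : ‖w‖ = 1) (hr : ‖r‖ < 1) : ‖mob r w‖ = 1 := by
  have hp := add_sq_pos hw hr
  have h : ‖mob r w‖ ^ 2 = 1 := by
    unfold mob
    have h1 := norm_add_unit (r := r) hw
    rw [norm_smul, mul_pow, norm_inv, norm_pow, norm_norm]
    set D := ‖w + r‖ ^ 2 with hD
    rw [norm_add_sq_real, norm_smul, norm_smul,
      real_inner_smul_left, real_inner_smul_right, mul_pow, mul_pow, Real.norm_eq_abs,
      Real.norm_eq_abs, sq_abs, sq_abs, hw]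
    set c := inner ℝ r w with hc
    have h2 : (2 * (1 + c)) ^ 2 * ‖r‖ ^ 2 + 2 * (2 * (1 + c) * ((1 - ‖r‖ ^ 2) * c)) +
        (1 - ‖r‖ ^ 2) ^ 2 * 1 ^ 2 = D ^ 2 := by
      rw [h1]
      ring
    rw [h2]
    field_simp
  exact (pow_eq_one_iff_of_nonneg (norm_nonneg _) (by norm_num)).1 h

lemma mob_dist {r w y : E3} (hw : ‖w‖ = 1) (hy : ‖y‖ = 1) (hr : ‖r‖ < 1) :
    ‖mob r w - y‖ ^ 2 * ‖w + r‖ ^ 2 = ‖w - mob (-r) y‖ ^ 2 * ‖y - r‖ ^ 2 := by
  have hr' : ‖-r‖ < 1 := by rwa [norm_neg]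
  have hp := add_sq_pos hw hr
  have hp2 := add_sq_pos hy hr'
  rw [norm_sub_sq_real, norm_mob hw hr, norm_sub_sq_real w, norm_mob hy hr', hw, hy,
    real_inner_comm (mob (-r) y) w, inner_mob, inner_mob]
  rw [← sub_eq_add_neg] at hp2 ⊢
  have h1 := norm_add_unit (r := r) hw
  have h2 := norm_add_unit (r := -r) hy
  rw [← sub_eq_add_neg, norm_neg, inner_neg_left] at h2
  rw [norm_neg, inner_neg_left, inner_neg_left, real_inner_comm w y]
  have gen : ∀ D X : ℝ, D ≠ 0 → (1 ^ 2 - 2 * (D⁻¹ * X) + 1 ^ 2) * D = 2 * D - 2 * X := by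
    intro D X h
    field_simp
    ring
  have e1 : (1 ^ 2 - 2 * ((‖w + r‖ ^ 2)⁻¹ * (2 * (1 + inner ℝ r w) * inner ℝ r y +
      (1 - ‖r‖ ^ 2) * inner ℝ w y)) + 1 ^ 2) * ‖w + r‖ ^ 2 =
      2 * ‖w + r‖ ^ 2 - 2 * (2 * (1 + inner ℝ r w) * inner ℝ r y +
      (1 - ‖r‖ ^ 2) * inner ℝ w y) := gen _ _ hp.ne'
  have e2 : (1 ^ 2 - 2 * ((‖y - r‖ ^ 2)⁻¹ * (2 * (1 + -inner ℝ r y) * -inner ℝ r w +
      (1 - ‖r‖ ^ 2) * inner ℝ w y)) + 1 ^ 2) * ‖y - r‖ ^ 2 =
      2 * ‖y - r‖ ^ 2 - 2 * (2 * (1 + -inner ℝ r y) * -inner ℝ r w +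
      (1 - ‖r‖ ^ 2) * inner ℝ w y) := gen _ _ hp2.ne'
  rw [e1, e2, h1, h2]
  ring

lemma mob_iso (e : E3 ≃ₗᵢ[ℝ] E3) (r w : E3) : mob (e r) (e w) = e (mob r w) := by
  unfold mob
  rw [map_smul, map_add, map_smul, map_smul, ← map_add, LinearIsometryEquiv.norm_map,
    LinearIsometryEquiv.norm_map, LinearIsometryEquiv.inner_map_map]

lemma mob_meas : Measurable (fun p : E3 × E3 => mob p.1 p.2) := by
  unfold mob
  have h1 : Measurable (fun p : E3 × E3 => (‖p.2 + p.1‖ ^ 2)⁻¹) :=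
    ((measurable_snd.add measurable_fst).norm.pow_const 2).inv
  have h2 : Measurable (fun p : E3 × E3 =>
      (2 * (1 + inner ℝ p.1 p.2)) • p.1 + (1 - ‖p.1‖ ^ 2) • p.2) :=
    Continuous.measurable (by fun_prop)
  exact h1.smul h2

/-- an isometry taking one vector to another one of the same length -/
lemma exists_iso {v w : E3} (h : ‖v‖ = ‖w‖) : ∃ e : E3 ≃ₗᵢ[ℝ] E3, e v = w :=
  ⟨Submodule.reflection (ℝ ∙ (v - w))ᗮ, Submodule.reflection_sub h⟩

lemma P0_comp (e : E3 ≃ₗᵢ[ℝ] E3) (g : E3 → ℝ) : ∫ x, g (e x) ∂P0 = ∫ x, g x ∂P0 :=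
  (P0_mp e).integral_comp e.toHomeomorph.measurableEmbedding g

lemma P0_comp_int (e : E3 ≃ₗᵢ[ℝ] E3) (g : E3 → ℝ) :
    Integrable (fun x => g (e x)) P0 ↔ Integrable g P0 :=
  (P0_mp e).integrable_comp_emb e.toHomeomorph.measurableEmbedding

noncomputable def ez : E3 := EuclideanSpace.single (2 : Fin 3) (1 : ℝ)

lemma norm_ez : ‖ez‖ = 1 := by simp [ez]

/-- the height variable -/
noncomputable def hb (x : E3) : ℝ := (1 + dir x 2) / 2

lemma hb_meas : Measurable hb := by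
  unfold hb
  have : Measurable (fun x : E3 => x 2) := Continuous.measurable (by fun_prop)
  exact ((this.comp dir_meas).const_add 1).div_const 2

lemma dist_ez {x : E3} (hx : x ≠ 0) (ρ : ℝ) :
    ‖dir x - ρ • ez‖ ^ 2 = (1 + ρ) ^ 2 - 4 * ρ * hb x := by
  rw [norm_sub_sq_real, norm_dir hx, norm_smul, norm_ez, real_inner_smul_right]
  have : inner ℝ (dir x) ez = dir x 2 := by
    unfold ez
    rw [EuclideanSpace.inner_single_right]
    simp
  rw [this]
  unfold hb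
  rw [Real.norm_eq_abs, mul_one, sq_abs]
  ring

lemma hb_nonneg (x : E3) (hx : x ≠ 0) : 0 ≤ hb x := by
  have h := abs_le.1 (abs_le_norm (dir x))
  rw [norm_dir hx] at h
  unfold hb
  linarith [h.1]

lemma hb_le (x : E3) (hx : x ≠ 0) : hb x ≤ 1 := by
  have h := abs_le.1 (abs_le_norm (dir x))
  rw [norm_dir hx] at h
  unfold hb
  linarith [h.2]

lemma hb_lt (x : E3) (hx : x ≠ 0) (hx2 : dir x ≠ ez) : hb x < 1 := by
  refine lt_of_le_of_ne (hb_le x hx) fun h => hx2 ?_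
  have h1 := dist_ez hx 1
  rw [h, one_smul] at h1
  have h2 : ‖dir x - ez‖ = 0 := by
    have : ‖dir x - ez‖ ^ 2 = 0 := by rw [h1]; norm_num
    exact pow_eq_zero_iff (by norm_num) |>.1 this
  exact sub_eq_zero.1 (norm_eq_zero.1 h2)

lemma telescoping : HasSum (fun k : ℕ => 1 / (((k : ℝ) + 1) * ((k : ℝ) + 2))) 1 := by
  rw [hasSum_iff_tendsto_nat_of_nonneg (fun k => by positivity)]
  have h1 : ∀ n : ℕ, ∑ k ∈ Finset.range n, 1 / (((k : ℝ) + 1) * ((k : ℝ) + 2)) =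
      1 - 1 / ((n : ℝ) + 1) := by
    intro n
    induction n with
    | zero => simp
    | succ n ih =>
      rw [Finset.sum_range_succ, ih]
      push_cast
      field_simp
      ring
  simp_rw [h1]
  have h2 := tendsto_one_div_add_atTop_nhds_zero_nat (𝕜 := ℝ)
  simpa using h2.const_sub 1

lemma moments_int (k : ℕ) : Integrable (fun x => hb x ^ k) P0 := by
  refine Integrable.of_bound (hb_meas.pow_const k).aestronglyMeasurable 1 ?_
  filter_upwards [ae_dir_ne 0] with x hx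
  rw [norm_pow, Real.norm_of_nonneg (hb_nonneg x hx.1)]
  exact pow_le_one₀ (hb_nonneg x hx.1) (hb_le x hx.1)

lemma log_b_val : ∫ x, (-Real.log (1 - hb x)) ∂P0 = 1 := by
  have h1 : ∀ k : ℕ, ∫ x, hb x ^ (k + 1) / ((k : ℝ) + 1) ∂P0 =
      1 / (((k : ℝ) + 1) * ((k : ℝ) + 2)) := by
    intro k
    rw [integral_div]
    have := moments (k + 1)
    unfold hb
    rw [this]
    push_cast
    field_simp
    ring
  have h2 : ∀ k : ℕ, ∫ x, ‖hb x ^ (k + 1) / ((k : ℝ) + 1)‖ ∂P0 =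
      1 / (((k : ℝ) + 1) * ((k : ℝ) + 2)) := by
    intro k
    rw [← h1 k]
    refine integral_congr_ae ?_
    filter_upwards [ae_dir_ne 0] with x hx
    rw [Real.norm_of_nonneg]
    have := hb_nonneg x hx.1
    positivity
  have h3 := hasSum_integral_of_summable_integral_norm (μ := P0)
    (F := fun (k : ℕ) x => hb x ^ (k + 1) / ((k : ℝ) + 1))
    (fun k => (moments_int (k + 1)).div_const _) (by
      simp_rw [h2]
      exact telescoping.summable)
  simp_rw [h1] at h3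
  have h4 := h3.unique telescoping
  refine Eq.trans (integral_congr_ae ?_) h4
  filter_upwards [ae_dir_ne ez] with x hx
  have h5 : |hb x| < 1 := by
    rw [abs_of_nonneg (hb_nonneg x hx.1)]
    exact hb_lt x hx.1 hx.2
  exact (Real.hasSum_pow_div_log_of_abs_lt_one h5).tsum_eq.symm

lemma log_b_int : Integrable (fun x => Real.log (1 - hb x)) P0 := by
  have h := log_b_val
  by_contra hc
  have h1 : ¬ Integrable (fun x => -Real.log (1 - hb x)) P0 := by
    intro h2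
    apply hc
    simpa using h2.neg
  rw [integral_undef h1] at h
  norm_num at h

/-- the logarithmic potential of the sphere -/
noncomputable def U (y : E3) : ℝ := ∫ x, Real.log (‖dir x - y‖ ^ 2) ∂P0

lemma U_iso (e : E3 ≃ₗᵢ[ℝ] E3) (y : E3) : U (e y) = U y := by
  unfold U
  rw [← P0_comp e]
  congr 1
  funext x
  rw [dir_iso, ← map_sub, LinearIsometryEquiv.norm_map]

lemma U_int_iso (e : E3 ≃ₗᵢ[ℝ] E3) (y : E3) :
    Integrable (fun x => Real.log (‖dir x - e y‖ ^ 2)) P0 ↔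
      Integrable (fun x => Real.log (‖dir x - y‖ ^ 2)) P0 := by
  rw [← P0_comp_int e]
  simp_rw [dir_iso, ← map_sub, LinearIsometryEquiv.norm_map]

lemma U_ez_aux : (fun x => Real.log (‖dir x - ez‖ ^ 2)) =ᵐ[P0]
    fun x => Real.log 4 + Real.log (1 - hb x) := by
  filter_upwards [ae_dir_ne ez] with x hx
  have h1 := dist_ez hx.1 1
  rw [one_smul] at h1
  have h2 := hb_lt x hx.1 hx.2
  rw [h1, show (1 + (1 : ℝ)) ^ 2 - 4 * 1 * hb x = 4 * (1 - hb x) by ring,
    Real.log_mul (by norm_num) (by linarith)]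

lemma U_unit {y : E3} (hy : ‖y‖ = 1) : U y = Real.log 4 - 1 := by
  obtain ⟨e, he⟩ := exists_iso (norm_ez.trans hy.symm)
  rw [← he, U_iso]
  unfold U
  rw [integral_congr_ae U_ez_aux, integral_add (integrable_const _) log_b_int]
  have := log_b_val
  rw [integral_neg] at this
  simp
  linarith

lemma U_int_unit {y : E3} (hy : ‖y‖ = 1) :
    Integrable (fun x => Real.log (‖dir x - y‖ ^ 2)) P0 := by
  obtain ⟨e, he⟩ := exists_iso (norm_ez.trans hy.symm)
  rw [← he, U_int_iso]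
  exact ((integrable_const _).add log_b_int).congr U_ez_aux.symm

end Pool.Agent.H79.Ba
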