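import Pool.Agent.H79.Ba.S10

/-!
# The comparison inequality for a pair of points
-/

set_option autoImplicit false

open MeasureTheory Metric Set

namespace Pool.Agent.H79.Ba

lemma mob_meas' (r : E3) {α : Type*} [MeasurableSpace α] {f : α → E3} (hf : Measurable f) :
    Measurable (fun a => mob r (f a)) := by
  have h1 : Measurable (fun w : E3 => (‖w + r‖ ^ 2)⁻¹) :=
    ((measurable_id.add_const r).norm.pow_const 2).inv
  have h2 : Measurable (fun w : E3 => (2 * (1 + inner ℝ r w)) • r + (1 - ‖r‖ ^ 2) • w) :=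
    Continuous.measurable (by fun_prop)
  have h3 : Measurable (fun w : E3 => mob r w) := by
    unfold mob
    exact h1.smul h2
  exact h3.comp hf

attribute [local irreducible] mob dir

lemma log_bound {t a : ℝ} (ha : 0 < a) (h1 : a ≤ t) (h2 : t ≤ 4) :
    |Real.log t| ≤ Real.log 4 + |Real.log a| := by
  have h3 := Real.log_le_log ha h1
  have h4 := Real.log_le_log (lt_of_lt_of_le ha h1) h2
  have h5 := neg_abs_le (Real.log a)
  have h6 := abs_nonneg (Real.log a)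
  have h7 : 0 ≤ Real.log 4 := Real.log_nonneg (by norm_num)
  rw [abs_le]
  constructor <;> linarith

lemma sq_bounds {w r : E3} (hw : ‖w‖ = 1) (hr : ‖r‖ < 1) :
    (1 - ‖r‖) ^ 2 ≤ ‖w - r‖ ^ 2 ∧ ‖w - r‖ ^ 2 ≤ 4 := by
  have h1 := norm_sub_norm_le w r
  have h2 := norm_sub_le w r
  rw [hw] at h1 h2
  constructor
  · exact pow_le_pow_left₀ (by linarith) h1 2
  · nlinarith [norm_nonneg (w - r)]

lemma log_sub_bound {w r : E3} (hw : ‖w‖ = 1) (hr : ‖r‖ < 1) :
    |Real.log (‖w - r‖ ^ 2)| ≤ Real.log 4 + |Real.log ((1 - ‖r‖) ^ 2)| := by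
  obtain ⟨h1, h2⟩ := sq_bounds hw hr
  exact log_bound (by have : 0 < 1 - ‖r‖ := by linarith
                      positivity) h1 h2

lemma U_meas (r : E3) : AEStronglyMeasurable (fun x => Real.log (‖dir x - r‖ ^ 2)) P0 :=
  (Real.measurable_log.comp ((dir_meas.sub_const r).norm.pow_const 2)).aestronglyMeasurable

lemma U_int_interior {r : E3} (hr : ‖r‖ < 1) :
    Integrable (fun x => Real.log (‖dir x - r‖ ^ 2)) P0 := by
  refine Integrable.of_bound (U_meas r) (Real.log 4 + |Real.log ((1 - ‖r‖) ^ 2)|) ?_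
  filter_upwards [ae_dir_ne 0] with x hx
  exact log_sub_bound (norm_dir hx.1) hr

lemma U_neg (r : E3) : U (-r) = U r := U_iso (LinearIsometryEquiv.neg ℝ) r

/-- the gain in the comparison -/
noncomputable def K (r : E3) : ℝ := U r - (Real.log 4 - 1)

lemma mob_ne_ae {r y : E3} (hr : ‖r‖ < 1) (hy : ‖y‖ = 1) :
    ∀ᵐ x ∂P0, x ≠ 0 ∧ dir x ≠ mob (-r) y ∧ mob r (dir x) ≠ y := by
  filter_upwards [ae_dir_ne (mob (-r) y)] with x hx
  refine ⟨hx.1, hx.2, fun h => hx.2 ?_⟩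
  have h1 := mob_dist (norm_dir hx.1) hy hr
  rw [h, sub_self, norm_zero] at h1
  have h2 : 0 < ‖y - r‖ ^ 2 := by
    have := (sq_bounds hy hr).1
    have h3 : 0 < (1 - ‖r‖) ^ 2 := by
      have : 0 < 1 - ‖r‖ := by linarith
      positivity
    linarith
  have h3 : ‖dir x - mob (-r) y‖ ^ 2 = 0 := by
    have h4 : ‖dir x - mob (-r) y‖ ^ 2 * ‖y - r‖ ^ 2 = 0 := by rw [← h1]; ring
    rcases mul_eq_zero.1 h4 with h5 | h5
    · exact h5
    · exact absurd h5 h2.ne'
  exact sub_eq_zero.1 (norm_eq_zero.1 (pow_eq_zero_iff (by norm_num) |>.1 h3))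

lemma pot_ae {r y : E3} (hr : ‖r‖ < 1) (hy : ‖y‖ = 1) :
    (fun x => Real.log (‖mob r (dir x) - y‖ ^ 2)) =ᵐ[P0] fun x =>
      Real.log (‖dir x - mob (-r) y‖ ^ 2) + Real.log (‖y - r‖ ^ 2) -
        Real.log (‖dir x - (-r)‖ ^ 2) := by
  filter_upwards [mob_ne_ae hr hy] with x hx
  have h1 := mob_dist (norm_dir hx.1) hy hr
  have hp1 : 0 < ‖dir x + r‖ ^ 2 := add_sq_pos (norm_dir hx.1) hr
  have hp2 : 0 < ‖mob r (dir x) - y‖ ^ 2 := by
    have := norm_pos_iff.2 (sub_ne_zero.2 hx.2.2)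
    positivity
  have hp3 : 0 < ‖dir x - mob (-r) y‖ ^ 2 := by
    have := norm_pos_iff.2 (sub_ne_zero.2 hx.2.1)
    positivity
  have hp4 : 0 < ‖y - r‖ ^ 2 := by
    have := (sq_bounds hy hr).1
    have h3 : 0 < (1 - ‖r‖) ^ 2 := by
      have : 0 < 1 - ‖r‖ := by linarith
      positivity
    linarith
  have h2 := congrArg Real.log h1
  rw [Real.log_mul hp2.ne' hp1.ne', Real.log_mul hp3.ne' hp4.ne'] at h2
  rw [sub_neg_eq_add]
  linarith

lemma norm_mob_neg {r y : E3} (hr : ‖r‖ < 1) (hy : ‖y‖ = 1) : ‖mob (-r) y‖ = 1 :=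
  norm_mob hy (by rwa [norm_neg])

lemma pot_int {r y : E3} (hr : ‖r‖ < 1) (hy : ‖y‖ = 1) :
    Integrable (fun x => Real.log (‖mob r (dir x) - y‖ ^ 2)) P0 :=
  (((U_int_unit (norm_mob_neg hr hy)).add (integrable_const _)).sub
    (U_int_interior (r := -r) (by rwa [norm_neg]))).congr (pot_ae hr hy).symm

lemma pot_val {r y : E3} (hr : ‖r‖ < 1) (hy : ‖y‖ = 1) :
    ∫ x, Real.log (‖mob r (dir x) - y‖ ^ 2) ∂P0 = Real.log (‖y - r‖ ^ 2) - K r := by
  have h1 := U_unit (norm_mob_neg hr hy)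
  have h2 := U_neg r
  unfold U at h1 h2
  rw [integral_congr_ae (pot_ae hr hy), integral_sub, integral_add, h1, h2]
  · unfold K U
    simp
    ring
  · exact U_int_unit (norm_mob_neg hr hy)
  · exact integrable_const _
  · exact (U_int_unit (norm_mob_neg hr hy)).add (integrable_const _)
  · exact U_int_interior (r := -r) (by rwa [norm_neg])

lemma abs_const {y : E3} (hy : ‖y‖ = 1) : ∫ x, |Real.log (‖dir x - y‖ ^ 2)| ∂P0 =
    ∫ x, |Real.log (‖dir x - ez‖ ^ 2)| ∂P0 := by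
  obtain ⟨e, he⟩ := exists_iso (norm_ez.trans hy.symm)
  rw [← he, ← P0_comp e]
  congr 1
  funext x
  rw [dir_iso, ← map_sub, LinearIsometryEquiv.norm_map]

/-- uniform bound of the absolute potential -/
lemma pot_abs {r : E3} (hr : ‖r‖ < 1) : ∃ C : ℝ, ∀ y : E3, ‖y‖ = 1 →
    ∫ x, |Real.log (‖mob r (dir x) - y‖ ^ 2)| ∂P0 ≤ C := by
  refine ⟨∫ x, |Real.log (‖dir x - ez‖ ^ 2)| ∂P0 +
    (Real.log 4 + |Real.log ((1 - ‖r‖) ^ 2)|) + ∫ x, |Real.log (‖dir x - (-r)‖ ^ 2)| ∂P0,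
    fun y hy => ?_⟩
  have hi1 := (U_int_unit (norm_mob_neg hr hy)).abs
  have hi2 := (U_int_interior (r := -r) (by rwa [norm_neg])).abs
  have hi3 : Integrable (fun _ : E3 => Real.log 4 + |Real.log ((1 - ‖r‖) ^ 2)|) P0 :=
    integrable_const _
  calc _ ≤ ∫ x, (|Real.log (‖dir x - mob (-r) y‖ ^ 2)| +
        (Real.log 4 + |Real.log ((1 - ‖r‖) ^ 2)|) + |Real.log (‖dir x - (-r)‖ ^ 2)|) ∂P0 := by
        refine integral_mono_ae (pot_int hr hy).abs ((hi1.add hi3).add hi2) ?_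
        filter_upwards [pot_ae hr hy] with x hx
        rw [hx]
        have h1 := log_sub_bound hy hr
        have h2 := abs_sub (Real.log (‖dir x - mob (-r) y‖ ^ 2) + Real.log (‖y - r‖ ^ 2))
          (Real.log (‖dir x - (-r)‖ ^ 2))
        have h3 := abs_add_le (Real.log (‖dir x - mob (-r) y‖ ^ 2)) (Real.log (‖y - r‖ ^ 2))
        linarith
    _ = _ := by
        have hi13 : Integrable (fun x => |Real.log (‖dir x - mob (-r) y‖ ^ 2)| +
          (Real.log 4 + |Real.log ((1 - ‖r‖) ^ 2)|)) P0 := hi1.add hi3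
        rw [integral_add hi13 hi2, integral_add hi1 hi3, abs_const (norm_mob_neg hr hy),
          integral_const]
        simp

/-- the function of two directions -/
noncomputable def pf (r r' : E3) (p : E3 × E3) : ℝ :=
  Real.log (‖mob r (dir p.1) - mob r' (dir p.2)‖ ^ 2)

lemma pf_meas (r r' : E3) : Measurable (pf r r') := by
  unfold pf
  have h1 : Measurable (fun p : E3 × E3 => mob r (dir p.1)) :=
    mob_meas' r (dir_meas.comp measurable_fst)
  have h2 : Measurable (fun p : E3 × E3 => mob r' (dir p.2)) :=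
    mob_meas' r' (dir_meas.comp measurable_snd)
  exact Real.measurable_log.comp ((h1.sub h2).norm.pow_const 2)

lemma pf_int {r r' : E3} (hr : ‖r‖ < 1) (hr' : ‖r'‖ < 1) : Integrable (pf r r') (P0.prod P0) := by
  rw [integrable_prod_iff (pf_meas r r').aestronglyMeasurable]
  constructor
  · filter_upwards [ae_dir_ne 0] with x hx
    have h := pot_int hr' (norm_mob (norm_dir hx.1) hr)
    refine h.congr (Filter.Eventually.of_forall fun y => ?_)
    simp only [pf]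
    rw [norm_sub_rev]
  · obtain ⟨C, hC⟩ := pot_abs hr'
    refine Integrable.of_bound (pf_meas r r').aestronglyMeasurable.norm.integral_prod_right' C ?_
    filter_upwards [ae_dir_ne 0] with x hx
    have h := hC _ (norm_mob (norm_dir hx.1) hr)
    rw [Real.norm_of_nonneg (integral_nonneg fun _ => norm_nonneg _)]
    refine le_trans (le_of_eq ?_) h
    congr 1
    funext y
    simp only [pf]
    rw [norm_sub_rev, Real.norm_eq_abs]

lemma pf_val {r r' : E3} (hr : ‖r‖ < 1) (hr' : ‖r'‖ < 1) :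
    ∫ p, pf r r' p ∂(P0.prod P0) =
      ∫ x, (Real.log (‖mob r (dir x) - r'‖ ^ 2) - K r') ∂P0 := by
  rw [integral_prod _ (pf_int hr hr')]
  refine integral_congr_ae ?_
  filter_upwards [ae_dir_ne 0] with x hx
  rw [← pot_val hr' (norm_mob (norm_dir hx.1) hr)]
  congr 1
  funext y
  simp only [pf]
  rw [norm_sub_rev]

lemma scale_ineq {X r' : E3} (hX : ‖X‖ = 1) (hr0 : r' ≠ 0) :
    ‖r'‖ * ‖X - dir r'‖ ^ 2 ≤ ‖X - r'‖ ^ 2 := by
  have h1 : inner ℝ X r' = ‖r'‖ * inner ℝ X (dir r') := by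
    unfold dir
    rw [real_inner_smul_right, ← mul_assoc, mul_inv_cancel₀ (norm_ne_zero_iff.2 hr0), one_mul]
  rw [norm_sub_sq_real, norm_sub_sq_real, hX, norm_dir hr0, h1]
  nlinarith [sq_nonneg (1 - ‖r'‖)]

lemma scale_ineq2 {r r' : E3} (h : ‖r‖ ≤ ‖r'‖) (hr' : ‖r'‖ < 1) (hr0 : r' ≠ 0) :
    ‖r - r'‖ ^ 2 ≤ ‖r'‖ * ‖dir r' - r‖ ^ 2 := by
  have h1 : inner ℝ r r' = ‖r'‖ * inner ℝ r (dir r') := by
    unfold dir
    rw [real_inner_smul_right, ← mul_assoc, mul_inv_cancel₀ (norm_ne_zero_iff.2 hr0), one_mul]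
  rw [norm_sub_sq_real, norm_sub_sq_real, norm_dir hr0, h1, real_inner_comm r (dir r')]
  have h2 := norm_nonneg r
  have h3 : ‖r‖ ^ 2 ≤ ‖r'‖ ^ 2 := pow_le_pow_left₀ h2 h 2
  have h4 := norm_nonneg r'
  have h5 : ‖r‖ ^ 2 ≤ ‖r'‖ := by nlinarith
  nlinarith [mul_nonneg (sub_nonneg.2 hr'.le) (sub_nonneg.2 h5)]

lemma pair_aux {r r' : E3} (hr : ‖r‖ < 1) (hr' : ‖r'‖ < 1) (h : ‖r‖ ≤ ‖r'‖) (hne : r ≠ r') :
    Real.log (‖r - r'‖ ^ 2) ≤ K r + K r' + ∫ p, pf r r' p ∂(P0.prod P0) := by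
  have hr0 : r' ≠ 0 := by
    intro h0
    rw [h0, norm_zero] at h
    have : r = 0 := norm_le_zero_iff.1 h
    exact hne (this.trans h0.symm)
  have hrp : 0 < ‖r'‖ := norm_pos_iff.2 hr0
  rw [pf_val hr hr']
  have hu := norm_dir hr0
  have i1 : Integrable (fun x => Real.log (‖mob r (dir x) - r'‖ ^ 2)) P0 := by
    refine Integrable.of_bound ?_ (Real.log 4 + |Real.log ((1 - ‖r'‖) ^ 2)|) ?_
    · have h1 : Measurable (fun x : E3 => mob r (dir x)) := mob_meas' r dir_meas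
      exact (Real.measurable_log.comp ((h1.sub_const r').norm.pow_const 2)).aestronglyMeasurable
    · filter_upwards [ae_dir_ne 0] with x hx
      exact log_sub_bound (norm_mob (norm_dir hx.1) hr) hr'
  rw [integral_sub i1 (integrable_const _)]
  have h1 : ∫ x, (Real.log ‖r'‖ + Real.log (‖mob r (dir x) - dir r'‖ ^ 2)) ∂P0 ≤
      ∫ x, Real.log (‖mob r (dir x) - r'‖ ^ 2) ∂P0 := by
    refine integral_mono_ae ((integrable_const _).add (pot_int hr hu)) i1 ?_
    filter_upwards [mob_ne_ae hr hu] with x hx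
    have hp : 0 < ‖mob r (dir x) - dir r'‖ ^ 2 := by
      have := norm_pos_iff.2 (sub_ne_zero.2 hx.2.2)
      positivity
    rw [← Real.log_mul hrp.ne' hp.ne']
    exact Real.log_le_log (by positivity) (scale_ineq (norm_mob (norm_dir hx.1) hr) hr0)
  rw [integral_add (integrable_const _) (pot_int hr hu), pot_val hr hu] at h1
  have h2 : Real.log (‖r - r'‖ ^ 2) ≤ Real.log ‖r'‖ + Real.log (‖dir r' - r‖ ^ 2) := by
    have hp1 : 0 < ‖r - r'‖ ^ 2 := by
      have := norm_pos_iff.2 (sub_ne_zero.2 hne)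
      positivity
    have hp2 : 0 < ‖dir r' - r‖ ^ 2 := by
      have := (sq_bounds hu hr).1
      have h3 : 0 < (1 - ‖r‖) ^ 2 := by
        have : 0 < 1 - ‖r‖ := by linarith
        positivity
      linarith
    rw [← Real.log_mul hrp.ne' hp2.ne']
    exact Real.log_le_log hp1 (scale_ineq2 h hr' hr0)
  simp only [integral_const, probReal_univ, smul_eq_mul, one_mul] at h1 ⊢
  linarith

lemma pf_swap (r r' : E3) : ∫ p, pf r r' p ∂(P0.prod P0) = ∫ p, pf r' r p ∂(P0.prod P0) := by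
  rw [← integral_prod_swap]
  congr 1
  funext p
  simp only [pf, Prod.fst_swap, Prod.snd_swap]
  rw [norm_sub_rev]

/-- the comparison inequality for a pair -/
theorem pair_ineq {r r' : E3} (hr : ‖r‖ < 1) (hr' : ‖r'‖ < 1) (hne : r ≠ r') :
    Real.log (‖r - r'‖ ^ 2) ≤ K r + K r' + ∫ p, pf r r' p ∂(P0.prod P0) := by
  rcases le_total ‖r‖ ‖r'‖ with h | h
  · exact pair_aux hr hr' h hne
  · have := pair_aux hr' hr h hne.symm
    rw [norm_sub_rev, pf_swap] 
    rw [pf_swap] at this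
    rw [pf_swap]
    linarith

end Pool.Agent.H79.Ba
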