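import Pool.Agent.H79.Ba.S11

/-!
# The comparison inequality for a configuration
-/

set_option autoImplicit false

open MeasureTheory Metric Set

namespace Pool.Agent.H79.Ba

attribute [local irreducible] mob dir

lemma ofReal_integral_le {X : Type*} [MeasurableSpace X] {ρ : Measure X} {ψ : X → ℝ}
    (hψ : Integrable ψ ρ) : ENNReal.ofReal (∫ x, ψ x ∂ρ) ≤ ∫⁻ x, ENNReal.ofReal (ψ x) ∂ρ := by
  rw [integral_eq_lintegral_pos_part_sub_lintegral_neg_part hψ]
  calc _ ≤ ENNReal.ofReal (∫⁻ x, ENNReal.ofReal (ψ x) ∂ρ).toReal := by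
        apply ENNReal.ofReal_le_ofReal
        have : 0 ≤ (∫⁻ x, ENNReal.ofReal (-ψ x) ∂ρ).toReal := ENNReal.toReal_nonneg
        linarith
    _ ≤ _ := ENNReal.ofReal_toReal_le

lemma jensen {X : Type*} [MeasurableSpace X] {ρ : Measure X} [IsProbabilityMeasure ρ] {h : X → ℝ}
    (hh : Integrable h ρ) :
    ENNReal.ofReal (Real.exp (∫ x, h x ∂ρ)) ≤ ∫⁻ x, ENNReal.ofReal (Real.exp (h x)) ∂ρ := by
  set c := ∫ x, h x ∂ρ with hc
  have hi : Integrable (fun x => Real.exp c * (1 + (h x - c))) ρ :=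
    ((integrable_const (1:ℝ)).add (hh.sub (integrable_const c))).const_mul _
  have h1 := ofReal_integral_le hi
  have hsb : Integrable (fun x => h x - c) ρ := hh.sub (integrable_const c)
  have h2 : ∫ x, Real.exp c * (1 + (h x - c)) ∂ρ = Real.exp c := by
    rw [integral_const_mul, integral_add (integrable_const _) hsb,
      integral_sub hh (integrable_const c), ← hc]
    simp
  rw [h2] at h1
  refine h1.trans (lintegral_mono fun x => ENNReal.ofReal_le_ofReal ?_)
  have h3 := Real.add_one_le_exp (h x - c)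
  have h4 : Real.exp (h x) = Real.exp c * Real.exp (h x - c) := by
    rw [← Real.exp_add]; congr 1; ring
  rw [h4]
  apply mul_le_mul_of_nonneg_left _ (Real.exp_pos _).le
  linarith

/-- law of a pair of coordinates -/
lemma pair_law {n : ℕ} {i j : Fin n} (hij : i ≠ j) :
    (Measure.pi fun _ : Fin n => P0).map (fun u => (u i, u j)) = P0.prod P0 := by
  have h1 := ProbabilityTheory.iIndepFun_pi (μ := fun _ : Fin n => P0)
    (X := fun _ => (id : E3 → E3)) (fun i => aemeasurable_id)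
  have h2 := h1.indepFun hij
  have h3 := (ProbabilityTheory.indepFun_iff_map_prod_eq_prod_map_map
    (f := fun u : Fin n → E3 => u i) (g := fun u : Fin n → E3 => u j)
    (measurable_pi_apply i).aemeasurable (measurable_pi_apply j).aemeasurable).1 h2
  rw [h3]
  congr 1
  · exact (measurePreserving_eval (fun _ : Fin n => P0) i).map_eq
  · exact (measurePreserving_eval (fun _ : Fin n => P0) j).map_eq

lemma pair_meas {n : ℕ} (i j : Fin n) : Measurable (fun u : Fin n → E3 => (u i, u j)) :=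
  (measurable_pi_apply i).prodMk (measurable_pi_apply j)

lemma pair_int {n : ℕ} {i j : Fin n} (hij : i ≠ j) {r r' : E3} (hr : ‖r‖ < 1) (hr' : ‖r'‖ < 1) :
    Integrable (fun u : Fin n → E3 => pf r r' (u i, u j)) (Measure.pi fun _ : Fin n => P0) := by
  have h := pf_int hr hr'
  rw [← pair_law hij] at h
  exact h.comp_measurable (pair_meas i j)

lemma pair_val {n : ℕ} {i j : Fin n} (hij : i ≠ j) (r r' : E3) :
    ∫ u : Fin n → E3, pf r r' (u i, u j) ∂(Measure.pi fun _ : Fin n => P0) =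
      ∫ p, pf r r' p ∂(P0.prod P0) := by
  rw [← pair_law hij, integral_map (pair_meas i j).aemeasurable
    (pf_meas r r').aestronglyMeasurable]

lemma pair_ne {r r' : E3} (hr : ‖r‖ < 1) (hr' : ‖r'‖ < 1) :
    ∀ᵐ p ∂(P0.prod P0), mob r (dir p.1) ≠ mob r' (dir p.2) := by
  have h1 : Measurable (fun p : E3 × E3 => mob r (dir p.1)) :=
    mob_meas' r (dir_meas.comp measurable_fst)
  have h2 : Measurable (fun p : E3 × E3 => mob r' (dir p.2)) :=
    mob_meas' r' (dir_meas.comp measurable_snd)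
  refine (Measure.ae_prod_iff_ae_ae (p := fun p : E3 × E3 => mob r (dir p.1) ≠ mob r' (dir p.2))
    (measurableSet_eq_fun h1 h2).compl).2 ?_
  filter_upwards [ae_dir_ne 0] with x hx
  filter_upwards [mob_ne_ae hr' (norm_mob (norm_dir hx.1) hr)] with y hy
  exact fun h => hy.2.2 h.symm

lemma pair_ne_pi {n : ℕ} {i j : Fin n} (hij : i ≠ j) {r r' : E3} (hr : ‖r‖ < 1) (hr' : ‖r'‖ < 1) :
    ∀ᵐ u ∂(Measure.pi fun _ : Fin n => P0), mob r (dir (u i)) ≠ mob r' (dir (u j)) := by
  have h := pair_ne hr hr'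
  rw [← pair_law hij] at h
  exact ae_of_ae_map (pair_meas i j).aemeasurable h

/-- the logarithmic form of `Q` -/
lemma exp_log_Q {n : ℕ} (r : Fin n → E3) (hr : ∀ i j, i ≠ j → r i ≠ r j) :
    Q r = Real.exp (∑ k : Fin n, ∑ j ∈ Finset.Ioi k, Real.log (‖r j - r k‖ ^ 2)) := by
  rw [Real.exp_sum]
  unfold Q
  refine Finset.prod_congr rfl fun k _ => ?_
  rw [Real.exp_sum]
  refine Finset.prod_congr rfl fun j hj => ?_
  have hne : r j - r k ≠ 0 := sub_ne_zero.2 (hr j k (ne_of_gt (Finset.mem_Ioi.1 hj)))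
  have := norm_pos_iff.2 hne
  rw [Real.exp_log (by positivity)]

/-- the comparison of a configuration in the ball with configurations on the sphere -/
theorem config_ineq {n : ℕ} (r : Fin n → E3) (hr : ∀ i, ‖r i‖ < 1)
    (hd : ∀ i j, i ≠ j → r i ≠ r j) :
    ENNReal.ofReal (Q r) ≤ (∏ i, ENNReal.ofReal (Real.exp (((n - 1 : ℕ) : ℝ) * K (r i)))) *
      ∫⁻ x, ENNReal.ofReal (Q fun i => mob (r i) (dir (x i))) ∂(Measure.pi fun _ : Fin n => P0) := by
  set g : (Fin n → E3) → ℝ := fun x => ∑ k : Fin n, ∑ j ∈ Finset.Ioi k,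
    pf (r j) (r k) (x j, x k) with hg
  have hne : ∀ k j : Fin n, j ∈ Finset.Ioi k → j ≠ k := fun k j hj =>
    ne_of_gt (Finset.mem_Ioi.1 hj)
  have hgi : Integrable g (Measure.pi fun _ : Fin n => P0) :=
    integrable_finsetSum _ fun k _ => integrable_finsetSum _ fun j hj =>
      pair_int (hne k j hj) (hr j) (hr k)
  have hgv : ∫ x, g x ∂(Measure.pi fun _ : Fin n => P0) = ∑ k : Fin n, ∑ j ∈ Finset.Ioi k,
      ∫ p, pf (r j) (r k) p ∂(P0.prod P0) := by
    rw [hg, integral_finsetSum _ fun k _ => integrable_finsetSum _ fun j hj =>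
      pair_int (hne k j hj) (hr j) (hr k)]
    refine Finset.sum_congr rfl fun k _ => ?_
    rw [integral_finsetSum _ fun j hj => pair_int (hne k j hj) (hr j) (hr k)]
    exact Finset.sum_congr rfl fun j hj => pair_val (hne k j hj) _ _
  have hcomb : ∑ k : Fin n, ∑ j ∈ Finset.Ioi k, (K (r j) + K (r k)) =
      ∑ i : Fin n, ((n - 1 : ℕ) : ℝ) * K (r i) := by
    have h1 := Finset.sum_sum_Ioi_add_eq_sum_sum_off_diag (fun _ i : Fin n => K (r i))
    have h2 : ∑ k : Fin n, ∑ j ∈ Finset.Ioi k, (K (r j) + K (r k)) =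
        ∑ k : Fin n, ∑ j ∈ Finset.Ioi k, (K (r k) + K (r j)) :=
      Finset.sum_congr rfl fun k _ => Finset.sum_congr rfl fun j _ => add_comm _ _
    rw [h2, h1]
    refine Finset.sum_congr rfl fun i _ => ?_
    rw [Finset.sum_const, Finset.card_compl, Finset.card_singleton, Fintype.card_fin, nsmul_eq_mul]
  have hlog : ∑ k : Fin n, ∑ j ∈ Finset.Ioi k, Real.log (‖r j - r k‖ ^ 2) ≤
      (∑ i : Fin n, ((n - 1 : ℕ) : ℝ) * K (r i)) + ∫ x, g x ∂(Measure.pi fun _ : Fin n => P0) := by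
    rw [← hcomb, hgv, ← Finset.sum_add_distrib]
    refine Finset.sum_le_sum fun k _ => ?_
    rw [← Finset.sum_add_distrib]
    exact Finset.sum_le_sum fun j hj => pair_ineq (hr j) (hr k) (hd j k (hne k j hj))
  have hexp : (fun x => ENNReal.ofReal (Real.exp (g x))) =ᵐ[Measure.pi fun _ : Fin n => P0]
      fun x => ENNReal.ofReal (Q fun i => mob (r i) (dir (x i))) := by
    have h1 : ∀ᵐ u ∂(Measure.pi fun _ : Fin n => P0), ∀ i j : Fin n, i ≠ j →
        mob (r i) (dir (u i)) ≠ mob (r j) (dir (u j)) := by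
      rw [ae_all_iff]
      intro i
      rw [ae_all_iff]
      intro j
      by_cases hij : i = j
      · exact Filter.Eventually.of_forall fun u h => absurd hij h
      · filter_upwards [pair_ne_pi hij (hr i) (hr j)] with u hu _
        exact hu
    filter_upwards [h1] with u hu
    rw [exp_log_Q _ hu]
    rfl
  calc ENNReal.ofReal (Q r) = ENNReal.ofReal (Real.exp (∑ k : Fin n, ∑ j ∈ Finset.Ioi k,
        Real.log (‖r j - r k‖ ^ 2))) := by rw [exp_log_Q r hd]
    _ ≤ ENNReal.ofReal (Real.exp (∑ i : Fin n, ((n - 1 : ℕ) : ℝ) * K (r i)) *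
        Real.exp (∫ x, g x ∂(Measure.pi fun _ : Fin n => P0))) := by
        rw [← Real.exp_add]
        exact ENNReal.ofReal_le_ofReal (Real.exp_le_exp.2 hlog)
    _ = ENNReal.ofReal (Real.exp (∑ i : Fin n, ((n - 1 : ℕ) : ℝ) * K (r i))) *
        ENNReal.ofReal (Real.exp (∫ x, g x ∂(Measure.pi fun _ : Fin n => P0))) :=
        ENNReal.ofReal_mul (Real.exp_pos _).le
    _ ≤ _ := by
        rw [Real.exp_sum, ENNReal.ofReal_prod_of_nonneg fun i _ => (Real.exp_pos _).le]
        refine mul_le_mul_right ?_ _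
        rw [← lintegral_congr_ae hexp]
        exact jensen hgi

end Pool.Agent.H79.Ba
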