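import Pool.Agent.H79.Ba.S12

/-!
# Upper bound of the integral by a determinantal integral
-/

set_option autoImplicit false

open MeasureTheory Metric Set
open scoped ENNReal

namespace Pool.Agent.H79.Ba

attribute [local irreducible] mob dir

lemma U_meas' : Measurable U := by
  have h : StronglyMeasurable (fun p : E3 × E3 => Real.log (‖dir p.2 - p.1‖ ^ 2)) :=
    (Real.measurable_log.comp
      (((dir_meas.comp measurable_snd).sub measurable_fst).norm.pow_const 2)).stronglyMeasurable
  exact (h.integral_prod_right' (ν := P0)).measurable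

lemma K_meas : Measurable K := U_meas'.sub_const _

lemma K_le_one {r : E3} (hr : ‖r‖ < 1) : K r ≤ 1 := by
  unfold K U
  have h1 : ∫ x, Real.log (‖dir x - r‖ ^ 2) ∂P0 ≤ ∫ _x, Real.log 4 ∂P0 := by
    refine integral_mono_ae (U_int_interior hr) (integrable_const _) ?_
    filter_upwards [ae_dir_ne 0] with x hx
    obtain ⟨h1, h2⟩ := sq_bounds (norm_dir hx.1) hr
    have h3 : 0 < (1 - ‖r‖) ^ 2 := by
      have : 0 < 1 - ‖r‖ := by linarith
      positivity
    exact Real.log_le_log (by linarith) h2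
  simp only [integral_const, probReal_univ, smul_eq_mul, one_mul] at h1
  linarith

lemma K_iso (e : E3 ≃ₗᵢ[ℝ] E3) (r : E3) : K (e r) = K r := by
  unfold K
  rw [U_iso]

/-- Lebesgue measure on the ball -/
noncomputable abbrev vB : Measure E3 := volume.restrict (closedBall (0 : E3) 1)

instance : IsFiniteMeasure vB := good_ball.fin

lemma ae_int : ∀ᵐ r ∂vB, ‖r‖ < 1 := by
  have h1 : ∀ᵐ r ∂vB, ‖r‖ ≤ 1 := good_ball.bdd
  have h2 : ∀ᵐ r ∂vB, ‖r‖ ≠ 1 := by
    refine ae_restrict_of_ae ?_
    rw [ae_iff]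
    have := Measure.addHaar_sphere (volume : Measure E3) (0 : E3) 1
    convert this using 2
    ext x
    simp
  filter_upwards [h1, h2] with r a b
  exact lt_of_le_of_ne a b

/-- the weight -/
noncomputable def w (m : ℕ) (r : E3) : ℝ := Real.exp ((m : ℝ) * K r)

lemma w_meas (m : ℕ) : Measurable (w m) := Real.measurable_exp.comp (K_meas.const_mul _)

lemma w_pos (m : ℕ) (r : E3) : 0 < w m r := Real.exp_pos _

lemma w_int (m : ℕ) : Integrable (w m) vB := by
  refine Integrable.of_bound (w_meas m).aestronglyMeasurable (Real.exp m) ?_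
  filter_upwards [ae_int] with r hr
  rw [Real.norm_of_nonneg (w_pos m r).le]
  unfold w
  refine Real.exp_le_exp.2 ?_
  have := K_le_one hr
  have h2 : (0 : ℝ) ≤ m := Nat.cast_nonneg m
  nlinarith

/-- weighted measure on the ball -/
noncomputable def nw (m : ℕ) : Measure E3 := vB.withDensity fun r => ENNReal.ofReal (w m r)

instance (m : ℕ) : IsFiniteMeasure (nw m) := isFiniteMeasure_withDensity_ofReal (w_int m).2

lemma nw_abs (m : ℕ) : nw m ≪ vB := withDensity_absolutelyContinuous _ _

lemma nw_inv (m : ℕ) (L : E3 ≃ₗᵢ[ℝ] E3) : (nw m).map L = nw m := by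
  have hL : Measurable (L : E3 → E3) := L.continuous.measurable
  ext s hs
  rw [Measure.map_apply hL hs]
  unfold nw
  rw [withDensity_apply _ (hL hs), withDensity_apply _ hs]
  have hvB : vB.map L = vB := ball_inv L
  conv_rhs => rw [← hvB]
  rw [setLIntegral_map hs (w_meas m).ennreal_ofReal hL]
  refine lintegral_congr fun r => ?_
  unfold w
  rw [K_iso]

lemma nw_univ (m : ℕ) : (nw m).real univ = ∫ r in closedBall (0 : E3) 1, w m r := by
  unfold Measure.real nw
  rw [withDensity_apply _ MeasurableSet.univ, Measure.restrict_univ,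
    ← ofReal_integral_eq_lintegral_ofReal (w_int m)
      (Filter.Eventually.of_forall fun r => (w_pos m r).le),
    ENNReal.toReal_ofReal (integral_nonneg fun r => (w_pos m r).le)]

lemma pi_nw (n m : ℕ) : Measure.pi (fun _ : Fin n => nw m) =
    (Measure.pi fun _ : Fin n => vB).withDensity (fun x => ∏ i, ENNReal.ofReal (w m (x i))) := by
  apply Measure.pi_eq
  intro s hs
  rw [withDensity_apply _ (MeasurableSet.univ_pi hs), Measure.restrict_pi_pi]
  have e1 : ∀ x : Fin n → E3, ∏ i, ENNReal.ofReal (w m (x i)) =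
      ENNReal.ofReal (∏ i, w m (x i)) := fun x =>
    (ENNReal.ofReal_prod_of_nonneg fun i _ => (w_pos m _).le).symm
  simp_rw [e1]
  have hi : Integrable (fun x : Fin n → E3 => ∏ i, w m (x i))
      (Measure.pi fun i => vB.restrict (s i)) :=
    Integrable.fintype_prod (fun i => (w_int m).restrict)
  rw [← ofReal_integral_eq_lintegral_ofReal hi
    (Filter.Eventually.of_forall fun x => Finset.prod_nonneg fun i _ => (w_pos m _).le),
    integral_fintype_prod_eq_prod (fun _ => w m),
    ENNReal.ofReal_prod_of_nonneg (fun i _ => integral_nonneg fun r => (w_pos m r).le)]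
  refine Finset.prod_congr rfl fun i _ => ?_
  rw [ofReal_integral_eq_lintegral_ofReal (w_int m).restrict
    (Filter.Eventually.of_forall fun r => (w_pos m r).le)]
  unfold nw
  rw [withDensity_apply _ (hs i)]

/-- the map to the sphere -/
noncomputable def T (p : E3 × E3) : E3 := mob p.1 (dir p.2)

lemma T_meas : Measurable T :=
  mob_meas.comp (measurable_fst.prodMk (dir_meas.comp measurable_snd))

lemma T_iso (L : E3 ≃ₗᵢ[ℝ] E3) (p : E3 × E3) : T (L p.1, L p.2) = L (T p) := by
  unfold T
  rw [dir_iso, mob_iso]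

/-- the measure on the sphere -/
noncomputable def MM (m : ℕ) : Measure E3 := ((nw m).prod P0).map T

instance (m : ℕ) : IsFiniteMeasure (MM m) := by
  unfold MM
  infer_instance

lemma ae_T (m : ℕ) : ∀ᵐ p ∂((nw m).prod P0), ‖T p‖ = 1 ∧ ze (T p) ≠ 0 := by
  have hm : MeasurableSet {p : E3 × E3 | ‖T p‖ = 1 ∧ ze (T p) ≠ 0} := by
    refine MeasurableSet.inter ?_ ?_
    · exact measurableSet_eq_fun T_meas.norm measurable_const
    · exact (measurableSet_eq_fun (ze_meas.comp T_meas) measurable_const).compl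
  refine (Measure.ae_prod_iff_ae_ae hm).2 ?_
  filter_upwards [(nw_abs m).ae_le ae_int] with r hr
  have hneg : ‖-ez‖ = 1 := by rw [norm_neg]; exact norm_ez
  filter_upwards [mob_ne_ae hr norm_ez, mob_ne_ae hr hneg] with x h1 h2
  have h3 : ‖mob r (dir x)‖ = 1 := norm_mob (norm_dir h1.1) hr
  refine ⟨h3, fun h4 => ?_⟩
  have h4' : ze (mob r (dir x)) = 0 := h4
  have h5 := norm_sq_E3 (mob r (dir x))
  have h6 : mob r (dir x) 0 = 0 := congrArg Complex.re h4'
  have h7 : mob r (dir x) 1 = 0 := congrArg Complex.im h4'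
  rw [h3, h6, h7] at h5
  have h8 : (mob r (dir x) 2 - 1) * (mob r (dir x) 2 + 1) = 0 := by nlinarith
  rcases mul_eq_zero.1 h8 with h9 | h9
  · apply h1.2.2
    ext i
    fin_cases i
    · simpa [ez] using h6
    · simpa [ez] using h7
    · simp [ez]
      linarith
  · apply h2.2.2
    ext i
    fin_cases i
    · simpa [ez] using h6
    · simpa [ez] using h7
    · simp [ez]
      linarith

lemma ae_MM (m : ℕ) : ∀ᵐ y ∂(MM m), ‖y‖ = 1 ∧ ze y ≠ 0 := by
  have hm : MeasurableSet {y : E3 | ‖y‖ = 1 ∧ ze y ≠ 0} := by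
    refine MeasurableSet.inter ?_ ?_
    · exact measurableSet_eq_fun measurable_norm measurable_const
    · exact (measurableSet_eq_fun ze_meas measurable_const).compl
  exact (ae_map_iff T_meas.aemeasurable hm).2 (ae_T m)

lemma good_MM (m : ℕ) : Good (MM m) where
  fin := inferInstance
  inv := by
    intro L
    have hL : Measurable (L : E3 → E3) := L.continuous.measurable
    unfold MM
    rw [Measure.map_map hL T_meas]
    have h1 : (L : E3 → E3) ∘ T = T ∘ Prod.map L L := by
      funext p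
      exact (T_iso L p).symm
    rw [h1, ← Measure.map_map T_meas (hL.prodMap hL), ← Measure.map_prod_map _ _ hL hL,
      nw_inv, P0_inv]
  bdd := (ae_MM m).mono fun y hy => hy.1.le
  zne := (ae_MM m).mono fun y hy => hy.2

lemma MM_total (m : ℕ) : ∫ y, ‖y‖ ^ m ∂(MM m) = ∫ r in closedBall (0 : E3) 1, w m r := by
  have h1 : ∀ᵐ y ∂(MM m), ‖y‖ ^ m = 1 := (ae_MM m).mono fun y hy => by rw [hy.1, one_pow]
  rw [integral_congr_ae h1, integral_const, smul_eq_mul, mul_one, ← nw_univ]
  unfold Measure.real MM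
  rw [Measure.map_apply T_meas MeasurableSet.univ, preimage_univ, ← univ_prod_univ,
    Measure.prod_prod, (measure_univ : P0 univ = 1), mul_one]

lemma Q_eq_zero {n : ℕ} (r : Fin n → E3) {i j : Fin n} (hij : i ≠ j) (h : r i = r j) : Q r = 0 := by
  rw [Q_isolate i]
  have : ∏ j ∈ ({i} : Finset (Fin n))ᶜ, ‖r i - r j‖ ^ 2 = 0 := by
    refine Finset.prod_eq_zero (i := j) ?_ ?_
    · rw [Finset.mem_compl, Finset.mem_singleton]
      exact fun h => hij h.symm
    · rw [h, sub_self, norm_zero]
      norm_num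
  rw [this, zero_mul]

lemma ph_eq {z : ℂ} (hz : z ≠ 0) : ph 0 z = ph 1 z := by
  unfold ph
  rw [if_neg hz, if_neg hz]

lemma Q_eq_det {n : ℕ} (y : Fin n → E3) (h1 : ∀ i, ‖y i‖ = 1) (h2 : ∀ i, ze (y i) ≠ 0) :
    Q y = 2 ^ (n * (n - 1)) * ‖(Mt 0 y).det‖ ^ 2 := by
  rw [Q_eq 1 (by simp) y h1]
  have : Mt 1 y = Mt 0 y := by
    unfold Mt
    congr 1
    funext i
    unfold sv
    rw [ph_eq (h2 i)]
  rw [this]

lemma det_integrable {M : Measure E3} (hM : Good M) (n : ℕ) :
    Integrable (fun r : Fin n → E3 => ‖(Mt 0 r).det‖ ^ 2) (Measure.pi fun _ => M) := by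
  have := hM.fin
  have h1 : Integrable (fun r : Fin n → E3 => ((‖(Mt 0 r).det‖ ^ 2 : ℝ) : ℂ))
      (Measure.pi fun _ => M) := by
    simp_rw [norm_det_expand]
    refine integrable_finsetSum _ fun σ _ => integrable_finsetSum _ fun τ _ => ?_
    refine Integrable.const_mul ?_ _
    exact Integrable.fintype_prod
      (f := fun i x => fm (n - 1) (σ i) x * (starRingEnd ℂ) (fm (n - 1) (τ i) x))
      (fun i => gint_prod hM (n - 1) (σ i) (τ i))
  have h2 := h1.norm
  refine h2.congr (Filter.Eventually.of_forall fun r => ?_)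
  simp only [Complex.norm_real]
  exact Real.norm_of_nonneg (by positivity)

lemma QT_meas (n : ℕ) : Measurable (fun p : (Fin n → E3) × (Fin n → E3) =>
    ENNReal.ofReal (Q fun i => mob (p.1 i) (dir (p.2 i)))) := by
  have h1 : Measurable (fun p : (Fin n → E3) × (Fin n → E3) =>
      (fun i => mob (p.1 i) (dir (p.2 i)) : Fin n → E3)) := by
    refine measurable_pi_lambda _ fun i => ?_
    have h2 : Measurable (fun p : (Fin n → E3) × (Fin n → E3) => (p.1 i, p.2 i)) :=
      ((measurable_pi_apply i).comp measurable_fst).prodMk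
        ((measurable_pi_apply i).comp measurable_snd)
    exact T_meas.comp h2
  exact (Q_continuous.measurable.comp h1).ennreal_ofReal

/-- upper bound in terms of the total weight -/
theorem F3_upper {n : ℕ} (hn : 1 ≤ n) :
    F3 n ≤ Bn n * ((n.factorial : ℝ) * ((∫ r in closedBall (0 : E3) 1, w (n - 1) r) / n) ^ n) := by
  have hW : 0 ≤ ∫ r in closedBall (0 : E3) 1, w (n - 1) r :=
    integral_nonneg fun r => (w_pos _ r).le
  have hB := Bn_pos n
  have e0 : F3 n = ∫ r, Q r ∂(Measure.pi fun _ : Fin n => vB) := by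
    unfold F3
    rw [set_eq, volume_pi, Measure.restrict_pi_pi]
  have hQi : Integrable (fun r : Fin n → E3 => Q r) (Measure.pi fun _ : Fin n => vB) := by
    have := Q_integrableOn n
    unfold IntegrableOn at this
    rw [set_eq, volume_pi, Measure.restrict_pi_pi] at this
    exact this
  have e1 : ENNReal.ofReal (F3 n) = ∫⁻ r, ENNReal.ofReal (Q r) ∂(Measure.pi fun _ : Fin n => vB) := by
    rw [e0, ofReal_integral_eq_lintegral_ofReal hQi (Filter.Eventually.of_forall fun r => Q_nonneg r)]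
  have e2 : ∫⁻ r, ENNReal.ofReal (Q r) ∂(Measure.pi fun _ : Fin n => vB) ≤
      ∫⁻ r, (∏ i, ENNReal.ofReal (w (n - 1) (r i))) *
        (∫⁻ x, ENNReal.ofReal (Q fun i => mob (r i) (dir (x i))) ∂(Measure.pi fun _ : Fin n => P0))
        ∂(Measure.pi fun _ : Fin n => vB) := by
    refine lintegral_mono_ae ?_
    have h1 : ∀ᵐ r ∂(Measure.pi fun _ : Fin n => vB), ∀ i : Fin n, ‖r i‖ < 1 := by
      rw [ae_all_iff]
      intro i
      exact (Measure.tendsto_eval_ae_ae (μ := fun _ : Fin n => vB) (i := i)).eventually ae_int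
    filter_upwards [h1] with r hr
    by_cases hd : ∀ i j, i ≠ j → r i ≠ r j
    · exact config_ineq r hr hd
    · push Not at hd
      obtain ⟨i, j, hij, h⟩ := hd
      rw [Q_eq_zero r hij h]
      simp
  have e3 : ∫⁻ r, (∏ i, ENNReal.ofReal (w (n - 1) (r i))) *
        (∫⁻ x, ENNReal.ofReal (Q fun i => mob (r i) (dir (x i))) ∂(Measure.pi fun _ : Fin n => P0))
        ∂(Measure.pi fun _ : Fin n => vB) =
      ∫⁻ r, (∫⁻ x, ENNReal.ofReal (Q fun i => mob (r i) (dir (x i)))
        ∂(Measure.pi fun _ : Fin n => P0)) ∂(Measure.pi fun _ : Fin n => nw (n - 1)) := by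
    rw [pi_nw, lintegral_withDensity_eq_lintegral_mul]
    · rfl
    · refine Finset.measurable_prod _ fun i _ => ?_
      exact ((w_meas (n - 1)).comp (measurable_pi_apply i)).ennreal_ofReal
    · exact (QT_meas n).lintegral_prod_right'
  have e4 : ∫⁻ r, (∫⁻ x, ENNReal.ofReal (Q fun i => mob (r i) (dir (x i)))
        ∂(Measure.pi fun _ : Fin n => P0)) ∂(Measure.pi fun _ : Fin n => nw (n - 1)) =
      ∫⁻ p, ENNReal.ofReal (Q fun i => mob (p.1 i) (dir (p.2 i)))
        ∂((Measure.pi fun _ : Fin n => nw (n - 1)).prod (Measure.pi fun _ : Fin n => P0)) :=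
    (lintegral_prod _ (QT_meas n).aemeasurable).symm
  have mp := measurePreserving_arrowProdEquivProdArrow E3 E3 (Fin n) (fun _ => nw (n - 1))
    (fun _ => P0)
  have e5 : ∫⁻ p, ENNReal.ofReal (Q fun i => mob (p.1 i) (dir (p.2 i)))
        ∂((Measure.pi fun _ : Fin n => nw (n - 1)).prod (Measure.pi fun _ : Fin n => P0)) =
      ∫⁻ q : Fin n → E3 × E3, ENNReal.ofReal (Q fun i => T (q i))
        ∂(Measure.pi fun _ : Fin n => (nw (n - 1)).prod P0) := by
    rw [← mp.lintegral_comp (QT_meas n)]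
    rfl
  have e6 : ∫⁻ q : Fin n → E3 × E3, ENNReal.ofReal (Q fun i => T (q i))
        ∂(Measure.pi fun _ : Fin n => (nw (n - 1)).prod P0) =
      ∫⁻ y : Fin n → E3, ENNReal.ofReal (Q y) ∂(Measure.pi fun _ : Fin n => MM (n - 1)) := by
    have h1 : (Measure.pi fun _ : Fin n => MM (n - 1)) =
        (Measure.pi fun _ : Fin n => (nw (n - 1)).prod P0).map
          (fun q : Fin n → E3 × E3 => fun i => T (q i)) := by
      unfold MM
      exact (Measure.pi_map_pi (fun i => T_meas.aemeasurable)).symm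
    have hTm : Measurable (fun q : Fin n → E3 × E3 => (fun i => T (q i) : Fin n → E3)) :=
      measurable_pi_lambda _ fun i => T_meas.comp (measurable_pi_apply i)
    rw [h1]
    exact (lintegral_map Q_continuous.measurable.ennreal_ofReal hTm).symm
  have e7 : ∫⁻ y : Fin n → E3, ENNReal.ofReal (Q y) ∂(Measure.pi fun _ : Fin n => MM (n - 1)) =
      ENNReal.ofReal (Bn n *
        ((n.factorial : ℝ) * ((∫ r in closedBall (0 : E3) 1, w (n - 1) r) / n) ^ n)) := by
    have h1 : ∀ᵐ y ∂(Measure.pi fun _ : Fin n => MM (n - 1)), ∀ i : Fin n,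
        ‖y i‖ = 1 ∧ ze (y i) ≠ 0 := by
      rw [ae_all_iff]
      intro i
      exact (Measure.tendsto_eval_ae_ae (μ := fun _ : Fin n => MM (n - 1)) (i := i)).eventually
        (ae_MM (n - 1))
    have h2 : (fun y : Fin n → E3 => ENNReal.ofReal (Q y)) =ᵐ[Measure.pi fun _ : Fin n => MM (n - 1)]
        fun y => ENNReal.ofReal (2 ^ (n * (n - 1)) * ‖(Mt 0 y).det‖ ^ 2) := by
      filter_upwards [h1] with y hy
      rw [Q_eq_det y (fun i => (hy i).1) (fun i => (hy i).2)]
    rw [lintegral_congr_ae h2, ← ofReal_integral_eq_lintegral_ofReal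
      ((det_integrable (good_MM (n - 1)) n).const_mul _)
      (Filter.Eventually.of_forall fun y => by positivity), integral_const_mul,
      gdet (good_MM (n - 1)) hn, MM_total]
  have hfin : ENNReal.ofReal (F3 n) ≤ ENNReal.ofReal (Bn n *
        ((n.factorial : ℝ) * ((∫ r in closedBall (0 : E3) 1, w (n - 1) r) / n) ^ n)) := by
    rw [e1, ← e7, ← e6, ← e5, ← e4, ← e3]
    exact e2
  exact (ENNReal.ofReal_le_ofReal_iff (by positivity)).1 hfin

end Pool.Agent.H79.Ba
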