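import Pool.Agent.H79.Ba.S13

/-!
# Bounds for the exponent
-/

set_option autoImplicit false

open MeasureTheory Metric Set

namespace Pool.Agent.H79.Ba

attribute [local irreducible] mob dir

lemma log_one_sub_le {z : ℝ} (h0 : 0 ≤ z) (h1 : z < 1) (M : ℕ) :
    Real.log (1 - z) ≤ -∑ k ∈ Finset.range M, z ^ (k + 1) / ((k : ℝ) + 1) := by
  have h := Real.hasSum_pow_div_log_of_abs_lt_one (x := z) (by rw [abs_of_nonneg h0]; exact h1)
  have h2 := sum_le_hasSum (Finset.range M) (fun k _ => by positivity) h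
  linarith

lemma k_series {ρ : ℝ} (h0 : 0 ≤ ρ) (h1 : ρ < 1) (M : ℕ) :
    K (ρ • ez) ≤ 2 * Real.log (1 + ρ) - Real.log 4 + 1 -
      ∑ k ∈ Finset.range M, (4 * ρ / (1 + ρ) ^ 2) ^ (k + 1) / (((k : ℝ) + 1) * ((k : ℝ) + 2)) := by
  have hρ : (0 : ℝ) < 1 + ρ := by linarith
  set q : ℝ := 4 * ρ / (1 + ρ) ^ 2 with hq
  have hq0 : 0 ≤ q := by positivity
  have hq1 : q < 1 := by
    rw [hq, div_lt_one (by positivity)]
    nlinarith [sq_nonneg (1 - ρ), sq_pos_of_pos (show (0:ℝ) < 1 - ρ by linarith)]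
  have hint : ∀ k ∈ Finset.range M, Integrable (fun x => q ^ (k + 1) / ((k : ℝ) + 1) * hb x ^ (k + 1))
      P0 := fun k _ => (moments_int (k + 1)).const_mul _
  have hnorm : ‖ρ • ez‖ < 1 := by
    rw [norm_smul, norm_ez, mul_one, Real.norm_of_nonneg h0]
    exact h1
  have h2 : U (ρ • ez) ≤ ∫ x, (2 * Real.log (1 + ρ) -
      ∑ k ∈ Finset.range M, q ^ (k + 1) / ((k : ℝ) + 1) * hb x ^ (k + 1)) ∂P0 := by
    unfold U
    refine integral_mono_ae (U_int_interior hnorm)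
      ((integrable_const _).sub (integrable_finsetSum _ hint)) ?_
    filter_upwards [ae_dir_ne 0] with x hx
    have hb0 := hb_nonneg x hx.1
    have hb1 := hb_le x hx.1
    have hz0 : 0 ≤ q * hb x := mul_nonneg hq0 hb0
    have hz1 : q * hb x < 1 := by nlinarith
    rw [dist_ez hx.1]
    have h3 : (1 + ρ) ^ 2 - 4 * ρ * hb x = (1 + ρ) ^ 2 * (1 - q * hb x) := by
      rw [hq]
      field_simp
    rw [h3, Real.log_mul (by positivity) (by linarith), Real.log_pow]
    have h4 := log_one_sub_le hz0 hz1 M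
    have h5 : ∑ k ∈ Finset.range M, (q * hb x) ^ (k + 1) / ((k : ℝ) + 1) =
        ∑ k ∈ Finset.range M, q ^ (k + 1) / ((k : ℝ) + 1) * hb x ^ (k + 1) :=
      Finset.sum_congr rfl fun k _ => by rw [mul_pow]; ring
    rw [h5] at h4
    push_cast
    linarith
  rw [integral_sub (integrable_const _) (integrable_finsetSum _ hint),
    integral_finsetSum _ hint] at h2
  have h6 : ∀ k ∈ Finset.range M, ∫ x, q ^ (k + 1) / ((k : ℝ) + 1) * hb x ^ (k + 1) ∂P0 =
      q ^ (k + 1) / (((k : ℝ) + 1) * ((k : ℝ) + 2)) := by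
    intro k _
    rw [integral_const_mul]
    have := moments (k + 1)
    unfold hb
    rw [this]
    push_cast
    field_simp
    ring
  rw [Finset.sum_congr rfl h6] at h2
  simp only [integral_const, probReal_univ, smul_eq_mul, one_mul] at h2
  unfold K
  linarith

lemma harm_le (M : ℕ) : ∑ k ∈ Finset.range M, 1 / ((k : ℝ) + 2) ≤ Real.log ((M : ℝ) + 1) := by
  induction M with
  | zero => simp
  | succ M ih =>
    rw [Finset.sum_range_succ]
    have hx : (0 : ℝ) < ((M : ℝ) + 2) / ((M : ℝ) + 1) := by positivity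
    have h1 := Real.one_sub_inv_le_log_of_pos hx
    rw [Real.log_div (by positivity) (by positivity)] at h1
    have h2 : 1 - (((M : ℝ) + 2) / ((M : ℝ) + 1))⁻¹ = 1 / ((M : ℝ) + 2) := by
      field_simp
      ring
    rw [h2] at h1
    push_cast
    rw [show (M : ℝ) + 1 + 1 = M + 2 by ring]
    linarith

lemma tele_sum (M : ℕ) : ∑ k ∈ Finset.range M, 1 / (((k : ℝ) + 1) * ((k : ℝ) + 2)) =
    1 - 1 / ((M : ℝ) + 1) := by
  induction M with
  | zero => simp
  | succ n ih =>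
    rw [Finset.sum_range_succ, ih]
    push_cast
    field_simp
    ring

lemma k_bound {ρ : ℝ} (h0 : 0 ≤ ρ) (h1 : ρ < 1) (M : ℕ) :
    K (ρ • ez) ≤ 2 * Real.log (1 + ρ) - Real.log 4 + 1 / ((M : ℝ) + 1) +
      ((1 - ρ) / (1 + ρ)) ^ 2 * Real.log ((M : ℝ) + 1) := by
  have hρ : (0 : ℝ) < 1 + ρ := by linarith
  have h2 := k_series h0 h1 M
  set q : ℝ := 4 * ρ / (1 + ρ) ^ 2 with hq
  set t : ℝ := ((1 - ρ) / (1 + ρ)) ^ 2 with ht
  have hqt : q = 1 - t := by
    rw [hq, ht]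
    field_simp
    ring
  have hq0 : 0 ≤ q := by positivity
  have ht0 : 0 ≤ t := by positivity
  have h3 : ∑ k ∈ Finset.range M, (1 / (((k : ℝ) + 1) * ((k : ℝ) + 2)) - t * (1 / ((k : ℝ) + 2))) ≤
      ∑ k ∈ Finset.range M, q ^ (k + 1) / (((k : ℝ) + 1) * ((k : ℝ) + 2)) := by
    refine Finset.sum_le_sum fun k _ => ?_
    have h4 : 1 - ((k : ℝ) + 1) * t ≤ q ^ (k + 1) := by
      have := one_add_mul_le_pow (a := -t) (by linarith) (k + 1)
      rw [hqt, sub_eq_add_neg 1 t]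
      push_cast at this
      linarith
    have h5 : (1 - ((k : ℝ) + 1) * t) / (((k : ℝ) + 1) * ((k : ℝ) + 2)) ≤
        q ^ (k + 1) / (((k : ℝ) + 1) * ((k : ℝ) + 2)) :=
      div_le_div_of_nonneg_right h4 (by positivity)
    refine le_trans (le_of_eq ?_) h5
    field_simp
  rw [Finset.sum_sub_distrib, tele_sum, ← Finset.mul_sum] at h3
  have h6 := mul_le_mul_of_nonneg_left (harm_le M) ht0
  linarith

lemma log4 : Real.log 4 = 2 * Real.log 2 := by
  rw [show (4 : ℝ) = 2 ^ 2 by norm_num, Real.log_pow]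
  norm_num

/-- small radius -/
lemma k_small {ρ : ℝ} (h0 : 0 ≤ ρ) (h1 : ρ ≤ 1 / 2) : K (ρ • ez) ≤ -(1 / 100) := by
  have h2 := k_series h0 (by linarith) 1
  have hρ : (0 : ℝ) < 1 + ρ := by linarith
  simp only [Finset.sum_range_one, Nat.cast_zero, zero_add, pow_one, one_mul] at h2
  have h3 : Real.log (1 + ρ) ≤ Real.log (3 / 2) + ((1 + ρ) / (3 / 2) - 1) := by
    have h4 := Real.log_le_sub_one_of_pos (show (0 : ℝ) < (1 + ρ) / (3 / 2) by positivity)
    rw [Real.log_div hρ.ne' (by norm_num)] at h4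
    linarith
  have h5 : 2 * Real.log (3 / 2) ≤ Real.log 2 + 1 / 8 := by
    have h6 := Real.log_le_sub_one_of_pos (show (0 : ℝ) < 9 / 8 by norm_num)
    have h7 : Real.log (9 / 8) = 2 * Real.log (3 / 2) - Real.log 2 := by
      rw [show (9 / 8 : ℝ) = (3 / 2) ^ 2 / 2 by norm_num, Real.log_div (by norm_num) (by norm_num),
        Real.log_pow]
      norm_num
    linarith
  have h8 : 8 / 9 * ρ ≤ 4 * ρ / (1 + ρ) ^ 2 / 2 := by
    rw [div_div, le_div_iff₀ (by positivity)]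
    have : (1 + ρ) ^ 2 ≤ 9 / 4 := by nlinarith
    nlinarith
  have h9 := Real.log_two_gt_d9
  rw [log4] at h2
  have h10 : (1 + ρ) / (3 / 2) = 2 / 3 * (1 + ρ) := by ring
  rw [h10] at h3
  have h11 : (0 : ℝ) + 2 = 2 := by norm_num
  first
    | linarith
    | (norm_num at h2; linarith)

/-- near the sphere -/
lemma k_near {ρ : ℝ} (h0 : 1 / 2 ≤ ρ) (h1 : ρ < 1) :
    K (ρ • ez) ≤ -(1 - ρ) + 4 / 9 * (1 - ρ) ^ 2 * (5 / 2 + 2 * Real.log (1 / (1 - ρ))) := by
  have hρ : (0 : ℝ) < 1 + ρ := by linarith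
  set s : ℝ := 1 - ρ with hs
  have hs0 : 0 < s := by linarith
  have hs1 : s ≤ 1 / 2 := by linarith
  set t : ℝ := ((1 - ρ) / (1 + ρ)) ^ 2 with ht
  have ht' : t = s ^ 2 / (2 - s) ^ 2 := by
    rw [ht, div_pow, hs]
    congr 2
    ring
  have h2s : (0 : ℝ) < 2 - s := by linarith
  have ht0 : 0 < t := by rw [ht']; positivity
  have ht1 : t ≤ 4 / 9 * s ^ 2 := by
    rw [ht', div_le_iff₀ (by positivity)]
    have : 9 / 4 ≤ (2 - s) ^ 2 := by nlinarith
    nlinarith [sq_nonneg s]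
  have ht2 : t ≤ 1 / 9 := by nlinarith
  -- choice of M
  obtain ⟨M, hM1, hM2⟩ : ∃ M : ℕ, 1 / t ≤ (M : ℝ) + 1 ∧ (M : ℝ) + 1 ≤ 1 / t + 1 := by
    refine ⟨⌈1 / t⌉₊ - 1, ?_, ?_⟩
    · have h1 : 1 ≤ ⌈1 / t⌉₊ := Nat.one_le_ceil_iff.2 (by positivity)
      have h2 := Nat.le_ceil (1 / t)
      rw [Nat.cast_sub h1]
      push_cast
      linarith
    · have h1 : 1 ≤ ⌈1 / t⌉₊ := Nat.one_le_ceil_iff.2 (by positivity)
      have h2 := Nat.ceil_lt_add_one (show 0 ≤ 1 / t by positivity)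
      rw [Nat.cast_sub h1]
      push_cast
      linarith
  have hk := k_bound (by linarith) h1 M
  rw [← ht] at hk
  have hM0 : (0 : ℝ) < (M : ℝ) + 1 := by positivity
  have e1 : 1 / ((M : ℝ) + 1) ≤ t := by
    rw [div_le_iff₀ hM0]
    rw [div_le_iff₀ ht0] at hM1
    linarith
  have e2 : Real.log ((M : ℝ) + 1) ≤ Real.log (1 / t) + t := by
    have h2 := Real.log_le_log hM0 hM2
    have h3 : 1 / t + 1 = 1 / t * (1 + t) := by field_simp
    rw [h3, Real.log_mul (by positivity) (by positivity)] at h2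
    have h4 := Real.log_le_sub_one_of_pos (show (0 : ℝ) < 1 + t by positivity)
    linarith
  have e3 : Real.log (1 / t) ≤ 2 * Real.log 2 + 2 * Real.log (1 / s) := by
    have h2 : 1 / t = ((2 - s) * (1 / s)) ^ 2 := by
      rw [ht']
      field_simp
    rw [h2, Real.log_pow, Real.log_mul h2s.ne' (by positivity)]
    have h3 := Real.log_le_log h2s (show 2 - s ≤ 2 by linarith)
    push_cast
    linarith
  have e4 : 2 * Real.log (1 + ρ) - Real.log 4 ≤ -s := by
    have h2 := Real.log_le_sub_one_of_pos (show (0 : ℝ) < (1 + ρ) / 2 by positivity)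
    rw [Real.log_div hρ.ne' (by norm_num)] at h2
    rw [log4]
    linarith
  have hL : 0 ≤ Real.log (1 / s) := Real.log_nonneg (by
    rw [le_div_iff₀ hs0]
    linarith)
  have h9 := Real.log_two_lt_d9
  have e5 : t * Real.log ((M : ℝ) + 1) ≤ t * (3 / 2 + 2 * Real.log (1 / s)) := by
    refine mul_le_mul_of_nonneg_left ?_ ht0.le
    linarith
  have e6 : t * (5 / 2 + 2 * Real.log (1 / s)) ≤ 4 / 9 * s ^ 2 * (5 / 2 + 2 * Real.log (1 / s)) :=
    mul_le_mul_of_nonneg_right ht1 (by positivity)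
  linarith

end Pool.Agent.H79.Ba
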