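import Pool.Agent.H79.Ba.S14

/-!
# The total weight and the final two-sided estimate
-/

set_option autoImplicit false

open MeasureTheory Metric Set

namespace Pool.Agent.H79.Ba

attribute [local irreducible] mob dir

lemma exp_sq_le {y : ℝ} (hy : 0 ≤ y) : y ^ 2 * Real.exp (-y) ≤ 2 := by
  have h := Real.quadratic_le_exp_of_nonneg hy
  rw [Real.exp_neg, ← div_eq_mul_inv, div_le_iff₀ (Real.exp_pos y)]
  nlinarith

lemma exp_lin_le {y : ℝ} : y * Real.exp (-y) ≤ 1 := by
  have h := Real.add_one_le_exp y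
  rw [Real.exp_neg, ← div_eq_mul_inv, div_le_iff₀ (Real.exp_pos y)]
  linarith

/-- pointwise bound of the weight -/
lemma exp_bound {m : ℕ} (hm : 1 ≤ m) {ρ : ℝ} (h0 : 0 ≤ ρ) (h1 : ρ < 1) :
    Real.exp ((m : ℝ) * K (ρ • ez)) ≤ Real.exp (-((m : ℝ) * (1 - ρ))) +
      10 ^ 5 * (1 + Real.log m) / m * Real.exp (-((m : ℝ) / 200 * (1 - ρ))) +
      Real.exp (-((m : ℝ) / 100)) := by
  have hm0 : (0 : ℝ) < m := by exact_mod_cast hm
  have hm1 : (1 : ℝ) ≤ m := by exact_mod_cast hm
  have hlm : 0 ≤ Real.log m := Real.log_nonneg hm1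
  rcases le_total ρ (1 / 2) with h | h
  · have h2 := k_small h0 h
    have h3 : Real.exp ((m : ℝ) * K (ρ • ez)) ≤ Real.exp (-((m : ℝ) / 100)) := by
      refine Real.exp_le_exp.2 ?_
      nlinarith
    have h4 : 0 ≤ 10 ^ 5 * (1 + Real.log m) / m * Real.exp (-((m : ℝ) / 200 * (1 - ρ))) := by
      positivity
    have h5 := Real.exp_pos (-((m : ℝ) * (1 - ρ)))
    linarith
  · have h2 := k_near h h1
    set s : ℝ := 1 - ρ with hs
    have hs0 : 0 < s := by linarith
    have hs1 : s ≤ 1 / 2 := by linarith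
    set L : ℝ := Real.log (1 / s) with hL
    have hL0 : 0 ≤ L := Real.log_nonneg (by rw [le_div_iff₀ hs0]; linarith)
    set u : ℝ := 4 / 9 * s ^ 2 * (5 / 2 + 2 * L) with hu
    have hu0 : 0 ≤ u := by positivity
    -- `u ≤ 0.99 s`
    have hLs : L * s ≤ (Real.log 2 - 1) * s + 1 / 2 := by
      have h3 := Real.log_le_sub_one_of_pos (show (0 : ℝ) < 1 / s / 2 by positivity)
      rw [Real.log_div (by positivity) (by norm_num), ← hL] at h3
      have h4 : (1 / s / 2 - 1 + Real.log 2) * s = (Real.log 2 - 1) * s + 1 / 2 := by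
        field_simp
        ring
      rw [← h4]
      exact mul_le_mul_of_nonneg_right (by linarith) hs0.le
    have hu1 : u ≤ 99 / 100 * s := by
      have h9 := Real.log_two_lt_d9
      have h3 : s * (5 / 2 + 2 * L) ≤ 2 := by nlinarith
      calc u = 4 / 9 * s * (s * (5 / 2 + 2 * L)) := by rw [hu]; ring
        _ ≤ 4 / 9 * s * 2 := mul_le_mul_of_nonneg_left h3 (by positivity)
        _ ≤ _ := by linarith
    -- bound of `m u`
    have hLm : L ≤ Real.log m + 1 / (m * s) := by
      have h3 : 1 / s = m * (1 / (m * s)) := by field_simp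
      rw [hL, h3, Real.log_mul hm0.ne' (by positivity)]
      have h4 := Real.log_le_sub_one_of_pos (show (0 : ℝ) < 1 / (m * s) by positivity)
      linarith
    have hmu : m * u ≤ 4 / 9 * m * (5 / 2 + 2 * Real.log m) * s ^ 2 + 8 / 9 * s := by
      have h3 : m * u ≤ m * (4 / 9 * s ^ 2 * (5 / 2 + 2 * (Real.log m + 1 / (m * s)))) := by
        refine mul_le_mul_of_nonneg_left ?_ hm0.le
        refine mul_le_mul_of_nonneg_left ?_ (by positivity)
        linarith
      refine h3.trans (le_of_eq ?_)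
      field_simp
      ring
    set y : ℝ := (m : ℝ) / 200 * s with hy
    have hy0 : 0 ≤ y := by positivity
    have hsy : s = 200 * y / m := by rw [hy]; field_simp
    have e1 : Real.exp ((m : ℝ) * K (ρ • ez)) ≤ Real.exp (-((m : ℝ) * s) + m * u) := by
      refine Real.exp_le_exp.2 ?_
      have := mul_le_mul_of_nonneg_left h2 hm0.le
      linarith
    have e2 : Real.exp (m * u) ≤ 1 + m * u * Real.exp (m * u) := by
      have h3 := Real.add_one_le_exp (-(m * u))
      rw [Real.exp_neg] at h3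
      have h4 := mul_le_mul_of_nonneg_right h3 (Real.exp_pos (m * u)).le
      rw [inv_mul_cancel₀ (Real.exp_pos _).ne'] at h4
      linarith
    have e3 : Real.exp (-((m : ℝ) * s) + m * u) ≤ Real.exp (-((m : ℝ) * s)) +
        m * u * Real.exp (-(2 * y)) := by
      rw [Real.exp_add]
      have h3 : Real.exp (-((m : ℝ) * s)) * Real.exp (m * u) ≤ Real.exp (-(2 * y)) := by
        rw [← Real.exp_add]
        refine Real.exp_le_exp.2 ?_
        rw [hy]
        nlinarith
      have h4 := mul_le_mul_of_nonneg_left e2 (Real.exp_pos (-((m : ℝ) * s))).le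
      have h5 := mul_le_mul_of_nonneg_left h3 (show 0 ≤ m * u by positivity)
      nlinarith
    have e4 : m * u * Real.exp (-(2 * y)) ≤
        10 ^ 5 * (1 + Real.log m) / m * Real.exp (-y) := by
      have h3 : Real.exp (-(2 * y)) = Real.exp (-y) * Real.exp (-y) := by
        rw [← Real.exp_add]; congr 1; ring
      rw [h3, ← mul_assoc]
      refine mul_le_mul_of_nonneg_right ?_ (Real.exp_pos _).le
      have h4 : m * u * Real.exp (-y) ≤
          (4 / 9 * m * (5 / 2 + 2 * Real.log m) * s ^ 2 + 8 / 9 * s) * Real.exp (-y) :=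
        mul_le_mul_of_nonneg_right hmu (Real.exp_pos _).le
      refine h4.trans ?_
      have h5 : (4 / 9 * m * (5 / 2 + 2 * Real.log m) * s ^ 2 + 8 / 9 * s) * Real.exp (-y) =
          (4 / 9 * 40000 * (5 / 2 + 2 * Real.log m) * (y ^ 2 * Real.exp (-y)) +
            8 / 9 * 200 * (y * Real.exp (-y))) / m := by
        rw [hsy]
        field_simp
        ring
      rw [h5]
      refine div_le_div_of_nonneg_right ?_ hm0.le
      have h6 := exp_sq_le hy0
      have h7 := exp_lin_le (y := y)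
      have h8 : 4 / 9 * 40000 * (5 / 2 + 2 * Real.log m) * (y ^ 2 * Real.exp (-y)) ≤
          4 / 9 * 40000 * (5 / 2 + 2 * Real.log m) * 2 :=
        mul_le_mul_of_nonneg_left h6 (by positivity)
      linarith
    have h5 := Real.exp_pos (-((m : ℝ) / 100))
    linarith

lemma K_radial (r : E3) : K r = K (‖r‖ • ez) := by
  have h : ‖(‖r‖ • ez)‖ = ‖r‖ := by rw [norm_smul, norm_ez, mul_one, norm_norm]
  obtain ⟨e, he⟩ := exists_iso h
  conv_lhs => rw [← he]
  exact K_iso e _

lemma radial_lin {a : ℝ} (ha : 0 < a) :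
    ∫ x in closedBall (0 : E3) 1, Real.exp (-(a * (1 - ‖x‖))) ≤
      3 * volume.real (ball (0 : E3) 1) / a := by
  rw [radial_int (fun y => Real.exp (-(a * (1 - y))))]
  have h1 := radial_one ha
  have h2 : ∫ y in Ioi (0 : ℝ), y ^ 2 • (Set.Iic (1 : ℝ)).indicator
      (fun y => Real.exp (-(a * (1 - y)))) y =
      ∫ y in Ioc (0 : ℝ) 1, y ^ 2 * Real.exp (-(a * (1 - y))) := by
    rw [← integral_indicator measurableSet_Ioi, ← integral_indicator measurableSet_Ioc]
    congr 1
    funext y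
    by_cases h1 : 0 < y <;> by_cases h2 : y ≤ 1 <;> simp [Set.indicator, h1, h2]
  rw [h2] at h1
  have h3 := vol_ball_pos
  calc _ ≤ 3 * volume.real (ball (0 : E3) 1) * (1 / a) :=
        mul_le_mul_of_nonneg_left h1 (by positivity)
    _ = _ := by ring

lemma total_weight {m : ℕ} (hm : 1 ≤ m) :
    ∫ r in closedBall (0 : E3) 1, w m r ≤
      3 * volume.real (ball (0 : E3) 1) *
        (1 / (m : ℝ) + 3 * 10 ^ 7 * (1 + Real.log m) / (m : ℝ) ^ 2) := by
  have hm0 : (0 : ℝ) < m := by exact_mod_cast hm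
  have hm1 : (1 : ℝ) ≤ m := by exact_mod_cast hm
  have hlm : 0 ≤ Real.log m := Real.log_nonneg hm1
  have hV := vol_ball_pos
  set A : ℝ := 10 ^ 5 * (1 + Real.log m) / m with hA
  have hA0 : 0 ≤ A := by positivity
  have i1 : Integrable (fun r : E3 => Real.exp (-((m : ℝ) * (1 - ‖r‖)))) vB :=
    (Continuous.continuousOn (by fun_prop)).integrableOn_compact (isCompact_closedBall 0 1)
  have i2 : Integrable (fun r : E3 => A * Real.exp (-((m : ℝ) / 200 * (1 - ‖r‖)))) vB :=
    (Continuous.continuousOn (by fun_prop)).integrableOn_compact (isCompact_closedBall 0 1)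
  have i3 : Integrable (fun _ : E3 => Real.exp (-((m : ℝ) / 100))) vB := integrable_const _
  have h1 : ∫ r, w m r ∂vB ≤ ∫ r, (Real.exp (-((m : ℝ) * (1 - ‖r‖))) +
      A * Real.exp (-((m : ℝ) / 200 * (1 - ‖r‖))) + Real.exp (-((m : ℝ) / 100))) ∂vB := by
    refine integral_mono_ae (w_int m) ((i1.add i2).add i3) ?_
    filter_upwards [ae_int] with r hr
    unfold w
    rw [K_radial]
    exact exp_bound hm (norm_nonneg r) hr
  have i12 : Integrable (fun r : E3 => Real.exp (-((m : ℝ) * (1 - ‖r‖))) +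
      A * Real.exp (-((m : ℝ) / 200 * (1 - ‖r‖)))) vB := i1.add i2
  rw [integral_add i12 i3, integral_add i1 i2, integral_const_mul, integral_const] at h1
  have h2 := radial_lin hm0
  have h3 := radial_lin (show (0 : ℝ) < (m : ℝ) / 200 by positivity)
  have h4 : vB.real univ = volume.real (ball (0 : E3) 1) := by
    unfold Measure.real vB
    rw [Measure.restrict_apply_univ, Measure.addHaar_closedBall_eq_addHaar_ball]
  have h5 : Real.exp (-((m : ℝ) / 100)) ≤ 2 * 10 ^ 4 / (m : ℝ) ^ 2 := by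
    have := exp_sq_le (show (0 : ℝ) ≤ (m : ℝ) / 100 by positivity)
    rw [le_div_iff₀ (by positivity)]
    nlinarith
  rw [h4, smul_eq_mul] at h1
  have h6 := mul_le_mul_of_nonneg_left h3 hA0
  have h7 := mul_le_mul_of_nonneg_left h5 hV.le
  set V := volume.real (ball (0 : E3) 1) with hVd
  have h8 : A * (3 * V / ((m : ℝ) / 200)) = 3 * V * (2 * 10 ^ 7 * (1 + Real.log m) / (m : ℝ) ^ 2) := by
    rw [hA]
    field_simp
    ring
  have h9 : V * (2 * 10 ^ 4 / (m : ℝ) ^ 2) ≤ 3 * V * (10 ^ 7 * (1 + Real.log m) / (m : ℝ) ^ 2) := by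
    have h10 : (2 * 10 ^ 4 / (m : ℝ) ^ 2) ≤ 3 * (10 ^ 7 * (1 + Real.log m) / (m : ℝ) ^ 2) := by
      rw [← mul_div_assoc]
      refine div_le_div_of_nonneg_right ?_ (by positivity)
      nlinarith
    calc _ ≤ V * (3 * (10 ^ 7 * (1 + Real.log m) / (m : ℝ) ^ 2)) :=
          mul_le_mul_of_nonneg_left h10 hV.le
      _ = _ := by ring
  have h11 : ∫ r in closedBall (0 : E3) 1, w m r = ∫ r, w m r ∂vB := rfl
  rw [h11]
  have h12 : 3 * V * (1 / (m : ℝ) + 3 * 10 ^ 7 * (1 + Real.log m) / (m : ℝ) ^ 2) =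
      3 * V / m + 3 * V * (2 * 10 ^ 7 * (1 + Real.log m) / (m : ℝ) ^ 2) +
      3 * V * (10 ^ 7 * (1 + Real.log m) / (m : ℝ) ^ 2) := by
    field_simp
    ring
  rw [h12]
  linarith

end Pool.Agent.H79.Ba
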