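import Pool.Agent.H79.Ba.S15

/-!
# Two-sided estimate of `F₃(n, 3)` and the closed form of the main term
-/

set_option autoImplicit false

open MeasureTheory Metric Set

namespace Pool.Agent.H79.Ba

attribute [local irreducible] mob dir

/-- the main term -/
noncomputable def Low (n : ℕ) : ℝ :=
  Bn n * ((n.factorial : ℝ) * (3 * volume.real (ball (0 : E3) 1) / (n + 2) / n) ^ n)

lemma Low_pos {n : ℕ} (hn : 1 ≤ n) : 0 < Low n := by
  have hn0 : (0 : ℝ) < n := by exact_mod_cast hn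
  have h1 := Bn_pos n
  have h2 := vol_ball_pos
  have h3 : (0 : ℝ) < n.factorial := by exact_mod_cast Nat.factorial_pos n
  unfold Low
  positivity

lemma weight_ratio {n : ℕ} (hn : 2 ≤ n) :
    (∫ r in closedBall (0 : E3) 1, w (n - 1) r) / n ≤
      3 * volume.real (ball (0 : E3) 1) / (n + 2) / n *
        Real.exp ((3 + 12 * 10 ^ 7) * (1 + Real.log n) * 2 / n) := by
  obtain ⟨m, rfl⟩ : ∃ m, n = m + 1 := ⟨n - 1, by omega⟩
  have hm : 1 ≤ m := by omega
  have hm0 : (0 : ℝ) < m := by exact_mod_cast hm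
  have hm1 : (1 : ℝ) ≤ m := by exact_mod_cast hm
  have hV := vol_ball_pos
  set V := volume.real (ball (0 : E3) 1) with hVd
  have h1 := total_weight hm
  rw [← hVd] at h1
  rw [show m + 1 - 1 = m by omega]
  have hlm : 0 ≤ Real.log m := Real.log_nonneg hm1
  have hll : Real.log m ≤ Real.log ((m + 1 : ℕ) : ℝ) :=
    Real.log_le_log hm0 (by push_cast; linarith)
  set ℓ := Real.log ((m + 1 : ℕ) : ℝ) with hℓ
  have h2 : 1 / (m : ℝ) + 3 * 10 ^ 7 * (1 + Real.log m) / (m : ℝ) ^ 2 ≤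
      1 / ((m : ℝ) + 3) * (1 + (3 + 12 * 10 ^ 7) * (1 + ℓ) / m) := by
    have h3 : 3 * 10 ^ 7 * (1 + Real.log m) / (m : ℝ) ^ 2 ≤ 3 * 10 ^ 7 * (1 + ℓ) / (m : ℝ) ^ 2 := by
      refine div_le_div_of_nonneg_right ?_ (by positivity)
      nlinarith
    refine (add_le_add_right h3 _).trans ?_
    rw [div_add_div _ _ hm0.ne' (by positivity), one_div, ← div_eq_inv_mul,
      div_le_div_iff₀ (by positivity) (by positivity)]
    have hl0 : 0 ≤ ℓ := hlm.trans hll
    have e : (1 + (3 + 12 * 10 ^ 7) * (1 + ℓ) / (m : ℝ)) * ((m : ℝ) * (m : ℝ) ^ 2) =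
        (m : ℝ) ^ 3 + (3 + 12 * 10 ^ 7) * (1 + ℓ) * (m : ℝ) ^ 2 := by
      field_simp
    rw [e]
    have h4 : 0 ≤ (m : ℝ) * (m - 1) * (1 + ℓ) := by
      have : (0 : ℝ) ≤ m - 1 := by linarith
      positivity
    have h5 : 0 ≤ (m : ℝ) ^ 2 * ℓ := by positivity
    nlinarith
  have h6 : 1 + (3 + 12 * 10 ^ 7) * (1 + ℓ) / m ≤
      Real.exp ((3 + 12 * 10 ^ 7) * (1 + ℓ) * 2 / ((m + 1 : ℕ) : ℝ)) := by
    have h7 := Real.add_one_le_exp ((3 + 12 * 10 ^ 7) * (1 + ℓ) * 2 / ((m + 1 : ℕ) : ℝ))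
    have h8 : (3 + 12 * 10 ^ 7) * (1 + ℓ) / m ≤
        (3 + 12 * 10 ^ 7) * (1 + ℓ) * 2 / ((m + 1 : ℕ) : ℝ) := by
      have hl0 : 0 ≤ ℓ := hlm.trans hll
      push_cast
      have hX : 0 ≤ (3 + 12 * 10 ^ 7) * (1 + ℓ) := by positivity
      rw [div_le_div_iff₀ hm0 (by positivity)]
      nlinarith [mul_le_mul_of_nonneg_left (show (m : ℝ) + 1 ≤ 2 * m by linarith) hX]
    linarith
  have hn0 : (0 : ℝ) < ((m + 1 : ℕ) : ℝ) := by positivity
  rw [div_mul_eq_mul_div]
  refine div_le_div_of_nonneg_right ?_ hn0.le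
  refine h1.trans ?_
  have h9 : ((m + 1 : ℕ) : ℝ) + 2 = m + 3 := by push_cast; ring
  rw [h9]
  calc 3 * V * (1 / (m : ℝ) + 3 * 10 ^ 7 * (1 + Real.log m) / (m : ℝ) ^ 2)
      ≤ 3 * V * (1 / ((m : ℝ) + 3) * (1 + (3 + 12 * 10 ^ 7) * (1 + ℓ) / m)) :=
        mul_le_mul_of_nonneg_left h2 (by positivity)
    _ ≤ 3 * V * (1 / ((m : ℝ) + 3) *
        Real.exp ((3 + 12 * 10 ^ 7) * (1 + ℓ) * 2 / ((m + 1 : ℕ) : ℝ))) := by
        refine mul_le_mul_of_nonneg_left (mul_le_mul_of_nonneg_left h6 (by positivity))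
          (by positivity)
    _ = _ := by ring

/-- the constant -/
def CC : ℝ := (3 + 12 * 10 ^ 7) * 2

/-- the two-sided estimate -/
theorem F3_two_sided {n : ℕ} (hn : 1 ≤ n) :
    Low n ≤ F3 n ∧ F3 n ≤ Real.exp (CC * (1 + Real.log n)) * Low n := by
  refine ⟨F3_lower hn, ?_⟩
  have hn0 : (0 : ℝ) < n := by exact_mod_cast hn
  have hn1 : (1 : ℝ) ≤ n := by exact_mod_cast hn
  have hln : 0 ≤ Real.log n := Real.log_nonneg hn1
  have hL := Low_pos hn
  have hB := Bn_pos n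
  have hV := vol_ball_pos
  rcases Nat.lt_or_ge 1 n with h | h
  · have h1 := weight_ratio h
    have hW : 0 ≤ (∫ r in closedBall (0 : E3) 1, w (n - 1) r) / n :=
      div_nonneg (integral_nonneg fun r => (w_pos _ r).le) hn0.le
    have h2 := pow_le_pow_left₀ hW h1 n
    rw [mul_pow, ← Real.exp_nat_mul] at h2
    have h3 : (n : ℝ) * ((3 + 12 * 10 ^ 7) * (1 + Real.log n) * 2 / n) = CC * (1 + Real.log n) := by
      unfold CC
      field_simp
    rw [h3] at h2
    refine (F3_upper hn).trans ?_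
    unfold Low
    have h4 := mul_le_mul_of_nonneg_left h2 (show (0 : ℝ) ≤ n.factorial by positivity)
    have h5 := mul_le_mul_of_nonneg_left h4 hB.le
    refine h5.trans (le_of_eq ?_)
    ring
  · have : n = 1 := by omega
    subst this
    have h1 := F3_upper (n := 1) le_rfl
    have h2 : ∫ r in closedBall (0 : E3) 1, w (1 - 1) r = volume.real (ball (0 : E3) 1) := by
      unfold w
      simp only [Nat.sub_self, Nat.cast_zero, zero_mul, Real.exp_zero]
      rw [setIntegral_const, smul_eq_mul, mul_one]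
      unfold Measure.real
      rw [Measure.addHaar_closedBall_eq_addHaar_ball]
    rw [h2] at h1
    have h3 : Low 1 = Bn 1 * (((1 : ℕ).factorial : ℝ) *
        (volume.real (ball (0 : E3) 1) / ((1 : ℕ) : ℝ)) ^ 1) := by
      unfold Low
      norm_num
    rw [← h3] at h1
    have h4 : 1 ≤ Real.exp (CC * (1 + Real.log ((1 : ℕ) : ℝ))) := by
      rw [Nat.cast_one, Real.log_one]
      refine Real.one_le_exp ?_
      unfold CC
      norm_num
    calc F3 1 ≤ 1 * Low 1 := by rw [one_mul]; exact h1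
      _ ≤ _ := mul_le_mul_of_nonneg_right h4 hL.le

lemma vol_ball_eq : volume.real (ball (0 : E3) 1) = 4 * Real.pi / 3 := by
  unfold Measure.real
  rw [EuclideanSpace.volume_ball_fin_three]
  rw [ENNReal.ofReal_one, one_pow, one_mul, ENNReal.toReal_ofReal (by positivity)]
  ring

lemma prod_choose_closed {n : ℕ} (hn : 1 ≤ n) :
    (∏ k : Fin n, ((n - 1).choose k : ℝ)) * ∏ k ∈ Finset.range n, ((k.factorial : ℝ)) ^ 2 =
      ((n - 1).factorial : ℝ) ^ n := by
  rw [Fin.prod_univ_eq_prod_range (fun k => ((n - 1).choose k : ℝ)) n]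
  have h1 : ∏ k ∈ Finset.range n, ((k.factorial : ℝ)) ^ 2 =
      (∏ k ∈ Finset.range n, (k.factorial : ℝ)) *
        ∏ k ∈ Finset.range n, ((n - 1 - k).factorial : ℝ) := by
    rw [Finset.prod_range_reflect (fun k => (k.factorial : ℝ)) n, ← Finset.prod_mul_distrib]
    exact Finset.prod_congr rfl fun k _ => by ring
  rw [h1, ← Finset.prod_mul_distrib, ← Finset.prod_mul_distrib]
  have h2 : ∀ k ∈ Finset.range n, ((n - 1).choose k : ℝ) *
      ((k.factorial : ℝ) * ((n - 1 - k).factorial : ℝ)) = ((n - 1).factorial : ℝ) := by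
    intro k hk
    rw [Finset.mem_range] at hk
    have := Nat.choose_mul_factorial_mul_factorial (show k ≤ n - 1 by omega)
    rw [← this]
    push_cast
    ring
  rw [Finset.prod_congr rfl h2]
  simp

/-- the value of `F₂(n, 2)` -/
noncomputable def F2c (n : ℕ) : ℝ :=
  2 ^ (n * (n + 1)) * Real.pi ^ n * ((n.factorial : ℝ) / (n.factorial : ℝ) ^ n) *
    ∏ k ∈ Finset.range n, ((k.factorial : ℝ)) ^ 2

lemma Low_closed {n : ℕ} (hn : 1 ≤ n) : Low n = F2c n / ((n : ℝ) + 2) ^ n := by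
  have hn0 : (0 : ℝ) < n := by exact_mod_cast hn
  have h1 := prod_choose_closed hn
  have h2 := prod_choose_pos n
  have h3 : (0 : ℝ) < (n - 1).factorial := by exact_mod_cast Nat.factorial_pos _
  have h4 : (n.factorial : ℝ) = n * (n - 1).factorial := by
    rw [← Nat.mul_factorial_pred (by omega : n ≠ 0)]
    push_cast
    rfl
  have h5 : (2 : ℝ) ^ (n * (n + 1)) = 2 ^ (n * (n - 1)) * 4 ^ n := by
    rw [show (4 : ℝ) = 2 ^ 2 by norm_num, ← pow_mul, ← pow_add]
    congr 1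
    obtain ⟨m, rfl⟩ : ∃ m, n = m + 1 := ⟨n - 1, by omega⟩
    rw [show m + 1 - 1 = m by omega]
    ring
  have h6 : (n.factorial : ℝ) ^ n = (n : ℝ) ^ n * ((n - 1).factorial : ℝ) ^ n := by
    rw [h4, mul_pow]
  unfold Low F2c Bn
  rw [vol_ball_eq, h6, h5, ← h1]
  set P := ∏ k : Fin n, ((n - 1).choose k : ℝ) with hP
  have h7 : (0 : ℝ) < ∏ k ∈ Finset.range n, ((k.factorial : ℝ)) ^ 2 :=
    Finset.prod_pos fun k _ => by
      have : (0 : ℝ) < k.factorial := by exact_mod_cast Nat.factorial_pos k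
      positivity
  set R := ∏ k ∈ Finset.range n, ((k.factorial : ℝ)) ^ 2 with hR
  have h8 : (3 * (4 * Real.pi / 3) / ((n : ℝ) + 2) / n) ^ n =
      4 ^ n * Real.pi ^ n / ((n : ℝ) + 2) ^ n / (n : ℝ) ^ n := by
    rw [show 3 * (4 * Real.pi / 3) = 4 * Real.pi by ring, div_pow, div_pow, mul_pow]
  rw [h8]
  have h9 : (0 : ℝ) < (n : ℝ) ^ n := by positivity
  have h10 : (0 : ℝ) < ((n : ℝ) + 2) ^ n := by positivity
  field_simp

end Pool.Agent.H79.Ba
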