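import Pool.Agent.H79.Ba.S16

/-!
# The expansion of the main term
-/

set_option autoImplicit false

open MeasureTheory Metric Set Filter Topology

namespace Pool.Agent.H79.Ba

attribute [local irreducible] mob dir

lemma log_stirling_le {m : ℕ} (hm : 1 ≤ m) :
    Real.log (Stirling.stirlingSeq m) ≤ 1 / 2 * Real.log Real.pi + 1 / (2 * (m : ℝ)) := by
  set b : ℕ → ℝ := fun k => Real.log (Stirling.stirlingSeq (k + 1)) - 1 / (2 * ((k : ℝ) + 1)) with hb
  have hmono : Monotone b := by
    refine monotone_nat_of_le_succ fun k => ?_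
    have h := Stirling.log_stirlingSeq_sub_log_stirlingSeq_succ (k + 1)
    simp only [hb]
    push_cast at h ⊢
    have h2 : 1 / (4 * ((k : ℝ) + 1) ^ 2) ≤ 1 / (2 * ((k : ℝ) + 1)) - 1 / (2 * ((k : ℝ) + 1 + 1)) := by
      rw [div_sub_div _ _ (by positivity) (by positivity), div_le_div_iff₀ (by positivity)
        (by positivity)]
      have hk : (0 : ℝ) ≤ k := Nat.cast_nonneg k
      nlinarith [mul_nonneg hk hk, mul_nonneg (mul_nonneg hk hk) hk]
    linarith
  have hlim : Tendsto b atTop (𝓝 (Real.log √Real.pi - 0)) := by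
    have h1 : Tendsto (fun k : ℕ => Stirling.stirlingSeq (k + 1)) atTop (𝓝 √Real.pi) :=
      Stirling.tendsto_stirlingSeq_sqrt_pi.comp (tendsto_add_atTop_nat 1)
    have h2 := (Real.continuousAt_log (show √Real.pi ≠ 0 by positivity)).tendsto.comp h1
    have h3 : Tendsto (fun k : ℕ => 1 / (2 * ((k : ℝ) + 1))) atTop (𝓝 0) := by
      have h4 := (tendsto_one_div_add_atTop_nhds_zero_nat (𝕜 := ℝ)).const_mul (1 / 2)
      rw [mul_zero] at h4
      refine h4.congr fun k => ?_
      field_simp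
    exact h2.sub h3
  have h := hmono.ge_of_tendsto hlim (m - 1)
  simp only [hb] at h
  rw [show m - 1 + 1 = m by omega, Nat.cast_sub hm, Real.log_sqrt (by positivity)] at h
  push_cast at h
  rw [show (m : ℝ) - 1 + 1 = m by ring] at h
  linarith

/-- the leading part of Stirling's formula -/
noncomputable def sg (m : ℕ) : ℝ :=
  (m : ℝ) * Real.log m - m + 1 / 2 * Real.log m + 1 / 2 * Real.log (2 * Real.pi)

lemma stirling_two {m : ℕ} (hm : 1 ≤ m) :
    sg m ≤ Real.log m.factorial ∧ Real.log m.factorial ≤ sg m + 1 / (2 * (m : ℝ)) := by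
  have hm0 : (0 : ℝ) < m := by exact_mod_cast hm
  unfold sg
  constructor
  · have h := Stirling.le_log_factorial_stirling (n := m) (by omega)
    linarith
  · have h := log_stirling_le hm
    rw [Stirling.log_stirlingSeq_formula, Real.log_div hm0.ne' (Real.exp_pos 1).ne', Real.log_exp,
      Real.log_mul (by norm_num) hm0.ne'] at h
    rw [Real.log_mul (by norm_num) Real.pi_pos.ne']
    linarith

lemma log_Hc_two (N : ℕ) :
    (N : ℝ) * (N + 1) / 2 - 1 / 2 * Real.log N.factorial - N / 2 * Real.log (2 * Real.pi) -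
      Real.log ((N : ℝ) + 1) ≤ Real.log (Hc N) ∧
    Real.log (Hc N) ≤
      (N : ℝ) * (N + 1) / 2 - 1 / 2 * Real.log N.factorial - N / 2 * Real.log (2 * Real.pi) := by
  induction N with
  | zero => simp [Hc]
  | succ N ih =>
    have h := log_Hc_succ N
    obtain ⟨f1, f2⟩ := stirling_two (m := N + 1) (by omega)
    unfold sg at f1 f2
    have h4 : Real.log ((N + 1).factorial) = Real.log ((N : ℝ) + 1) + Real.log N.factorial := by
      rw [Nat.factorial_succ, Nat.cast_mul, Real.log_mul (by positivity)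
        (by exact_mod_cast (Nat.factorial_pos N).ne')]
      push_cast
      rfl
    push_cast at f1 f2 ⊢
    have hN : (0 : ℝ) ≤ N := Nat.cast_nonneg N
    have h5 : 1 / (2 * ((N : ℝ) + 1)) ≤ Real.log ((N : ℝ) + 1 + 1) - Real.log ((N : ℝ) + 1) := by
      have hx : (0 : ℝ) < ((N : ℝ) + 1 + 1) / ((N : ℝ) + 1) := by positivity
      have h1 := Real.one_sub_inv_le_log_of_pos hx
      rw [Real.log_div (by positivity) (by positivity)] at h1
      refine le_trans ?_ h1
      have h2 : 1 - (((N : ℝ) + 1 + 1) / ((N : ℝ) + 1))⁻¹ = 1 / ((N : ℝ) + 1 + 1) := by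
        field_simp
        ring
      rw [h2, div_le_div_iff₀ (by positivity) (by positivity)]
      linarith
    constructor
    · rw [h]
      linarith [ih.1]
    · rw [h]
      linarith [ih.2]

/-- the expansion -/
noncomputable def TT (n : ℕ) : ℝ :=
  (Real.log 2 - 1 / 2) * (n : ℝ) ^ 2 - 1 / 2 * n * Real.log n +
    (3 / 2 * Real.log (2 * Real.pi) - 1) * n

lemma log_Low {n : ℕ} (hn : 1 ≤ n) : |Real.log (Low n) - TT n| ≤ 10 * (1 + Real.log n) := by
  obtain ⟨N, rfl⟩ : ∃ N, n = N + 1 := ⟨n - 1, by omega⟩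
  have hn0 : (0 : ℝ) < ((N + 1 : ℕ) : ℝ) := by positivity
  have h1 : Bn (N + 1) = 2 ^ ((N + 1) * N) / Hc N := by
    unfold Bn Hc
    congr 1
    exact Fin.prod_univ_eq_prod_range (fun k => (N.choose k : ℝ)) (N + 1)
  have h2 : Real.log (Bn (N + 1)) = ((N : ℝ) + 1) * N * Real.log 2 - Real.log (Hc N) := by
    rw [h1, Real.log_div (by positivity) (Hc_pos N).ne', Real.log_pow]
    push_cast
    ring
  have hf : (0 : ℝ) < (N + 1).factorial := by exact_mod_cast Nat.factorial_pos (N + 1)
  have h3 : Real.log (Low (N + 1)) = Real.log (Bn (N + 1)) + Real.log ((N + 1).factorial) +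
      ((N : ℝ) + 1) * (2 * Real.log 2 + Real.log Real.pi - Real.log ((N : ℝ) + 3) -
        Real.log ((N : ℝ) + 1)) := by
    unfold Low
    have e : 3 * volume.real (ball (0 : E3) 1) / (((N + 1 : ℕ) : ℝ) + 2) / ((N + 1 : ℕ) : ℝ) =
        4 * Real.pi / ((N : ℝ) + 3) / ((N : ℝ) + 1) := by
      rw [vol_ball_eq]
      push_cast
      rw [show (N : ℝ) + 1 + 2 = N + 3 by ring]
      ring
    rw [e, Real.log_mul (Bn_pos _).ne' (by positivity), Real.log_mul hf.ne' (by positivity),
      Real.log_pow, Real.log_div (by positivity) (by positivity),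
      Real.log_div (by positivity) (by positivity), Real.log_mul (by norm_num) Real.pi_pos.ne', log4]
    push_cast
    ring
  have h4 : Real.log ((N + 1).factorial) = Real.log ((N : ℝ) + 1) + Real.log N.factorial := by
    rw [Nat.factorial_succ, Nat.cast_mul, Real.log_mul (by positivity)
      (by exact_mod_cast (Nat.factorial_pos N).ne')]
    push_cast
    rfl
  obtain ⟨b1, b2⟩ := log_Hc_two N
  obtain ⟨f1, f2⟩ := stirling_two (m := N + 1) (by omega)
  unfold sg at f1 f2
  have hlp : Real.log (2 * Real.pi) = Real.log 2 + Real.log Real.pi :=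
    Real.log_mul (by norm_num) Real.pi_pos.ne'
  have hN : (0 : ℝ) ≤ N := Nat.cast_nonneg N
  have hlog : 0 ≤ Real.log ((N : ℝ) + 1) := Real.log_nonneg (by linarith)
  -- `n (log (n+2) - log n) ∈ [0, 2]`
  have g1 : 0 ≤ ((N : ℝ) + 1) * (Real.log ((N : ℝ) + 3) - Real.log ((N : ℝ) + 1)) := by
    have := Real.log_le_log (show (0 : ℝ) < (N : ℝ) + 1 by positivity)
      (show (N : ℝ) + 1 ≤ N + 3 by linarith)
    have h5 : 0 ≤ Real.log ((N : ℝ) + 3) - Real.log ((N : ℝ) + 1) := by linarith
    positivity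
  have g2 : ((N : ℝ) + 1) * (Real.log ((N : ℝ) + 3) - Real.log ((N : ℝ) + 1)) ≤ 2 := by
    have h5 := Real.log_le_sub_one_of_pos (show (0 : ℝ) < ((N : ℝ) + 3) / ((N : ℝ) + 1) by positivity)
    rw [Real.log_div (by positivity) (by positivity)] at h5
    have h6 : ((N : ℝ) + 1) * (((N : ℝ) + 3) / ((N : ℝ) + 1) - 1) = 2 := by
      field_simp
      ring
    calc _ ≤ ((N : ℝ) + 1) * (((N : ℝ) + 3) / ((N : ℝ) + 1) - 1) :=
          mul_le_mul_of_nonneg_left h5 (by positivity)
      _ = 2 := h6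
  have g3 : 1 / (2 * ((N : ℝ) + 1)) ≤ 1 / 2 := by
    rw [div_le_div_iff₀ (by positivity) (by norm_num)]
    linarith
  have g4 : 0 ≤ Real.log 2 := Real.log_nonneg (by norm_num)
  have g5 : Real.log 2 ≤ 1 := by
    have := Real.log_le_sub_one_of_pos (show (0 : ℝ) < 2 by norm_num)
    linarith
  have g6 : 0 ≤ Real.log Real.pi := Real.log_nonneg (by linarith [Real.pi_gt_three])
  have g7 : Real.log Real.pi ≤ 3 := by
    have := Real.log_le_sub_one_of_pos Real.pi_pos
    linarith [Real.pi_lt_four]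
  have hln : Real.log (((N + 1 : ℕ) : ℝ)) = Real.log ((N : ℝ) + 1) := by push_cast; rfl
  rw [h3, h2]
  unfold TT
  rw [hln, hlp]
  rw [hlp] at b1 b2 f1 f2
  rw [h4] at f1 f2 ⊢
  rw [hln] at f1 f2
  push_cast at f1 f2 ⊢
  rw [abs_le]
  constructor
  · linarith
  · linarith

/-- the final asymptotics -/
theorem F3_expansion {n : ℕ} (hn : 1 ≤ n) :
    0 < F3 n ∧ |Real.log (F3 n) - TT n| ≤ (CC + 10) * (1 + Real.log n) := by
  have hn1 : (1 : ℝ) ≤ n := by exact_mod_cast hn
  have hln : 0 ≤ Real.log n := Real.log_nonneg hn1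
  obtain ⟨h1, h2⟩ := F3_two_sided hn
  have hL := Low_pos hn
  have hpos : 0 < F3 n := lt_of_lt_of_le hL h1
  refine ⟨hpos, ?_⟩
  have l1 := Real.log_le_log hL h1
  have l2 := Real.log_le_log hpos h2
  rw [Real.log_mul (Real.exp_pos _).ne' hL.ne', Real.log_exp] at l2
  have h3 := abs_le.1 (log_Low hn)
  have hC : (0 : ℝ) ≤ CC := by unfold CC; norm_num
  have h4 : 0 ≤ CC * (1 + Real.log n) := by positivity
  rw [abs_le]
  constructor
  · linarith [h3.1]
  · linarith [h3.2]

end Pool.Agent.H79.Ba
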