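import Pool.Agent.H79.Ba.S17

/-!
# Sharper bounds: the factor is at most a constant times `n`
-/

set_option autoImplicit false

open MeasureTheory Metric Set

namespace Pool.Agent.H79.Ba

attribute [local irreducible] mob dir

/-- near the sphere, sharp form -/
lemma k_near2 {ρ : ℝ} (h0 : 1 / 2 ≤ ρ) (h1 : ρ < 1) :
    K (ρ • ez) ≤ -(1 - ρ) + ((1 - ρ) ^ 2 / 2 * (Real.log 2 + Real.log (1 / (1 - ρ))) +
      3 / 2 * (1 - ρ) ^ 3 * (1 + Real.log (1 / (1 - ρ)))) := by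
  have hρ : (0 : ℝ) < 1 + ρ := by linarith
  set s : ℝ := 1 - ρ with hs
  have hs0 : 0 < s := by linarith
  have hs1 : s ≤ 1 / 2 := by linarith
  set t : ℝ := ((1 - ρ) / (1 + ρ)) ^ 2 with ht
  have ht' : t = s ^ 2 / (2 - s) ^ 2 := by
    rw [ht, div_pow, hs]
    congr 2
    ring
  have h2s : (0 : ℝ) < 2 - s := by linarith
  have ht0 : 0 < t := by rw [ht']; positivity
  have ht1 : t ≤ 4 / 9 * s ^ 2 := by
    rw [ht', div_le_iff₀ (by positivity)]
    have : 9 / 4 ≤ (2 - s) ^ 2 := by nlinarith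
    nlinarith [sq_nonneg s]
  have ht3 : t ≤ s ^ 2 / 4 * (1 + 2 * s) := by
    rw [ht', div_le_iff₀ (by positivity)]
    have h5 : 1 ≤ (1 + 2 * s) / 4 * (2 - s) ^ 2 := by nlinarith [mul_nonneg hs0.le hs0.le]
    calc s ^ 2 = s ^ 2 * 1 := by ring
      _ ≤ s ^ 2 * ((1 + 2 * s) / 4 * (2 - s) ^ 2) := mul_le_mul_of_nonneg_left h5 (sq_nonneg s)
      _ = _ := by ring
  have ht2 : t ≤ 1 / 9 := by nlinarith
  obtain ⟨M, hM1, hM2⟩ : ∃ M : ℕ, 1 / t ≤ (M : ℝ) + 1 ∧ (M : ℝ) + 1 ≤ 1 / t + 1 := by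
    refine ⟨⌈1 / t⌉₊ - 1, ?_, ?_⟩
    · have h1 : 1 ≤ ⌈1 / t⌉₊ := Nat.one_le_ceil_iff.2 (by positivity)
      have h2 := Nat.le_ceil (1 / t)
      rw [Nat.cast_sub h1]
      push_cast
      linarith
    · have h1 : 1 ≤ ⌈1 / t⌉₊ := Nat.one_le_ceil_iff.2 (by positivity)
      have h2 := Nat.ceil_lt_add_one (show 0 ≤ 1 / t by positivity)
      rw [Nat.cast_sub h1]
      push_cast
      linarith
  have hk := k_bound (by linarith) h1 M
  rw [← ht] at hk
  have hM0 : (0 : ℝ) < (M : ℝ) + 1 := by positivity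
  have e1 : 1 / ((M : ℝ) + 1) ≤ t := by
    rw [div_le_iff₀ hM0]
    rw [div_le_iff₀ ht0] at hM1
    linarith
  have e2 : Real.log ((M : ℝ) + 1) ≤ Real.log (1 / t) + t := by
    have h2 := Real.log_le_log hM0 hM2
    have h3 : 1 / t + 1 = 1 / t * (1 + t) := by field_simp
    rw [h3, Real.log_mul (by positivity) (by positivity)] at h2
    have h4 := Real.log_le_sub_one_of_pos (show (0 : ℝ) < 1 + t by positivity)
    linarith
  have e3 : Real.log (1 / t) ≤ 2 * Real.log 2 + 2 * Real.log (1 / s) := by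
    have h2 : 1 / t = ((2 - s) * (1 / s)) ^ 2 := by
      rw [ht']
      field_simp
    rw [h2, Real.log_pow, Real.log_mul h2s.ne' (by positivity)]
    have h3 := Real.log_le_log h2s (show 2 - s ≤ 2 by linarith)
    push_cast
    linarith
  have e4 : 2 * Real.log (1 + ρ) - Real.log 4 ≤ -s - s ^ 2 / 4 := by
    have h2 := log_one_sub_le (z := s / 2) (by positivity) (by linarith) 2
    simp only [Finset.sum_range_succ, Finset.sum_range_zero, Nat.cast_zero, Nat.cast_one] at h2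
    have h3 : (1 + ρ) = 2 * (1 - s / 2) := by rw [hs]; ring
    rw [h3, Real.log_mul (by norm_num) (by linarith), log4]
    norm_num at h2
    nlinarith
  set L : ℝ := Real.log (1 / s) with hL
  have hL0 : 0 ≤ L := Real.log_nonneg (by
    rw [le_div_iff₀ hs0]
    linarith)
  have h9 := Real.log_two_lt_d9
  have h10 : 0 ≤ Real.log 2 := Real.log_nonneg (by norm_num)
  set Y : ℝ := 1 + 4 / 9 * s ^ 2 + 2 * Real.log 2 + 2 * L with hY
  have hY0 : 0 ≤ Y := by positivity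
  have e5 : t * Real.log ((M : ℝ) + 1) ≤ t * (Y - 1) := by
    refine mul_le_mul_of_nonneg_left ?_ ht0.le
    linarith
  have e6 : t * Y ≤ s ^ 2 / 4 * (1 + 2 * s) * Y := mul_le_mul_of_nonneg_right ht3 hY0
  have e7 : (1 + 2 * s) * Y - 1 ≤ 2 * Real.log 2 + 2 * L + 6 * s * (1 + L) := by
    have h11 : 0 ≤ s * L := by positivity
    have h12 : s * Real.log 2 ≤ s * 0.6931471808 := mul_le_mul_of_nonneg_left h9.le hs0.le
    have h13 : s ^ 2 ≤ s / 2 := by nlinarith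
    have h14 : s ^ 3 ≤ s / 4 := by nlinarith
    rw [hY]
    nlinarith
  have e8 : s ^ 2 / 4 * ((1 + 2 * s) * Y - 1) ≤
      s ^ 2 / 4 * (2 * Real.log 2 + 2 * L + 6 * s * (1 + L)) :=
    mul_le_mul_of_nonneg_left e7 (by positivity)
  nlinarith

/-- Gamma integrals -/
lemma pe (j : ℕ) {b : ℝ} (hb : 0 < b) :
    ∫ s in Ioi (0 : ℝ), s ^ j * Real.exp (-(b * s)) = (j.factorial : ℝ) / b ^ (j + 1) := by
  have h := Real.integral_rpow_mul_exp_neg_mul_Ioi (a := (j : ℝ) + 1) (r := b) (by positivity) hb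
  rw [Real.Gamma_nat_eq_factorial] at h
  have h2 : (1 / b) ^ ((j : ℝ) + 1) = 1 / b ^ (j + 1) := by
    rw [show ((j : ℝ) + 1) = ((j + 1 : ℕ) : ℝ) by push_cast; ring, Real.rpow_natCast, div_pow,
      one_pow]
  rw [h2] at h
  have h3 : ∫ s in Ioi (0 : ℝ), s ^ j * Real.exp (-(b * s)) =
      ∫ s in Ioi (0 : ℝ), s ^ ((j : ℝ) + 1 - 1) * Real.exp (-(b * s)) := by
    refine setIntegral_congr_fun measurableSet_Ioi fun s _ => ?_
    rw [show ((j : ℝ) + 1 - 1) = (j : ℝ) by ring, Real.rpow_natCast]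
  rw [h3, h]
  ring

lemma pe_int (j : ℕ) {b : ℝ} (hb : 0 < b) :
    IntegrableOn (fun s : ℝ => s ^ j * Real.exp (-(b * s))) (Ioi 0) := by
  by_contra hc
  have h := pe j hb
  rw [integral_undef hc] at h
  have : (0 : ℝ) < (j.factorial : ℝ) / b ^ (j + 1) := by
    have : (0 : ℝ) < j.factorial := by exact_mod_cast Nat.factorial_pos j
    positivity
  linarith

lemma pe_le (j : ℕ) {b : ℝ} (hb : 0 < b) :
    ∫ s in (0 : ℝ)..1, s ^ j * Real.exp (-(b * s)) ≤ (j.factorial : ℝ) / b ^ (j + 1) := by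
  rw [← pe j hb, intervalIntegral.integral_of_le (by norm_num)]
  refine setIntegral_mono_set (pe_int j hb) ?_ (Ioc_subset_Ioi_self.eventuallyLE)
  refine (ae_restrict_iff' measurableSet_Ioi).2 (Filter.Eventually.of_forall fun s hs => ?_)
  have : (0 : ℝ) < s := hs
  positivity

end Pool.Agent.H79.Ba
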