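import Pool.Agent.H79.Ba.S18

/-!
# Sharper bound of the total weight
-/

set_option autoImplicit false

open MeasureTheory Metric Set

namespace Pool.Agent.H79.Ba

attribute [local irreducible] mob dir

/-- the dominating function -/
noncomputable def DD (m : ℕ) (s : ℝ) : ℝ :=
  Real.exp (-(((m : ℝ) + 2) * s)) +
    ((m : ℝ) / 2 * (Real.log 2 + Real.log m) + 3 / 2) *
      (s ^ 2 * Real.exp (-(((m : ℝ) + 2) * s))) +
    1 / 2 * (s ^ 1 * Real.exp (-(((m : ℝ) + 2) * s))) +
    3 / 2 * m * (1 + Real.log m) * (s ^ 3 * Real.exp (-(((m : ℝ) + 2) * s))) +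
    10 ^ 18 * ((1 + Real.log m) / m) ^ 2 * Real.exp (-((m : ℝ) / 200 * s)) +
    Real.exp (-((m : ℝ) / 100))

lemma poly_bound {x : ℝ} (hx : 0 ≤ x) :
    (x / 2 + 2 * x ^ 2 + 3 / 2 * x ^ 3) ^ 2 * Real.exp (-(x / 100)) ≤
      10 ^ 18 * Real.exp (-(x / 200)) := by
  set z : ℝ := x / 200 with hz
  have hz0 : 0 ≤ z := by positivity
  have hxz : x = 200 * z := by rw [hz]; ring
  have h2 := Real.pow_div_factorial_le_exp z hz0 2
  have h4 := Real.pow_div_factorial_le_exp z hz0 4
  have h6 := Real.pow_div_factorial_le_exp z hz0 6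
  norm_num [Nat.factorial] at h2 h4 h6
  have e1 : Real.exp (-(x / 100)) = Real.exp (-z) * Real.exp (-z) := by
    rw [← Real.exp_add]
    congr 1
    rw [hxz]
    ring
  have hexp := Real.exp_pos z
  have key : (x / 2 + 2 * x ^ 2 + 3 / 2 * x ^ 3) ^ 2 ≤ 10 ^ 18 * Real.exp z := by
    have h7 : (x / 2 + 2 * x ^ 2 + 3 / 2 * x ^ 3) ^ 2 ≤
        3 * (10 ^ 4 * z ^ 2 + 64 * 10 ^ 8 * z ^ 4 + 144 * 10 ^ 12 * z ^ 6) := by
      rw [hxz]
      nlinarith [sq_nonneg (100 * z - 80000 * z ^ 2), sq_nonneg (100 * z - 12 * 10 ^ 6 * z ^ 3),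
        sq_nonneg (80000 * z ^ 2 - 12 * 10 ^ 6 * z ^ 3)]
    linarith
  rw [e1, ← mul_assoc]
  refine mul_le_mul_of_nonneg_right ?_ (Real.exp_pos _).le
  rw [Real.exp_neg, ← div_eq_mul_inv, div_le_iff₀ hexp]
  exact key

lemma exp_two {x : ℝ} (hx : 0 ≤ x) : Real.exp x ≤ 1 + x + x ^ 2 * Real.exp x := by
  have h3 := Real.add_one_le_exp (-x)
  rw [Real.exp_neg] at h3
  have h4 := mul_le_mul_of_nonneg_right h3 (Real.exp_pos x).le
  rw [inv_mul_cancel₀ (Real.exp_pos _).ne'] at h4
  have h5 : Real.exp x ≤ 1 + x * Real.exp x := by linarith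
  have h6 := mul_le_mul_of_nonneg_left h5 hx
  nlinarith

/-- pointwise bound -/
lemma exp_bound2 {m : ℕ} (hm : 1 ≤ m) {y : ℝ} (h0 : 0 ≤ y) (h1 : y ≤ 1) :
    y ^ 2 * Real.exp ((m : ℝ) * K (y • ez)) ≤ DD m (1 - y) := by
  have hm0 : (0 : ℝ) < m := by exact_mod_cast hm
  have hm1 : (1 : ℝ) ≤ m := by exact_mod_cast hm
  have hlm : 0 ≤ Real.log m := Real.log_nonneg hm1
  have hl2 : 0 ≤ Real.log 2 := Real.log_nonneg (by norm_num)
  have h9 := Real.log_two_lt_d9
  have hs0' : 0 ≤ 1 - y := by linarith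
  have t1 := Real.exp_pos (-(((m : ℝ) + 2) * (1 - y)))
  have t2 : 0 ≤ ((m : ℝ) / 2 * (Real.log 2 + Real.log m) + 3 / 2) *
      ((1 - y) ^ 2 * Real.exp (-(((m : ℝ) + 2) * (1 - y)))) := by positivity
  have t3 : 0 ≤ 1 / 2 * ((1 - y) ^ 1 * Real.exp (-(((m : ℝ) + 2) * (1 - y)))) := by
    rw [pow_one]
    positivity
  have t4 : 0 ≤ 3 / 2 * m * (1 + Real.log m) *
      ((1 - y) ^ 3 * Real.exp (-(((m : ℝ) + 2) * (1 - y)))) := by positivity
  have t5 : 0 ≤ 10 ^ 18 * ((1 + Real.log m) / m) ^ 2 * Real.exp (-((m : ℝ) / 200 * (1 - y))) := by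
    positivity
  have t6 := Real.exp_pos (-((m : ℝ) / 100))
  rcases le_total y (1 / 2) with h | h
  · have h2 := k_small h0 h
    have h3 : Real.exp ((m : ℝ) * K (y • ez)) ≤ Real.exp (-((m : ℝ) / 100)) := by
      refine Real.exp_le_exp.2 ?_
      nlinarith
    have h4 : y ^ 2 ≤ 1 := by nlinarith
    have h5 : y ^ 2 * Real.exp ((m : ℝ) * K (y • ez)) ≤ 1 * Real.exp (-((m : ℝ) / 100)) :=
      mul_le_mul h4 h3 (Real.exp_pos _).le (by norm_num)
    unfold DD
    linarith
  rcases h1.eq_or_lt with h1' | h1'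
  · subst h1'
    have h2 : K ((1 : ℝ) • ez) = 0 := by
      rw [one_smul]
      unfold K
      rw [U_unit norm_ez]
      ring
    rw [h2, mul_zero, Real.exp_zero]
    unfold DD
    have e : Real.exp (-(((m : ℝ) + 2) * (1 - 1))) = 1 := by simp
    have e' : (1 : ℝ) ^ 2 * 1 = Real.exp (-(((m : ℝ) + 2) * (1 - 1))) + 0 + 0 + 0 + 0 + 0 := by
      rw [e]; norm_num
    refine (le_of_eq e').trans ?_
    exact add_le_add (add_le_add (add_le_add (add_le_add (add_le_add le_rfl t2) t3) t4) t5) t6.le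
  · have h2 := k_near2 h h1'
    set s : ℝ := 1 - y with hs
    have hs0 : 0 < s := by linarith
    have hs1 : s ≤ 1 / 2 := by linarith
    set L : ℝ := Real.log (1 / s) with hL
    have hL0 : 0 ≤ L := Real.log_nonneg (by rw [le_div_iff₀ hs0]; linarith)
    set v : ℝ := m * (s ^ 2 / 2 * (Real.log 2 + L) + 3 / 2 * s ^ 3 * (1 + L)) with hv
    have hv0 : 0 ≤ v := by positivity
    have hLs : L * s ≤ (Real.log 2 - 1) * s + 1 / 2 := by
      have h3 := Real.log_le_sub_one_of_pos (show (0 : ℝ) < 1 / s / 2 by positivity)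
      rw [Real.log_div (by positivity) (by norm_num), ← hL] at h3
      have h4 : (1 / s / 2 - 1 + Real.log 2) * s = (Real.log 2 - 1) * s + 1 / 2 := by
        field_simp
        ring
      rw [← h4]
      exact mul_le_mul_of_nonneg_right (by linarith) hs0.le
    have hv1 : v ≤ 99 / 100 * (m * s) := by
      have h3 : s / 2 * (Real.log 2 + L) + 3 / 2 * s ^ 2 * (1 + L) ≤ 99 / 100 := by
        have h4 : s * Real.log 2 ≤ 1 / 2 * 0.6931471808 := by
          have := mul_le_mul hs1 h9.le hl2 (by norm_num)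
          linarith
        have h5 : s * (s + L * s) ≤ 1 / 2 * (1 / 2 * 0.6931471808 + 1 / 2) := by
          have h6 : s + L * s ≤ 1 / 2 * 0.6931471808 + 1 / 2 := by nlinarith
          have h7 : 0 ≤ s + L * s := by positivity
          exact mul_le_mul hs1 h6 h7 (by norm_num)
        nlinarith
      calc v = (m * s) * (s / 2 * (Real.log 2 + L) + 3 / 2 * s ^ 2 * (1 + L)) := by rw [hv]; ring
        _ ≤ (m * s) * (99 / 100) := mul_le_mul_of_nonneg_left h3 (by positivity)
        _ = _ := by ring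
    have hLm : L ≤ Real.log m + 1 / (m * s) := by
      have h3 : 1 / s = m * (1 / (m * s)) := by field_simp
      rw [hL, h3, Real.log_mul hm0.ne' (by positivity)]
      have h4 := Real.log_le_sub_one_of_pos (show (0 : ℝ) < 1 / (m * s) by positivity)
      linarith
    have hv2 : v ≤ ((m : ℝ) / 2 * (Real.log 2 + Real.log m) + 3 / 2) * s ^ 2 + 1 / 2 * s ^ 1 +
        3 / 2 * m * (1 + Real.log m) * s ^ 3 := by
      have h3 : v ≤ m * (s ^ 2 / 2 * (Real.log 2 + (Real.log m + 1 / (m * s))) +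
          3 / 2 * s ^ 3 * (1 + (Real.log m + 1 / (m * s)))) := by
        rw [hv]
        refine mul_le_mul_of_nonneg_left ?_ hm0.le
        refine add_le_add ?_ ?_
        · exact mul_le_mul_of_nonneg_left (by linarith) (by positivity)
        · exact mul_le_mul_of_nonneg_left (by linarith) (by positivity)
      refine h3.trans (le_of_eq ?_)
      field_simp
      ring
    set x : ℝ := m * s with hx
    have hx0 : 0 ≤ x := by positivity
    have hsx : s = x / m := by rw [hx]; field_simp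
    set g : ℝ := (1 + Real.log m) / m with hg
    have hg0 : 0 ≤ g := by positivity
    have hv3 : v ≤ g * (x / 2 + 2 * x ^ 2 + 3 / 2 * x ^ 3) := by
      refine hv2.trans ?_
      have a1 : (m : ℝ) / 2 * (Real.log 2 + Real.log m) * s ^ 2 ≤ g * (x ^ 2 / 2) := by
        rw [hsx, hg]
        have : (m : ℝ) / 2 * (Real.log 2 + Real.log m) * (x / m) ^ 2 =
          (Real.log 2 + Real.log m) / m * (x ^ 2 / 2) := by field_simp
        rw [this]
        refine mul_le_mul_of_nonneg_right ?_ (by positivity)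
        exact div_le_div_of_nonneg_right (by linarith) hm0.le
      have a2 : 3 / 2 * s ^ 2 ≤ g * (3 / 2 * x ^ 2) := by
        rw [hsx, hg]
        have : (3 / 2 : ℝ) * (x / m) ^ 2 = (1 / m) / m * (3 / 2 * x ^ 2) := by field_simp
        rw [this]
        refine mul_le_mul_of_nonneg_right ?_ (by positivity)
        refine div_le_div_of_nonneg_right ?_ hm0.le
        rw [div_le_iff₀ hm0]
        nlinarith
      have a3 : 1 / 2 * s ^ 1 ≤ g * (x / 2) := by
        rw [hsx, hg]
        have : (1 / 2 : ℝ) * (x / m) ^ 1 = 1 / m * (x / 2) := by field_simp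
        rw [this]
        refine mul_le_mul_of_nonneg_right ?_ (by positivity)
        exact div_le_div_of_nonneg_right (by linarith) hm0.le
      have a4 : 3 / 2 * m * (1 + Real.log m) * s ^ 3 ≤ g * (3 / 2 * x ^ 3) := by
        rw [hsx, hg]
        have : (3 / 2 : ℝ) * m * (1 + Real.log m) * (x / m) ^ 3 =
          ((1 + Real.log m) / m) / m * (3 / 2 * x ^ 3) := by field_simp
        rw [this]
        refine mul_le_mul_of_nonneg_right ?_ (by positivity)
        exact div_le_self (by positivity) hm1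
      nlinarith
    have e0 : y ^ 2 ≤ Real.exp (-(2 * s)) := by
      have h3 := Real.add_one_le_exp (-s)
      have h4 : y ≤ Real.exp (-s) := by linarith
      have h5 := pow_le_pow_left₀ h0 h4 2
      rw [← Real.exp_nat_mul] at h5
      refine h5.trans (le_of_eq ?_)
      congr 1
      push_cast
      ring
    have e1 : Real.exp ((m : ℝ) * K (y • ez)) ≤ Real.exp (-((m : ℝ) * s) + v) := by
      refine Real.exp_le_exp.2 ?_
      have := mul_le_mul_of_nonneg_left h2 hm0.le
      rw [hv]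
      linarith
    have e2 : y ^ 2 * Real.exp ((m : ℝ) * K (y • ez)) ≤
        Real.exp (-(((m : ℝ) + 2) * s)) * Real.exp v := by
      calc _ ≤ Real.exp (-(2 * s)) * Real.exp (-((m : ℝ) * s) + v) :=
            mul_le_mul e0 e1 (Real.exp_pos _).le (Real.exp_pos _).le
        _ = _ := by rw [← Real.exp_add, ← Real.exp_add]; congr 1; ring
    have e3 := mul_le_mul_of_nonneg_left (exp_two hv0) (Real.exp_pos (-(((m : ℝ) + 2) * s))).le
    have e4 : Real.exp (-(((m : ℝ) + 2) * s)) * Real.exp v ≤ Real.exp (-(x / 100)) := by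
      rw [← Real.exp_add]
      refine Real.exp_le_exp.2 ?_
      rw [hx] at hv1 ⊢
      nlinarith
    have e5 : v ^ 2 ≤ g ^ 2 * (x / 2 + 2 * x ^ 2 + 3 / 2 * x ^ 3) ^ 2 := by
      rw [← mul_pow]
      exact pow_le_pow_left₀ hv0 hv3 2
    have e6 : Real.exp (-(((m : ℝ) + 2) * s)) * (v ^ 2 * Real.exp v) ≤
        10 ^ 18 * g ^ 2 * Real.exp (-((m : ℝ) / 200 * s)) := by
      have h3 : Real.exp (-(((m : ℝ) + 2) * s)) * (v ^ 2 * Real.exp v) =
          v ^ 2 * (Real.exp (-(((m : ℝ) + 2) * s)) * Real.exp v) := by ring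
      rw [h3]
      have h4 : v ^ 2 * (Real.exp (-(((m : ℝ) + 2) * s)) * Real.exp v) ≤
          g ^ 2 * (x / 2 + 2 * x ^ 2 + 3 / 2 * x ^ 3) ^ 2 * Real.exp (-(x / 100)) :=
        mul_le_mul e5 e4 (by positivity) (by positivity)
      refine h4.trans ?_
      have h5 := mul_le_mul_of_nonneg_left (poly_bound hx0) (sq_nonneg g)
      have h6 : x / 200 = (m : ℝ) / 200 * s := by rw [hx]; ring
      rw [h6] at h5
      linarith
    have e7 : Real.exp (-(((m : ℝ) + 2) * s)) * v ≤ Real.exp (-(((m : ℝ) + 2) * s)) *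
        (((m : ℝ) / 2 * (Real.log 2 + Real.log m) + 3 / 2) * s ^ 2 + 1 / 2 * s ^ 1 +
        3 / 2 * m * (1 + Real.log m) * s ^ 3) :=
      mul_le_mul_of_nonneg_left hv2 (Real.exp_pos _).le
    unfold DD
    rw [← hg]
    linarith

end Pool.Agent.H79.Ba
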