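import Pool.Agent.H79.Ba.S1

/-!
# Pointwise upper bound of `Q` on the unit ball
-/

set_option autoImplicit false

open Finset Filter Topology

namespace Pool.Agent.H79.Ba

lemma Q_eq_offdiag {n : ℕ} (r : Fin n → E3) :
    Q r = ∏ i, ∏ j ∈ ({i} : Finset (Fin n))ᶜ, ‖r j - r i‖ := by
  rw [← Finset.prod_prod_Ioi_mul_eq_prod_prod_off_diag (fun j i => ‖r j - r i‖)]
  unfold Q
  refine Finset.prod_congr rfl fun k _ => Finset.prod_congr rfl fun j _ => ?_
  rw [sq, norm_sub_rev (r k) (r j)]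

/-- the part of `Q` not involving the point `i` -/
noncomputable def Rest {n : ℕ} (i : Fin n) (r : Fin n → E3) : ℝ :=
  ∏ k ∈ ({i} : Finset (Fin n))ᶜ, ∏ j ∈ ({k} : Finset (Fin n))ᶜ.erase i, ‖r j - r k‖

lemma Q_isolate {n : ℕ} (i : Fin n) (r : Fin n → E3) :
    Q r = (∏ j ∈ ({i} : Finset (Fin n))ᶜ, ‖r i - r j‖ ^ 2) * Rest i r := by
  rw [Q_eq_offdiag, Fintype.prod_eq_mul_prod_compl i]
  have h : ∏ k ∈ ({i} : Finset (Fin n))ᶜ, ∏ j ∈ ({k} : Finset (Fin n))ᶜ, ‖r j - r k‖ =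
      (∏ j ∈ ({i} : Finset (Fin n))ᶜ, ‖r i - r j‖) * Rest i r := by
    unfold Rest
    rw [← Finset.prod_mul_distrib]
    refine Finset.prod_congr rfl fun k hk => ?_
    rw [Finset.mem_compl, Finset.mem_singleton] at hk
    exact (Finset.mul_prod_erase _ (fun j => ‖r j - r k‖) (by
      rw [Finset.mem_compl, Finset.mem_singleton]; exact fun h => hk h.symm)).symm
  rw [h, Finset.prod_pow, sq]
  have e : ∏ j ∈ ({i} : Finset (Fin n))ᶜ, ‖r j - r i‖ = ∏ j ∈ ({i} : Finset (Fin n))ᶜ, ‖r i - r j‖ :=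
    Finset.prod_congr rfl fun j _ => norm_sub_rev _ _
  rw [e]
  ring

lemma Rest_update {n : ℕ} (i : Fin n) (r : Fin n → E3) (x : E3) :
    Rest i (Function.update r i x) = Rest i r := by
  unfold Rest
  refine Finset.prod_congr rfl fun k hk => Finset.prod_congr rfl fun j hj => ?_
  rw [Finset.mem_compl, Finset.mem_singleton] at hk
  rw [Function.update_of_ne hk, Function.update_of_ne (Finset.ne_of_mem_erase hj)]

lemma Rest_nonneg {n : ℕ} (i : Fin n) (r : Fin n → E3) : 0 ≤ Rest i r :=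
  Finset.prod_nonneg fun _ _ => Finset.prod_nonneg fun _ _ => norm_nonneg _

lemma Q_update {n : ℕ} (i : Fin n) (r : Fin n → E3) (x : E3) :
    Q (Function.update r i x) = (∏ j ∈ ({i} : Finset (Fin n))ᶜ, ‖x - r j‖ ^ 2) * Rest i r := by
  rw [Q_isolate i, Rest_update, Function.update_self]
  congr 1
  refine Finset.prod_congr rfl fun j hj => ?_
  rw [Finset.mem_compl, Finset.mem_singleton] at hj
  rw [Function.update_of_ne hj]

lemma Q_nonneg {n : ℕ} (r : Fin n → E3) : 0 ≤ Q r :=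
  Finset.prod_nonneg fun _ _ => Finset.prod_nonneg fun _ _ => by positivity

lemma Q_continuous {n : ℕ} : Continuous (fun r : Fin n → E3 => Q r) := by
  unfold Q
  fun_prop

/-- second derivative test -/
lemma second_deriv (G G' : ℝ → ℝ) (c : ℝ) (h1 : ∀ᶠ t in 𝓝 (0 : ℝ), HasDerivAt G (G' t) t)
    (h2 : HasDerivAt G' c 0) (hm : IsLocalMax G 0) : c ≤ 0 := by
  by_contra hc
  push Not at hc
  have e1 : deriv G =ᶠ[𝓝 0] G' := h1.mono fun t ht => ht.deriv
  have e2 : deriv (deriv G) 0 = c := by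
    rw [e1.deriv_eq]
    exact h2.deriv
  have e3 : deriv G 0 = 0 := hm.deriv_eq_zero
  have e4 : IsLocalMin G 0 := isLocalMin_of_deriv_deriv_pos (by rw [e2]; exact hc) e3
    h1.self_of_nhds.continuousAt
  have e5 : G =ᶠ[𝓝 0] fun _ => G 0 := by
    filter_upwards [hm, e4] with t h3 h4
    exact le_antisymm h3 h4
  have e6 : deriv G =ᶠ[𝓝 0] fun _ => 0 := by
    have := e5.deriv
    filter_upwards [this] with t ht
    rw [ht]
    simp
  have e7 : deriv (deriv G) 0 = 0 := by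
    rw [e6.deriv_eq]
    simp
  linarith

/-- the logarithm of a product of quadratics -/
lemma second_deriv_log {ι : Type*} (s : Finset ι) (D d : ι → ℝ) (hD : ∀ j ∈ s, 0 < D j)
    (a X x : ℝ)
    (hm : IsLocalMax (fun t : ℝ => ∑ j ∈ s, Real.log (D j + 2 * t * d j + t ^ 2) -
      a * (X + 2 * t * x + t ^ 2)) 0) :
    ∑ j ∈ s, (2 / D j - 4 * d j ^ 2 / D j ^ 2) ≤ 2 * a := by
  have key := second_deriv _ (fun t => ∑ j ∈ s, (2 * d j + 2 * t) / (D j + 2 * t * d j + t ^ 2) -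
      a * (2 * x + 2 * t)) (∑ j ∈ s, (2 / D j - 4 * d j ^ 2 / D j ^ 2) - 2 * a) ?_ ?_ hm
  · linarith
  · have hpos : ∀ᶠ t in 𝓝 (0 : ℝ), ∀ j ∈ s, 0 < D j + 2 * t * d j + t ^ 2 := by
      rw [Finset.eventually_all]
      intro j hj
      have hc : ContinuousAt (fun t : ℝ => D j + 2 * t * d j + t ^ 2) 0 := by fun_prop
      exact hc.eventually (lt_mem_nhds (by simpa using hD j hj))
    filter_upwards [hpos] with t ht
    have h1 : HasDerivAt (fun t : ℝ => ∑ j ∈ s, Real.log (D j + 2 * t * d j + t ^ 2))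
        (∑ j ∈ s, (2 * d j + 2 * t) / (D j + 2 * t * d j + t ^ 2)) t := by
      refine HasDerivAt.fun_sum fun j hj => ?_
      have h2 : HasDerivAt (fun t : ℝ => D j + 2 * t * d j + t ^ 2) (2 * d j + 2 * t) t := by
        have h3 := (((hasDerivAt_id t).const_mul 2).mul_const (d j)).const_add (D j)
        have h4 : HasDerivAt (fun t : ℝ => D j + 2 * t * d j + t ^ 2) _ t :=
          h3.add (hasDerivAt_pow 2 t)
        exact h4.congr_deriv (by norm_num)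
      exact h2.log (ht j hj).ne'
    have h5 : HasDerivAt (fun t : ℝ => a * (X + 2 * t * x + t ^ 2)) (a * (2 * x + 2 * t)) t := by
      have h3 := (((hasDerivAt_id t).const_mul 2).mul_const x).const_add X
      have h4 : HasDerivAt (fun t : ℝ => a * (X + 2 * t * x + t ^ 2)) _ t :=
        (h3.add (hasDerivAt_pow 2 t)).const_mul a
      exact h4.congr_deriv (by norm_num)
    exact h1.sub h5
  · have h1 : HasDerivAt (fun t : ℝ => ∑ j ∈ s, (2 * d j + 2 * t) / (D j + 2 * t * d j + t ^ 2))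
        (∑ j ∈ s, (2 / D j - 4 * d j ^ 2 / D j ^ 2)) 0 := by
      refine HasDerivAt.fun_sum fun j hj => ?_
      have hDj := hD j hj
      have h2 : HasDerivAt (fun t : ℝ => D j + 2 * t * d j + t ^ 2) (2 * d j) 0 := by
        have h3 := (((hasDerivAt_id (0:ℝ)).const_mul 2).mul_const (d j)).const_add (D j)
        have h4 : HasDerivAt (fun t : ℝ => D j + 2 * t * d j + t ^ 2) _ 0 :=
          h3.add (hasDerivAt_pow 2 (0:ℝ))
        exact h4.congr_deriv (by norm_num)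
      have h3 : HasDerivAt (fun t : ℝ => 2 * d j + 2 * t) 2 0 := by
        have h3 : HasDerivAt (fun t : ℝ => 2 * d j + 2 * t) _ 0 :=
          ((hasDerivAt_id (0:ℝ)).const_mul 2).const_add (2 * d j)
        exact h3.congr_deriv (by norm_num)
      have h4 : HasDerivAt (fun t : ℝ => (2 * d j + 2 * t) / (D j + 2 * t * d j + t ^ 2)) _ 0 :=
        h3.div h2 (by simpa using hDj.ne')
      refine h4.congr_deriv ?_
      simp only [mul_zero, zero_mul, add_zero, ne_eq, OfNat.ofNat_ne_zero, not_false_eq_true,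
        zero_pow]
      field_simp
      ring
    have h5 : HasDerivAt (fun t : ℝ => a * (2 * x + 2 * t)) (2 * a) 0 := by
      have h3 : HasDerivAt (fun t : ℝ => a * (2 * x + 2 * t)) _ 0 :=
        (((hasDerivAt_id (0:ℝ)).const_mul 2).const_add (2 * x)).const_mul a
      exact h3.congr_deriv (by ring)
    exact h1.sub h5

lemma norm_add_single (y : E3) (t : ℝ) (k : Fin 3) :
    ‖y + t • EuclideanSpace.single k (1 : ℝ)‖ ^ 2 = ‖y‖ ^ 2 + 2 * t * y k + t ^ 2 := by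
  rw [norm_sq_E3, norm_sq_E3]
  fin_cases k <;> simp <;> ring

lemma Bn_pos (n : ℕ) : 0 < Bn n := div_pos (by positivity) (prod_choose_pos n)

/-- the key pointwise bound -/
lemma Q_ball_le {n : ℕ} (hn : 1 ≤ n) (r : Fin n → E3) (hr : ∀ i, ‖r i‖ ≤ 1) :
    Q r * Real.exp (((n : ℝ) - 1) / 13 * ∑ i, (1 - ‖r i‖ ^ 2)) ≤ Bn n := by
  rcases Nat.lt_or_ge 1 n with hn2 | hn2
  swap
  · have : n = 1 := by omega
    subst this
    simp [Q, Bn]
  set a : ℝ := ((n : ℝ) - 1) / 13 with ha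
  have hn1 : (1 : ℝ) < n := by exact_mod_cast hn2
  set K : Set (Fin n → E3) := Set.pi Set.univ (fun _ => Metric.closedBall (0 : E3) 1) with hK
  have hKc : IsCompact K := isCompact_univ_pi fun _ => isCompact_closedBall 0 1
  have memK : ∀ x : Fin n → E3, x ∈ K ↔ ∀ i, ‖x i‖ ≤ 1 := by
    intro x
    simp [hK]
  have hcont : Continuous (fun r : Fin n → E3 => Q r * Real.exp (a * ∑ i, (1 - ‖r i‖ ^ 2))) := by
    have := Q_continuous (n := n)
    fun_prop
  obtain ⟨r0, hr0, hmax⟩ := hKc.exists_isMaxOn ⟨r, (memK r).2 hr⟩ hcont.continuousOn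
  refine le_trans (hmax ((memK r).2 hr)) ?_
  have hr0' := (memK r0).1 hr0
  simp only
  by_cases hall : ∀ i, ‖r0 i‖ = 1
  · have h1 : ∑ i, (1 - ‖r0 i‖ ^ 2) = 0 := by
      refine Finset.sum_eq_zero fun i _ => ?_
      rw [hall i]; norm_num
    rw [h1, mul_zero, Real.exp_zero, mul_one]
    exact Q_sphere_le r0 hall
  push Not at hall
  obtain ⟨i, hi⟩ := hall
  have hi1 : ‖r0 i‖ < 1 := lt_of_le_of_ne (hr0' i) hi
  rcases (Q_nonneg r0).eq_or_lt with hQ0 | hQ0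
  · rw [← hQ0, zero_mul]
    exact (Bn_pos n).le
  exfalso
  have hPnn : 0 ≤ ∏ j ∈ ({i} : Finset (Fin n))ᶜ, ‖r0 i - r0 j‖ ^ 2 :=
    Finset.prod_nonneg fun j _ => by positivity
  have hRpos : 0 < Rest i r0 := by
    rcases (Rest_nonneg i r0).eq_or_lt with h | h
    · rw [Q_isolate i, ← h, mul_zero] at hQ0
      exact absurd hQ0 (lt_irrefl _)
    · exact h
  have hPpos : 0 < ∏ j ∈ ({i} : Finset (Fin n))ᶜ, ‖r0 i - r0 j‖ ^ 2 := by
    rcases hPnn.eq_or_lt with h | h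
    · rw [Q_isolate i, ← h, zero_mul] at hQ0
      exact absurd hQ0 (lt_irrefl _)
    · exact h
  have hD : ∀ j ∈ ({i} : Finset (Fin n))ᶜ, 0 < ‖r0 i - r0 j‖ ^ 2 := by
    intro j hj
    exact lt_of_le_of_ne (by positivity) (Ne.symm (Finset.prod_ne_zero_iff.1 hPpos.ne' j hj))
  -- the function of one point
  have hPhi : ∀ y : E3, Q (Function.update r0 i y) *
      Real.exp (a * ∑ l, (1 - ‖Function.update r0 i y l‖ ^ 2)) =
      ((∏ j ∈ ({i} : Finset (Fin n))ᶜ, ‖y - r0 j‖ ^ 2) * Real.exp (-(a * ‖y‖ ^ 2))) *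
      (Rest i r0 * Real.exp (a * (1 + ∑ l ∈ ({i} : Finset (Fin n))ᶜ, (1 - ‖r0 l‖ ^ 2)))) := by
    intro y
    rw [Q_update, Fintype.sum_eq_add_sum_compl i, Function.update_self]
    have h1 : ∑ l ∈ ({i} : Finset (Fin n))ᶜ, (1 - ‖Function.update r0 i y l‖ ^ 2) =
        ∑ l ∈ ({i} : Finset (Fin n))ᶜ, (1 - ‖r0 l‖ ^ 2) := by
      refine Finset.sum_congr rfl fun l hl => ?_
      rw [Finset.mem_compl, Finset.mem_singleton] at hl
      rw [Function.update_of_ne hl]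
    rw [h1, show a * (1 - ‖y‖ ^ 2 + ∑ l ∈ ({i} : Finset (Fin n))ᶜ, (1 - ‖r0 l‖ ^ 2)) =
      -(a * ‖y‖ ^ 2) + a * (1 + ∑ l ∈ ({i} : Finset (Fin n))ᶜ, (1 - ‖r0 l‖ ^ 2)) by ring,
      Real.exp_add]
    ring
  have hcst : 0 < Rest i r0 * Real.exp (a * (1 + ∑ l ∈ ({i} : Finset (Fin n))ᶜ, (1 - ‖r0 l‖ ^ 2))) :=
    mul_pos hRpos (Real.exp_pos _)
  have hcomp : ∀ y : E3, ‖y‖ ≤ 1 →
      (∏ j ∈ ({i} : Finset (Fin n))ᶜ, ‖y - r0 j‖ ^ 2) * Real.exp (-(a * ‖y‖ ^ 2)) ≤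
      (∏ j ∈ ({i} : Finset (Fin n))ᶜ, ‖r0 i - r0 j‖ ^ 2) * Real.exp (-(a * ‖r0 i‖ ^ 2)) := by
    intro y hy
    have h1 := hmax (show Function.update r0 i y ∈ K from (memK _).2 (by
      intro l
      by_cases hl : l = i
      · subst hl; rw [Function.update_self]; exact hy
      · rw [Function.update_of_ne hl]; exact hr0' l))
    have h2 := hPhi (r0 i)
    rw [Function.update_eq_self] at h2
    simp only [Set.mem_ofPred_eq] at h1
    rw [hPhi y, h2] at h1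
    exact le_of_mul_le_mul_right h1 hcst
  have hk : ∀ k : Fin 3, ∑ j ∈ ({i} : Finset (Fin n))ᶜ, (2 / ‖r0 i - r0 j‖ ^ 2 -
      4 * ((r0 i - r0 j) k) ^ 2 / (‖r0 i - r0 j‖ ^ 2) ^ 2) ≤ 2 * a := by
    intro k
    refine second_deriv_log _ (fun j => ‖r0 i - r0 j‖ ^ 2) (fun j => (r0 i - r0 j) k) hD a
      (‖r0 i‖ ^ 2) (r0 i k) ?_
    have hpos : ∀ᶠ t in 𝓝 (0 : ℝ), ∀ j ∈ ({i} : Finset (Fin n))ᶜ,
        0 < ‖r0 i - r0 j‖ ^ 2 + 2 * t * (r0 i - r0 j) k + t ^ 2 := by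
      rw [Finset.eventually_all]
      intro j hj
      have hc : ContinuousAt (fun t : ℝ => ‖r0 i - r0 j‖ ^ 2 + 2 * t * (r0 i - r0 j) k + t ^ 2) 0 := by
        fun_prop
      exact hc.eventually (lt_mem_nhds (by simpa using hD j hj))
    have hball : ∀ᶠ t in 𝓝 (0 : ℝ), ‖r0 i + t • EuclideanSpace.single k (1 : ℝ)‖ < 1 := by
      have hc : ContinuousAt (fun t : ℝ => ‖r0 i + t • EuclideanSpace.single k (1 : ℝ)‖) 0 := by
        fun_prop
      exact hc.eventually (gt_mem_nhds (by simpa using hi1))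
    filter_upwards [hpos, hball] with t ht1 ht2
    have h1 := hcomp _ ht2.le
    have h2 : ∀ j, ‖r0 i + t • EuclideanSpace.single k (1 : ℝ) - r0 j‖ ^ 2 =
        ‖r0 i - r0 j‖ ^ 2 + 2 * t * (r0 i - r0 j) k + t ^ 2 := by
      intro j
      rw [show r0 i + t • EuclideanSpace.single k (1 : ℝ) - r0 j =
        (r0 i - r0 j) + t • EuclideanSpace.single k (1 : ℝ) by abel, norm_add_single]
    simp_rw [h2] at h1
    rw [norm_add_single] at h1
    have hp1 : 0 < ∏ j ∈ ({i} : Finset (Fin n))ᶜ,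
        (‖r0 i - r0 j‖ ^ 2 + 2 * t * (r0 i - r0 j) k + t ^ 2) := Finset.prod_pos ht1
    have h3 := Real.log_le_log (mul_pos hp1 (Real.exp_pos _)) h1
    rw [Real.log_mul hp1.ne' (Real.exp_pos _).ne', Real.log_mul hPpos.ne' (Real.exp_pos _).ne',
      Real.log_exp, Real.log_exp, Real.log_prod (fun j hj => (ht1 j hj).ne'),
      Real.log_prod (fun j hj => (hD j hj).ne')] at h3
    simp only [mul_zero, zero_mul, add_zero, ne_eq, OfNat.ofNat_ne_zero, not_false_eq_true,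
        zero_pow]
    linarith
  have hsum : ∑ k : Fin 3, ∑ j ∈ ({i} : Finset (Fin n))ᶜ, (2 / ‖r0 i - r0 j‖ ^ 2 -
      4 * ((r0 i - r0 j) k) ^ 2 / (‖r0 i - r0 j‖ ^ 2) ^ 2) ≤ 6 * a := by
    calc _ ≤ ∑ _k : Fin 3, 2 * a := Finset.sum_le_sum fun k _ => hk k
      _ = 6 * a := by simp; ring
  rw [Finset.sum_comm] at hsum
  have hj : ∀ j ∈ ({i} : Finset (Fin n))ᶜ, (1 / 2 : ℝ) ≤ ∑ k : Fin 3, (2 / ‖r0 i - r0 j‖ ^ 2 -
      4 * ((r0 i - r0 j) k) ^ 2 / (‖r0 i - r0 j‖ ^ 2) ^ 2) := by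
    intro j hj
    have h1 := hD j hj
    have h2 : ∑ k : Fin 3, (2 / ‖r0 i - r0 j‖ ^ 2 -
      4 * ((r0 i - r0 j) k) ^ 2 / (‖r0 i - r0 j‖ ^ 2) ^ 2) = 2 / ‖r0 i - r0 j‖ ^ 2 := by
      rw [Fin.sum_univ_three]
      have h3 := norm_sq_E3 (r0 i - r0 j)
      set D := ‖r0 i - r0 j‖ ^ 2 with hDD
      have h4 : 4 * ((r0 i - r0 j) 0) ^ 2 / D ^ 2 + 4 * ((r0 i - r0 j) 1) ^ 2 / D ^ 2 +
          4 * ((r0 i - r0 j) 2) ^ 2 / D ^ 2 = 4 / D := by
        rw [← add_div, ← add_div, ← mul_add, ← mul_add, ← h3, sq, ← div_div, mul_div_assoc,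
          div_self h1.ne', mul_one]
      have h5 : 6 / D = 2 / D + 4 / D := by ring
      have h6 : 2 / D + 2 / D + 2 / D = 6 / D := by ring
      linarith
    rw [h2, div_le_div_iff₀ (by norm_num) h1]
    have h3 : ‖r0 i - r0 j‖ ≤ 2 := by
      have := norm_sub_le (r0 i) (r0 j)
      have a1 := hr0' i
      have a2 := hr0' j
      linarith
    nlinarith [norm_nonneg (r0 i - r0 j)]
  have hfin := Finset.sum_le_sum hj
  rw [Finset.sum_const, Finset.card_compl, Finset.card_singleton, Fintype.card_fin,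
    nsmul_eq_mul, Nat.cast_sub hn] at hfin
  push_cast at hfin
  have : ((n : ℝ) - 1) * (1 / 2) ≤ 6 * a := hfin.trans hsum
  rw [ha] at this
  linarith

end Pool.Agent.H79.Ba
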