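import Pool.Agent.H79.Ba.S19

/-!
# The factor between the two sides is at most a constant times `n`
-/

set_option autoImplicit false

open MeasureTheory Metric Set

namespace Pool.Agent.H79.Ba

attribute [local irreducible] mob dir

lemma DD_cont (m : ℕ) : Continuous (DD m) := by
  unfold DD
  fun_prop

lemma weight_le_DD {m : ℕ} (hm : 1 ≤ m) :
    ∫ r in closedBall (0 : E3) 1, w m r ≤
      3 * volume.real (ball (0 : E3) 1) * ∫ s in (0 : ℝ)..1, DD m s := by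
  have h1 : ∫ r in closedBall (0 : E3) 1, w m r =
      ∫ r in closedBall (0 : E3) 1, Real.exp ((m : ℝ) * K (‖r‖ • ez)) := by
    congr 1
    funext r
    unfold w
    rw [K_radial]
  rw [h1, radial_int (fun y : ℝ => Real.exp ((m : ℝ) * K (y • ez)))]
  refine mul_le_mul_of_nonneg_left ?_ (by have := vol_ball_pos; positivity)
  have h2 : ∫ s in (0 : ℝ)..1, DD m s = ∫ y in Ioc (0 : ℝ) 1, DD m (1 - y) := by
    rw [← intervalIntegral.integral_of_le (by norm_num : (0 : ℝ) ≤ 1)]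
    have := intervalIntegral.integral_comp_sub_left (a := 0) (b := 1) (fun s => DD m s) 1
    simp only [sub_self, sub_zero] at this
    exact this.symm
  rw [h2]
  refine integral_mono_of_nonneg (Filter.Eventually.of_forall fun y => by positivity) ?_ ?_
  · have hc : Continuous (fun y : ℝ => DD m (1 - y)) := (DD_cont m).comp (by fun_prop)
    exact (hc.integrableOn_Icc (a := 0) (b := 1)).mono_set Ioc_subset_Icc_self
  · refine (ae_restrict_iff' measurableSet_Ioc).2 (Filter.Eventually.of_forall fun y hy => ?_)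
    exact exp_bound2 hm hy.1.le hy.2

lemma int_DD {m : ℕ} (hm : 1 ≤ m) : ∫ s in (0 : ℝ)..1, DD m s ≤
    1 / ((m : ℝ) + 2) + ((m : ℝ) / 2 * (Real.log 2 + Real.log m) + 3 / 2) * (2 / ((m : ℝ) + 2) ^ 3) +
    1 / 2 * (1 / ((m : ℝ) + 2) ^ 2) + 3 / 2 * m * (1 + Real.log m) * (6 / ((m : ℝ) + 2) ^ 4) +
    10 ^ 18 * ((1 + Real.log m) / m) ^ 2 * (200 / m) + 2 * 10 ^ 4 / (m : ℝ) ^ 2 := by
  have hm0 : (0 : ℝ) < m := by exact_mod_cast hm
  have hm1 : (1 : ℝ) ≤ m := by exact_mod_cast hm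
  have hlm : 0 ≤ Real.log m := Real.log_nonneg hm1
  have hl2 : 0 ≤ Real.log 2 := Real.log_nonneg (by norm_num)
  have hb : (0 : ℝ) < (m : ℝ) + 2 := by positivity
  have hb2 : (0 : ℝ) < (m : ℝ) / 200 := by positivity
  unfold DD
  have c (f : ℝ → ℝ) (hf : Continuous f) : IntervalIntegrable f volume 0 1 :=
    hf.intervalIntegrable _ _
  rw [intervalIntegral.integral_add (c _ (by fun_prop)) (c _ (by fun_prop)),
    intervalIntegral.integral_add (c _ (by fun_prop)) (c _ (by fun_prop)),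
    intervalIntegral.integral_add (c _ (by fun_prop)) (c _ (by fun_prop)),
    intervalIntegral.integral_add (c _ (by fun_prop)) (c _ (by fun_prop)),
    intervalIntegral.integral_add (c _ (by fun_prop)) (c _ (by fun_prop)),
    intervalIntegral.integral_const_mul, intervalIntegral.integral_const_mul,
    intervalIntegral.integral_const_mul, intervalIntegral.integral_const_mul,
    intervalIntegral.integral_const]
  have p0 := pe_le 0 hb
  have p1 := pe_le 1 hb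
  have p2 := pe_le 2 hb
  have p3 := pe_le 3 hb
  have q0 := pe_le 0 hb2
  simp only [pow_zero, one_mul, Nat.factorial, zero_add, pow_one, Nat.cast_one, mul_one,
    Nat.succ_eq_add_one, Nat.reduceAdd, Nat.reduceMul, Nat.cast_ofNat] at p0 p1 p2 p3 q0 ⊢
  have r1 := mul_le_mul_of_nonneg_left p2
    (show 0 ≤ (m : ℝ) / 2 * (Real.log 2 + Real.log m) + 3 / 2 by positivity)
  have r2 := mul_le_mul_of_nonneg_left p3 (show 0 ≤ 3 / 2 * (m : ℝ) * (1 + Real.log m) by positivity)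
  have r3 := mul_le_mul_of_nonneg_left q0
    (show 0 ≤ 10 ^ 18 * ((1 + Real.log m) / (m : ℝ)) ^ 2 by positivity)
  have r4 : Real.exp (-((m : ℝ) / 100)) ≤ 2 * 10 ^ 4 / (m : ℝ) ^ 2 := by
    have := exp_sq_le (show (0 : ℝ) ≤ (m : ℝ) / 100 by positivity)
    rw [le_div_iff₀ (by positivity)]
    nlinarith
  have r5 : (1 : ℝ) / ((m : ℝ) / 200) = 200 / m := by field_simp
  rw [r5] at r3
  simp only [sub_zero, smul_eq_mul, one_mul]
  linarith

lemma one_add_log_sq {m : ℕ} (hm : 1 ≤ m) : (1 + Real.log m) ^ 2 ≤ 4 * (m : ℝ) := by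
  have hm0 : (0 : ℝ) < m := by exact_mod_cast hm
  have hs : 0 < √(m : ℝ) := Real.sqrt_pos.2 hm0
  have hlm : 0 ≤ Real.log m := Real.log_nonneg (by exact_mod_cast hm)
  have h1 : Real.log m = 2 * Real.log √(m : ℝ) := by
    rw [Real.log_sqrt hm0.le]
    ring
  have h2 := Real.log_le_sub_one_of_pos hs
  have h3 : 1 + Real.log m ≤ 2 * √(m : ℝ) := by linarith
  have h4 := pow_le_pow_left₀ (by linarith : (0 : ℝ) ≤ 1 + Real.log m) h3 2
  rw [mul_pow, Real.sq_sqrt hm0.le] at h4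
  linarith

lemma ratio_bound {m : ℕ} (hm : 1 ≤ m) :
    ((m : ℝ) + 3) * (1 / ((m : ℝ) + 2) +
      ((m : ℝ) / 2 * (Real.log 2 + Real.log m) + 3 / 2) * (2 / ((m : ℝ) + 2) ^ 3) +
    1 / 2 * (1 / ((m : ℝ) + 2) ^ 2) + 3 / 2 * m * (1 + Real.log m) * (6 / ((m : ℝ) + 2) ^ 4) +
    10 ^ 18 * ((1 + Real.log m) / m) ^ 2 * (200 / m) + 2 * 10 ^ 4 / (m : ℝ) ^ 2) ≤
    1 + Real.log m / ((m : ℝ) + 2) + 10 ^ 22 / m := by
  have hm0 : (0 : ℝ) < m := by exact_mod_cast hm
  have hm1 : (1 : ℝ) ≤ m := by exact_mod_cast hm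
  have hlm : 0 ≤ Real.log m := Real.log_nonneg hm1
  have hl2 : Real.log 2 ≤ 1 := by
    have := Real.log_le_sub_one_of_pos (show (0 : ℝ) < 2 by norm_num)
    linarith
  have hlm2 : 1 + Real.log m ≤ m := by
    have := Real.log_le_sub_one_of_pos hm0
    linarith
  have a1 : ((m : ℝ) + 3) * (1 / ((m : ℝ) + 2)) ≤ 1 + 1 / m := by
    have : ((m : ℝ) + 3) * (1 / ((m : ℝ) + 2)) = 1 + 1 / ((m : ℝ) + 2) := by field_simp; ring
    rw [this]
    have h2 : 1 / ((m : ℝ) + 2) ≤ 1 / m := by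
      rw [div_le_div_iff₀ (by positivity) hm0]; linarith
    linarith
  have a2 : ((m : ℝ) + 3) * (((m : ℝ) / 2 * (Real.log 2 + Real.log m) + 3 / 2) *
      (2 / ((m : ℝ) + 2) ^ 3)) ≤ Real.log m / ((m : ℝ) + 2) + 4 / m := by
    have h1 : ((m : ℝ) + 3) * (((m : ℝ) / 2 * (Real.log 2 + Real.log m) + 3 / 2) *
      (2 / ((m : ℝ) + 2) ^ 3)) = (((m : ℝ) + 3) * m * (Real.log 2 + Real.log m) +
        3 * ((m : ℝ) + 3)) / ((m : ℝ) + 2) ^ 3 := by field_simp
    rw [h1]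
    have h2 : (((m : ℝ) + 3) * m * (Real.log 2 + Real.log m) + 3 * ((m : ℝ) + 3)) ≤
        ((m : ℝ) + 2) ^ 2 * Real.log m + 4 * ((m : ℝ) + 2) ^ 2 := by
      have h3 : ((m : ℝ) + 3) * m ≤ ((m : ℝ) + 2) ^ 2 := by nlinarith
      have h4 : ((m : ℝ) + 3) * m * (Real.log 2 + Real.log m) ≤
          ((m : ℝ) + 2) ^ 2 * (1 + Real.log m) :=
        mul_le_mul h3 (by linarith) (by positivity) (by positivity)
      nlinarith
    have h5 := div_le_div_of_nonneg_right h2 (show 0 ≤ ((m : ℝ) + 2) ^ 3 by positivity)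
    refine h5.trans ?_
    have h6 : (((m : ℝ) + 2) ^ 2 * Real.log m + 4 * ((m : ℝ) + 2) ^ 2) / ((m : ℝ) + 2) ^ 3 =
        Real.log m / ((m : ℝ) + 2) + 4 / ((m : ℝ) + 2) := by field_simp
    rw [h6]
    have h7 : 4 / ((m : ℝ) + 2) ≤ 4 / m := by
      rw [div_le_div_iff₀ (by positivity) hm0]; linarith
    linarith
  have a3 : ((m : ℝ) + 3) * (1 / 2 * (1 / ((m : ℝ) + 2) ^ 2)) ≤ 1 / m := by
    have h1 : ((m : ℝ) + 3) * (1 / 2 * (1 / ((m : ℝ) + 2) ^ 2)) =
      ((m : ℝ) + 3) / (2 * ((m : ℝ) + 2) ^ 2) := by field_simp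
    rw [h1, div_le_div_iff₀ (by positivity) hm0]
    nlinarith
  have a4 : ((m : ℝ) + 3) * (3 / 2 * m * (1 + Real.log m) * (6 / ((m : ℝ) + 2) ^ 4)) ≤ 9 / m := by
    have h1 : ((m : ℝ) + 3) * (3 / 2 * m * (1 + Real.log m) * (6 / ((m : ℝ) + 2) ^ 4)) =
      9 * (((m : ℝ) + 3) * m * (1 + Real.log m)) / ((m : ℝ) + 2) ^ 4 := by field_simp; ring
    rw [h1, div_le_div_iff₀ (by positivity) hm0]
    have h3 : ((m : ℝ) + 3) * m ≤ ((m : ℝ) + 2) ^ 2 := by nlinarith
    have h4 : (1 + Real.log m) * m ≤ ((m : ℝ) + 2) ^ 2 := by nlinarith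
    have h5 := mul_le_mul h3 h4 (by positivity) (by positivity)
    nlinarith
  have a5 : ((m : ℝ) + 3) * (10 ^ 18 * ((1 + Real.log m) / m) ^ 2 * (200 / m)) ≤
      32 * 10 ^ 20 / m := by
    have h1 : ((m : ℝ) + 3) * (10 ^ 18 * ((1 + Real.log m) / m) ^ 2 * (200 / m)) =
      2 * 10 ^ 20 * (((m : ℝ) + 3) * (1 + Real.log m) ^ 2) / (m : ℝ) ^ 3 := by field_simp; ring
    rw [h1, div_le_div_iff₀ (by positivity) hm0]
    have h2 := one_add_log_sq hm
    have h3 : ((m : ℝ) + 3) * (1 + Real.log m) ^ 2 ≤ (4 * m) * (4 * m) :=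
      mul_le_mul (by linarith) h2 (by positivity) (by positivity)
    have h4 := mul_le_mul_of_nonneg_right h3 hm0.le
    nlinarith
  have a6 : ((m : ℝ) + 3) * (2 * 10 ^ 4 / (m : ℝ) ^ 2) ≤ 8 * 10 ^ 4 / m := by
    have h1 : ((m : ℝ) + 3) * (2 * 10 ^ 4 / (m : ℝ) ^ 2) = 2 * 10 ^ 4 * ((m : ℝ) + 3) / (m : ℝ) ^ 2 := by
      field_simp
    rw [h1, div_le_div_iff₀ (by positivity) hm0]
    nlinarith
  have a7 : 1 / (m : ℝ) + 4 / m + 1 / m + 9 / m + 32 * 10 ^ 20 / m + 8 * 10 ^ 4 / m ≤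
      10 ^ 22 / m := by
    rw [← add_div, ← add_div, ← add_div, ← add_div, ← add_div]
    exact div_le_div_of_nonneg_right (by norm_num) hm0.le
  linarith

/-- the final form of the upper bound -/
theorem F3_upper_sharp {n : ℕ} (hn : 1 ≤ n) :
    F3 n ≤ Real.exp (2 * 10 ^ 22) * n * Low n := by
  have hn0 : (0 : ℝ) < n := by exact_mod_cast hn
  have hL := Low_pos hn
  have hB := Bn_pos n
  have hV := vol_ball_pos
  rcases Nat.lt_or_ge 1 n with h | h
  · obtain ⟨m, rfl⟩ : ∃ m, n = m + 1 := ⟨n - 1, by omega⟩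
    have hm : 1 ≤ m := by omega
    have hm0 : (0 : ℝ) < m := by exact_mod_cast hm
    have hm1 : (1 : ℝ) ≤ m := by exact_mod_cast hm
    have hlm : 0 ≤ Real.log m := Real.log_nonneg hm1
    set V := volume.real (ball (0 : E3) 1) with hVd
    set X : ℝ := 1 + Real.log m / ((m : ℝ) + 2) + 10 ^ 22 / m with hX
    have hX0 : 0 ≤ X := by positivity
    have h1 : ∫ r in closedBall (0 : E3) 1, w m r ≤ 3 * V * (X / ((m : ℝ) + 3)) := by
      refine (weight_le_DD hm).trans ?_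
      rw [← hVd]
      refine mul_le_mul_of_nonneg_left ?_ (by positivity)
      rw [le_div_iff₀ (by positivity)]
      refine le_trans ?_ (ratio_bound hm)
      rw [mul_comm]
      exact mul_le_mul_of_nonneg_left (int_DD hm) (by positivity)
    have h2 : (∫ r in closedBall (0 : E3) 1, w (m + 1 - 1) r) / ((m + 1 : ℕ) : ℝ) ≤
        3 * V / (((m + 1 : ℕ) : ℝ) + 2) / ((m + 1 : ℕ) : ℝ) * X := by
      rw [show m + 1 - 1 = m by omega, div_mul_eq_mul_div]
      refine div_le_div_of_nonneg_right (h1.trans (le_of_eq ?_)) hn0.le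
      rw [show ((m + 1 : ℕ) : ℝ) + 2 = m + 3 by push_cast; ring]
      ring
    have hW : 0 ≤ (∫ r in closedBall (0 : E3) 1, w (m + 1 - 1) r) / ((m + 1 : ℕ) : ℝ) :=
      div_nonneg (integral_nonneg fun r => (w_pos _ r).le) hn0.le
    have h3 := pow_le_pow_left₀ hW h2 (m + 1)
    rw [mul_pow] at h3
    have h4 : X ^ (m + 1) ≤ Real.exp (2 * 10 ^ 22) * ((m + 1 : ℕ) : ℝ) := by
      have h5 : X ≤ Real.exp (Real.log m / ((m : ℝ) + 2) + 10 ^ 22 / m) := by
        have := Real.add_one_le_exp (Real.log m / ((m : ℝ) + 2) + 10 ^ 22 / m)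
        linarith
      have h6 := pow_le_pow_left₀ hX0 h5 (m + 1)
      rw [← Real.exp_nat_mul] at h6
      refine h6.trans ?_
      have h7 : ((m + 1 : ℕ) : ℝ) * (Real.log m / ((m : ℝ) + 2) + 10 ^ 22 / m) ≤
          2 * 10 ^ 22 + Real.log ((m + 1 : ℕ) : ℝ) := by
        have h8 : ((m + 1 : ℕ) : ℝ) * (Real.log m / ((m : ℝ) + 2)) ≤ Real.log m := by
          rw [mul_div_assoc', div_le_iff₀ (by positivity)]
          push_cast
          nlinarith
        have h9 : ((m + 1 : ℕ) : ℝ) * (10 ^ 22 / (m : ℝ)) ≤ 2 * 10 ^ 22 := by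
          rw [mul_div_assoc', div_le_iff₀ hm0]
          push_cast
          nlinarith
        have h10 : Real.log m ≤ Real.log ((m + 1 : ℕ) : ℝ) :=
          Real.log_le_log hm0 (by push_cast; linarith)
        rw [mul_add]
        linarith
      calc _ ≤ Real.exp (2 * 10 ^ 22 + Real.log ((m + 1 : ℕ) : ℝ)) := Real.exp_le_exp.2 h7
        _ = _ := by rw [Real.exp_add, Real.exp_log hn0]
    refine (F3_upper hn).trans ?_
    unfold Low
    rw [← hVd]
    set a : ℝ := (3 * V / (((m + 1 : ℕ) : ℝ) + 2) / ((m + 1 : ℕ) : ℝ)) ^ (m + 1) with ha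
    have ha0 : 0 ≤ a := by positivity
    have h5 : ((∫ r in closedBall (0 : E3) 1, w (m + 1 - 1) r) / ((m + 1 : ℕ) : ℝ)) ^ (m + 1) ≤
        a * (Real.exp (2 * 10 ^ 22) * ((m + 1 : ℕ) : ℝ)) :=
      h3.trans (mul_le_mul_of_nonneg_left h4 ha0)
    have h6 := mul_le_mul_of_nonneg_left h5
      (show (0 : ℝ) ≤ ((m + 1).factorial : ℝ) by positivity)
    have h7 := mul_le_mul_of_nonneg_left h6 hB.le
    refine h7.trans (le_of_eq ?_)
    ring
  · have : n = 1 := by omega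
    subst this
    have h1 := (F3_two_sided (n := 1) le_rfl).2
    have h2 : Real.exp (CC * (1 + Real.log ((1 : ℕ) : ℝ))) ≤ Real.exp (2 * 10 ^ 22) * ((1 : ℕ) : ℝ) := by
      rw [Nat.cast_one, Real.log_one, mul_one]
      refine Real.exp_le_exp.2 ?_
      unfold CC
      norm_num
    exact h1.trans (mul_le_mul_of_nonneg_right h2 hL.le)

end Pool.Agent.H79.Ba
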