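import Pool.Agent.H79.Ba.S2

/-!
# Upper bound of the integral over the product of balls
-/

set_option autoImplicit false

open MeasureTheory Metric Set

namespace Pool.Agent.H79.Ba

noncomputable def F3 (n : ℕ) : ℝ := ∫ r in {r : Fin n → E3 | ∀ i, ‖r i‖ ≤ 1}, Q r

lemma set_eq (n : ℕ) : {r : Fin n → E3 | ∀ i, ‖r i‖ ≤ 1} =
    Set.univ.pi fun _ => closedBall (0 : E3) 1 := by
  ext r
  simp

lemma Q_integrableOn (n : ℕ) :
    IntegrableOn (fun r : Fin n → E3 => Q r) {r : Fin n → E3 | ∀ i, ‖r i‖ ≤ 1} := by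
  rw [set_eq]
  exact Q_continuous.continuousOn.integrableOn_compact
    (isCompact_univ_pi fun _ => isCompact_closedBall 0 1)

lemma radial_one {a : ℝ} (ha : 0 < a) :
    ∫ y in Ioi (0 : ℝ), y ^ 2 • (Set.Iic (1 : ℝ)).indicator (fun y => Real.exp (-(a * (1 - y)))) y
      ≤ 1 / a := by
  have h1 : ∫ y in Ioi (0 : ℝ), y ^ 2 • (Set.Iic (1 : ℝ)).indicator
      (fun y => Real.exp (-(a * (1 - y)))) y =
      ∫ y in Ioc (0 : ℝ) 1, y ^ 2 * Real.exp (-(a * (1 - y))) := by
    rw [← integral_indicator measurableSet_Ioi, ← integral_indicator measurableSet_Ioc]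
    congr 1
    funext y
    by_cases h1 : 0 < y <;> by_cases h2 : y ≤ 1 <;> simp [Set.indicator, h1, h2]
  rw [h1]
  have h2 : ∫ y in Ioc (0 : ℝ) 1, y ^ 2 * Real.exp (-(a * (1 - y))) ≤
      ∫ y in Ioc (0 : ℝ) 1, Real.exp (-(a * (1 - y))) := by
    refine setIntegral_mono_on ?_ ?_ measurableSet_Ioc fun y hy => ?_
    · exact (Continuous.integrableOn_Icc (by fun_prop)).mono_set Ioc_subset_Icc_self
    · exact (Continuous.integrableOn_Icc (by fun_prop)).mono_set Ioc_subset_Icc_self
    · have : y ^ 2 ≤ 1 := by nlinarith [hy.1, hy.2]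
      calc _ ≤ 1 * Real.exp (-(a * (1 - y))) :=
            mul_le_mul_of_nonneg_right this (Real.exp_pos _).le
        _ = _ := one_mul _
  refine h2.trans ?_
  rw [← intervalIntegral.integral_of_le (by norm_num : (0 : ℝ) ≤ 1)]
  have h3 : ∀ y ∈ Set.uIcc (0 : ℝ) 1, HasDerivAt (fun y => Real.exp (-(a * (1 - y))) / a)
      (Real.exp (-(a * (1 - y)))) y := by
    intro y _
    have h4 : HasDerivAt (fun y : ℝ => -(a * (1 - y))) a y := by
      have h5 : HasDerivAt (fun y : ℝ => -(a * (1 - y))) _ y :=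
        (((hasDerivAt_id y).const_sub 1).const_mul a).neg
      exact h5.congr_deriv (by ring)
    have h6 := h4.exp.div_const a
    exact h6.congr_deriv (by field_simp)
  rw [intervalIntegral.integral_eq_sub_of_hasDerivAt h3
    ((Continuous.intervalIntegrable (by fun_prop) _ _))]
  have h7 : 0 < Real.exp (-(a * (1 - 0))) / a := by positivity
  have h8 : Real.exp (-(a * (1 - 1))) / a = 1 / a := by simp
  rw [h8]
  linarith

lemma radial_bound {a : ℝ} (ha : 0 < a) :
    ∫ x in closedBall (0 : E3) 1, Real.exp (-(a * (1 - ‖x‖ ^ 2))) ≤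
      3 * volume.real (ball (0 : E3) 1) / a := by
  have h1 : ∫ x in closedBall (0 : E3) 1, Real.exp (-(a * (1 - ‖x‖ ^ 2))) ≤
      ∫ x in closedBall (0 : E3) 1, Real.exp (-(a * (1 - ‖x‖))) := by
    refine setIntegral_mono_on ?_ ?_ measurableSet_closedBall fun x hx => ?_
    · exact (Continuous.continuousOn (by fun_prop)).integrableOn_compact (isCompact_closedBall 0 1)
    · exact (Continuous.continuousOn (by fun_prop)).integrableOn_compact (isCompact_closedBall 0 1)
    · refine Real.exp_le_exp.2 ?_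
      have h2 : ‖x‖ ≤ 1 := by simpa using hx
      have h3 := norm_nonneg x
      have h4 : ‖x‖ ^ 2 ≤ ‖x‖ := by nlinarith
      nlinarith
  have h2 : ∫ x in closedBall (0 : E3) 1, Real.exp (-(a * (1 - ‖x‖))) =
      ∫ x : E3, (Set.Iic (1 : ℝ)).indicator (fun y => Real.exp (-(a * (1 - y)))) ‖x‖ := by
    rw [← integral_indicator measurableSet_closedBall]
    congr 1
    funext x
    by_cases h : ‖x‖ ≤ 1 <;> simp [Set.indicator, h]
  rw [h2, integral_fun_norm_addHaar] at h1
  refine h1.trans ?_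
  have h3 : Module.finrank ℝ E3 = 3 := by simp
  rw [h3, nsmul_eq_mul, smul_eq_mul]
  have h4 := radial_one ha
  have h5 : 0 ≤ volume.real (ball (0 : E3) 1) := measureReal_nonneg
  calc _ ≤ ((3 : ℕ) : ℝ) * (volume.real (ball (0 : E3) 1) * (1 / a)) := by
        refine mul_le_mul_of_nonneg_left (mul_le_mul_of_nonneg_left h4 h5) (by norm_num)
    _ = _ := by push_cast; ring

lemma vol_ball_pos : 0 < volume.real (ball (0 : E3) 1) :=
  ENNReal.toReal_pos (measure_ball_pos _ _ one_pos).ne' measure_ball_lt_top.ne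

lemma ball_bound {n : ℕ} (hn : 1 ≤ n) :
    ∫ x in closedBall (0 : E3) 1, Real.exp (-((((n : ℝ) - 1) / 13) * (1 - ‖x‖ ^ 2))) ≤
      78 * volume.real (ball (0 : E3) 1) / n := by
  have hv := vol_ball_pos
  rcases Nat.lt_or_ge 1 n with hn2 | hn2
  · have hn1 : (2 : ℝ) ≤ n := by exact_mod_cast hn2
    have ha : 0 < ((n : ℝ) - 1) / 13 := by linarith
    refine (radial_bound ha).trans ?_
    rw [div_le_div_iff₀ ha (by linarith)]
    nlinarith
  · have : n = 1 := by omega
    subst this
    simp only [Nat.cast_one, sub_self, zero_div, zero_mul, neg_zero, Real.exp_zero, div_one]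
    rw [setIntegral_const, smul_eq_mul, mul_one]
    have h1 : volume.real (closedBall (0 : E3) 1) = volume.real (ball (0 : E3) 1) := by
      unfold Measure.real
      rw [Measure.addHaar_closedBall_eq_addHaar_ball]
    rw [h1]
    linarith

/-- the upper bound -/
theorem F3_le {n : ℕ} (hn : 1 ≤ n) :
    F3 n ≤ Bn n * (78 * volume.real (ball (0 : E3) 1) / n) ^ n := by
  set a : ℝ := ((n : ℝ) - 1) / 13 with ha
  have h1 : F3 n ≤ ∫ r in {r : Fin n → E3 | ∀ i, ‖r i‖ ≤ 1},
      Bn n * ∏ i, Real.exp (-(a * (1 - ‖r i‖ ^ 2))) := by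
    unfold F3
    refine setIntegral_mono_on (Q_integrableOn n) ?_ ?_ fun r hr => ?_
    · rw [set_eq]
      exact (Continuous.continuousOn (by fun_prop)).integrableOn_compact
        (isCompact_univ_pi fun _ => isCompact_closedBall 0 1)
    · rw [set_eq]
      exact MeasurableSet.univ_pi fun _ => measurableSet_closedBall
    · have h2 := Q_ball_le hn r hr
      rw [← ha] at h2
      rw [← Real.exp_sum, Finset.sum_neg_distrib, ← Finset.mul_sum, Real.exp_neg,
        ← div_eq_mul_inv, le_div_iff₀ (Real.exp_pos _)]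
      exact h2
  refine h1.trans ?_
  rw [integral_const_mul, set_eq, volume_pi, Measure.restrict_pi_pi,
    integral_fintype_prod_eq_prod (fun _ (x : E3) => Real.exp (-(a * (1 - ‖x‖ ^ 2)))),
    Finset.prod_const, Finset.card_univ, Fintype.card_fin]
  refine mul_le_mul_of_nonneg_left ?_ (Bn_pos n).le
  refine pow_le_pow_left₀ (integral_nonneg fun _ => (Real.exp_pos _).le) ?_ n
  exact ball_bound hn

end Pool.Agent.H79.Ba
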