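import Pool.Agent.H79.Ba.S3

/-!
# The monomials in the spinors on the ball: orthogonality and norms
-/

set_option autoImplicit false

open MeasureTheory Metric Set

namespace Pool.Agent.H79.Ba

lemma ph_zero (z : ℂ) : ph 0 z = z / (‖z‖ : ℂ) := by
  unfold ph
  split_ifs with h
  · simp [h]
  · rfl

/-- monomials -/
noncomputable def fm (N k : ℕ) (x : E3) : ℂ := sv 0 x ^ k * (su x : ℂ) ^ (N - k)

lemma ze_eq (x : E3) : ze x = (x 0 : ℂ) + (x 1 : ℂ) * Complex.I := by
  apply Complex.ext <;> simp [ze]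

lemma su_meas : Measurable (fun x : E3 => su x) := by
  unfold su
  exact Continuous.measurable (by fun_prop)

lemma ze_meas : Measurable (fun x : E3 => ze x) := by
  simp_rw [ze_eq]
  exact Continuous.measurable (by fun_prop)

lemma sv_meas : Measurable (fun x : E3 => sv 0 x) := by
  unfold sv
  simp_rw [ph_zero]
  have h1 : Measurable (fun x : E3 => (sw x : ℂ)) := by
    unfold sw
    exact Continuous.measurable (by fun_prop)
  have h2 := ze_meas
  exact h1.mul (h2.div (Complex.measurable_ofReal.comp h2.norm))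

lemma fm_meas (N k : ℕ) : Measurable (fun x : E3 => fm N k x) := by
  unfold fm
  exact (sv_meas.pow_const k).mul ((Complex.measurable_ofReal.comp su_meas).pow_const (N - k))

lemma fm_bound (N k : ℕ) (x : E3) (hx : ‖x‖ ≤ 1) : ‖fm N k x‖ ≤ 1 := by
  unfold fm
  rw [norm_mul, norm_pow, norm_pow, Complex.norm_real, Real.norm_of_nonneg (su_nonneg x)]
  have h := abs_le.1 (abs_le_norm x)
  have h1 : ‖sv 0 x‖ ≤ 1 := by
    have := sv_sq_le 0 (by simp) x
    have h2 := norm_nonneg (sv 0 x)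
    by_contra h3
    push Not at h3
    nlinarith [h.1, h.2]
  have h2 : su x ≤ 1 := by
    have := su_sq x
    have h2 := su_nonneg x
    by_contra h3
    push Not at h3
    nlinarith [h.1, h.2]
  calc _ ≤ (1 : ℝ) ^ k * 1 ^ (N - k) := by
        refine mul_le_mul (pow_le_pow_left₀ (norm_nonneg _) h1 k)
          (pow_le_pow_left₀ (su_nonneg _) h2 _) (pow_nonneg (su_nonneg _) _) (by positivity)
    _ = 1 := by simp

noncomputable def hk (N k : ℕ) : ℝ := ∫ x in closedBall (0 : E3) 1, ‖fm N k x‖ ^ 2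

noncomputable def J (N k l : ℕ) : ℂ :=
  ∫ x in closedBall (0 : E3) 1, fm N k x * (starRingEnd ℂ) (fm N l x)

lemma J_self (N k : ℕ) : J N k k = (hk N k : ℂ) := by
  unfold J hk
  rw [← integral_complex_ofReal]
  congr 1
  funext x
  rw [Complex.mul_conj, Complex.normSq_eq_norm_sq]

lemma int_prod (N k l : ℕ) : Integrable (fun x => fm N k x * (starRingEnd ℂ) (fm N l x))
    (volume.restrict (closedBall (0 : E3) 1)) := by
  have : IsFiniteMeasure (volume.restrict (closedBall (0 : E3) 1)) :=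
    ⟨by rw [Measure.restrict_apply_univ]; exact measure_closedBall_lt_top⟩
  refine Integrable.of_bound ?_ 1 ?_
  · exact ((fm_meas N k).mul (Complex.continuous_conj.measurable.comp
      (fm_meas N l))).aestronglyMeasurable
  · refine (ae_restrict_iff' measurableSet_closedBall).2 (Filter.Eventually.of_forall fun x hx => ?_)
    have hx' : ‖x‖ ≤ 1 := by simpa using hx
    rw [norm_mul, Complex.norm_conj]
    have h1 := fm_bound N k x hx'
    have h2 := fm_bound N l x hx'
    have h3 := norm_nonneg (fm N k x)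
    have h4 := norm_nonneg (fm N l x)
    nlinarith

lemma integral_comp_isometry {F : Type*} [NormedAddCommGroup F] [NormedSpace ℝ F]
    (L : E3 →ₗᵢ[ℝ] E3) (g : E3 → F) :
    ∫ x in closedBall (0 : E3) 1, g (L x) = ∫ x in closedBall (0 : E3) 1, g x := by
  set e := L.toLinearIsometryEquiv rfl with he
  have h := e.measurePreserving.setIntegral_preimage_emb e.toHomeomorph.measurableEmbedding g
    (closedBall 0 1)
  have h2 : e ⁻¹' closedBall 0 1 = closedBall 0 1 := by
    ext x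
    simp
  rw [h2] at h
  exact h

/-- rotation about the axis -/
noncomputable def rotz (c s : ℝ) (h : c ^ 2 + s ^ 2 = 1) : E3 →ₗᵢ[ℝ] E3 where
  toFun := fun x => !₂[c * x 0 - s * x 1, s * x 0 + c * x 1, x 2]
  map_add' := by
    intro x y
    ext i
    fin_cases i <;> simp <;> ring
  map_smul' := by
    intro t x
    ext i
    fin_cases i <;> simp <;> ring
  norm_map' := by
    intro x
    have h1 : ∀ y : E3, ‖y‖ = √(y 0 ^ 2 + y 1 ^ 2 + y 2 ^ 2) := by
      intro y
      rw [← norm_sq_E3, Real.sqrt_sq (norm_nonneg _)]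
    rw [h1, h1]
    congr 1
    simp
    linear_combination (x 0 ^ 2 + x 1 ^ 2) * h

/-- reflection in a plane through the second axis -/
noncomputable def refl (c s : ℝ) (h : c ^ 2 + s ^ 2 = 1) : E3 →ₗᵢ[ℝ] E3 where
  toFun := fun x => !₂[- c * x 0 + s * x 2, x 1, s * x 0 + c * x 2]
  map_add' := by
    intro x y
    ext i
    fin_cases i <;> simp <;> ring
  map_smul' := by
    intro t x
    ext i
    fin_cases i <;> simp <;> ring
  norm_map' := by
    intro x
    have h1 : ∀ y : E3, ‖y‖ = √(y 0 ^ 2 + y 1 ^ 2 + y 2 ^ 2) := by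
      intro y
      rw [← norm_sq_E3, Real.sqrt_sq (norm_nonneg _)]
    rw [h1, h1]
    congr 1
    simp
    linear_combination (x 0 ^ 2 + x 2 ^ 2) * h

lemma ze_rotz (c s : ℝ) (h : c ^ 2 + s ^ 2 = 1) (x : E3) :
    ze (rotz c s h x) = (⟨c, s⟩ : ℂ) * ze x := by
  apply Complex.ext <;> simp [ze, rotz] <;> ring

lemma su_rotz (c s : ℝ) (h : c ^ 2 + s ^ 2 = 1) (x : E3) : su (rotz c s h x) = su x := by
  unfold su
  rw [LinearIsometry.norm_map]
  simp [rotz]

lemma sw_rotz (c s : ℝ) (h : c ^ 2 + s ^ 2 = 1) (x : E3) : sw (rotz c s h x) = sw x := by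
  unfold sw
  rw [LinearIsometry.norm_map]
  simp [rotz]

lemma sv_rotz (c s : ℝ) (h : c ^ 2 + s ^ 2 = 1) (x : E3) :
    sv 0 (rotz c s h x) = (⟨c, s⟩ : ℂ) * sv 0 x := by
  unfold sv
  rw [sw_rotz, ph_zero, ph_zero, ze_rotz]
  have h1 : ‖(⟨c, s⟩ : ℂ)‖ = 1 := by
    have h2 : ‖(⟨c, s⟩ : ℂ)‖ ^ 2 = 1 := by
      rw [← Complex.normSq_eq_norm_sq, Complex.normSq_mk]
      linarith
    exact (pow_eq_one_iff_of_nonneg (norm_nonneg _) (by norm_num)).1 h2
  rw [norm_mul, h1, one_mul]
  ring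

lemma fm_rotz (c s : ℝ) (h : c ^ 2 + s ^ 2 = 1) (N k : ℕ) (x : E3) :
    fm N k (rotz c s h x) = (⟨c, s⟩ : ℂ) ^ k * fm N k x := by
  unfold fm
  rw [sv_rotz, su_rotz, mul_pow]
  ring

lemma J_rot (c s : ℝ) (h : c ^ 2 + s ^ 2 = 1) (N k l : ℕ) :
    J N k l = (⟨c, s⟩ : ℂ) ^ k * (starRingEnd ℂ) ((⟨c, s⟩ : ℂ) ^ l) * J N k l := by
  have h1 := integral_comp_isometry (rotz c s h)
    (fun x => fm N k x * (starRingEnd ℂ) (fm N l x))
  conv_lhs => unfold J
  rw [← h1]
  simp_rw [fm_rotz]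
  unfold J
  rw [← integral_const_mul]
  congr 1
  funext x
  rw [map_mul]
  ring

lemma J_ne (N k l : ℕ) (hkl : k ≠ l) : J N k l = 0 := by
  set θ : ℝ := Real.pi / ((k : ℝ) - l) with hθ
  have hne : (k : ℝ) - l ≠ 0 := by
    rw [sub_ne_zero]
    exact_mod_cast hkl
  have h := J_rot (Real.cos θ) (Real.sin θ) (by rw [add_comm]; exact Real.sin_sq_add_cos_sq θ) N k l
  have h1 : (⟨Real.cos θ, Real.sin θ⟩ : ℂ) = Complex.exp (θ * Complex.I) := by
    rw [Complex.exp_mul_I]
    apply Complex.ext <;> simp [← Complex.ofReal_cos, ← Complex.ofReal_sin]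
  rw [h1, map_pow, ← Complex.exp_conj, ← Complex.exp_nat_mul, ← Complex.exp_nat_mul,
    ← Complex.exp_add] at h
  have h2 : (k : ℂ) * (θ * Complex.I) + (l : ℂ) * (starRingEnd ℂ) (θ * Complex.I) =
      Real.pi * Complex.I := by
    rw [map_mul, Complex.conj_I, Complex.conj_ofReal, hθ]
    have : ((k : ℂ) - l) ≠ 0 := by exact_mod_cast hne
    push_cast
    field_simp
    ring
  rw [h2, Complex.exp_pi_mul_I] at h
  have h3 : (2 : ℂ) * J N k l = 0 := by linear_combination h
  simpa using h3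

end Pool.Agent.H79.Ba
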