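import Pool.Agent.H79.Ba.S4

/-!
# The norms of the monomials
-/

set_option autoImplicit false

open MeasureTheory Metric Set

namespace Pool.Agent.H79.Ba

lemma expand_left (N : ℕ) (β : ℝ) :
    ∫ x in closedBall (0 : E3) 1, (((β : ℂ) * sv 0 x + (su x : ℂ)) ^ N) *
      (starRingEnd ℂ) (((β : ℂ) * sv 0 x + (su x : ℂ)) ^ N) =
      ((∑ k ∈ Finset.range (N + 1), (N.choose k : ℝ) ^ 2 * hk N k * (β ^ 2) ^ k : ℝ) : ℂ) := by
  have h1 : ∀ x : E3, ((β : ℂ) * sv 0 x + (su x : ℂ)) ^ N =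
      ∑ k ∈ Finset.range (N + 1), ((β ^ k * N.choose k : ℝ) : ℂ) * fm N k x := by
    intro x
    rw [add_pow]
    refine Finset.sum_congr rfl fun k _ => ?_
    unfold fm
    push_cast
    ring
  have h2 : ∀ x : E3, (((β : ℂ) * sv 0 x + (su x : ℂ)) ^ N) *
      (starRingEnd ℂ) (((β : ℂ) * sv 0 x + (su x : ℂ)) ^ N) =
      ∑ k ∈ Finset.range (N + 1), ∑ l ∈ Finset.range (N + 1),
        ((β ^ k * N.choose k * (β ^ l * N.choose l) : ℝ) : ℂ) *
          (fm N k x * (starRingEnd ℂ) (fm N l x)) := by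
    intro x
    rw [h1 x, map_sum, Finset.sum_mul_sum]
    refine Finset.sum_congr rfl fun k _ => Finset.sum_congr rfl fun l _ => ?_
    rw [map_mul, Complex.conj_ofReal]
    push_cast
    ring
  simp_rw [h2]
  rw [integral_finsetSum, Complex.ofReal_sum]
  · refine Finset.sum_congr rfl fun k hk' => ?_
    rw [integral_finsetSum]
    · rw [Finset.sum_eq_single k]
      · rw [integral_const_mul]
        have h3 := J_self N k
        unfold J at h3
        rw [h3]
        push_cast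
        ring
      · intro l _ hl
        rw [integral_const_mul]
        have h3 := J_ne N k l hl.symm
        unfold J at h3
        rw [h3, mul_zero]
      · intro h
        exact absurd hk' h
    · intro l _
      exact (int_prod N k l).const_mul _
  · intro k _
    exact integrable_finsetSum _ fun l _ => (int_prod N k l).const_mul _

lemma ae_ze : ∀ᵐ x : E3, ze x ≠ 0 := by
  set S : Submodule ℝ E3 := LinearMap.ker (EuclideanSpace.proj (0 : Fin 3) : E3 →L[ℝ] ℝ).toLinearMap
    with hS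
  have hne : S ≠ ⊤ := by
    intro h
    have h1 : EuclideanSpace.single (0 : Fin 3) (1 : ℝ) ∈ S := by rw [h]; trivial
    rw [hS, LinearMap.mem_ker] at h1
    simp at h1
  have h0 := Measure.addHaar_submodule (volume : Measure E3) S hne
  refine measure_mono_null (fun x hx => ?_) h0
  simp only [ne_eq, Set.mem_compl_iff, Set.mem_ofPred_eq, not_not] at hx
  have h1 : (ze x).re = 0 := by rw [hx]; rfl
  show x ∈ S
  rw [hS, LinearMap.mem_ker]
  simpa [ze] using h1

lemma norm_sq_comb (β : ℝ) (x : E3) (hx : ze x ≠ 0) :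
    ‖(β : ℂ) * sv 0 x + (su x : ℂ)‖ ^ 2 = (‖x‖ + x 2) / 2 + β ^ 2 * ((‖x‖ - x 2) / 2) + β * x 0 := by
  have h1 : ‖sv 0 x‖ ^ 2 = (‖x‖ - x 2) / 2 := by
    unfold sv
    rw [norm_mul, Complex.norm_real, Real.norm_of_nonneg (sw_nonneg x), mul_pow, sw_sq, ph_zero,
      norm_div, Complex.norm_real, norm_norm, div_self (norm_ne_zero_iff.2 hx)]
    ring
  have h2 : 2 * (su x * (sv 0 x).re) = x 0 := by
    have h3 := congrArg Complex.re (su_mul_sv 0 x)
    rw [show (2 : ℂ) = ((2 : ℝ) : ℂ) by norm_num, Complex.re_ofReal_mul, Complex.re_ofReal_mul] at h3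
    simpa [ze] using h3
  have h3 : ‖(β : ℂ) * sv 0 x + (su x : ℂ)‖ ^ 2 =
      β ^ 2 * ‖sv 0 x‖ ^ 2 + su x ^ 2 + β * (2 * (su x * (sv 0 x).re)) := by
    rw [← Complex.normSq_eq_norm_sq, ← Complex.normSq_eq_norm_sq, Complex.normSq_apply,
      Complex.normSq_apply]
    simp
    ring
  rw [h3, h1, h2, su_sq]
  ring

lemma fm_zero (N : ℕ) (x : E3) : ‖fm N 0 x‖ ^ 2 = (su x ^ 2) ^ N := by
  unfold fm
  rw [pow_zero, one_mul, Nat.sub_zero, norm_pow, Complex.norm_real,
    Real.norm_of_nonneg (su_nonneg x)]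
  ring

lemma expand_right (N : ℕ) (β : ℝ) :
    ∫ x in closedBall (0 : E3) 1, (((β : ℂ) * sv 0 x + (su x : ℂ)) ^ N) *
      (starRingEnd ℂ) (((β : ℂ) * sv 0 x + (su x : ℂ)) ^ N) =
      (((1 + β ^ 2) ^ N * hk N 0 : ℝ) : ℂ) := by
  have hb : (0 : ℝ) < 1 + β ^ 2 := by positivity
  set c : ℝ := (1 - β ^ 2) / (1 + β ^ 2) with hc
  set s : ℝ := 2 * β / (1 + β ^ 2) with hs
  have hcs : c ^ 2 + s ^ 2 = 1 := by
    rw [hc, hs]
    field_simp
    ring
  have h1 : ∫ x in closedBall (0 : E3) 1, (((β : ℂ) * sv 0 x + (su x : ℂ)) ^ N) *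
      (starRingEnd ℂ) (((β : ℂ) * sv 0 x + (su x : ℂ)) ^ N) =
      ∫ x in closedBall (0 : E3) 1, (((1 + β ^ 2) ^ N * (su (refl c s hcs x) ^ 2) ^ N : ℝ) : ℂ) := by
    refine integral_congr_ae (ae_restrict_of_ae ?_)
    filter_upwards [ae_ze] with x hx
    rw [Complex.mul_conj, Complex.normSq_eq_norm_sq, norm_pow, ← pow_mul, mul_comm N 2, pow_mul,
      norm_sq_comb β x hx, ← mul_pow]
    congr 2
    rw [su_sq, LinearIsometry.norm_map]
    have : (refl c s hcs x) 2 = s * x 0 + c * x 2 := by simp [refl]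
    rw [this, hc, hs]
    field_simp
    ring
  rw [h1, integral_complex_ofReal, integral_const_mul,
    integral_comp_isometry (refl c s hcs) (fun x => (su x ^ 2) ^ N)]
  unfold hk
  simp_rw [fm_zero]

lemma choose_mul_hk {N k : ℕ} (hk' : k ≤ N) : (N.choose k : ℝ) * hk N k = hk N 0 := by
  have h1 : ∀ β : ℝ, ∑ k ∈ Finset.range (N + 1), (N.choose k : ℝ) ^ 2 * hk N k * (β ^ 2) ^ k =
      (1 + β ^ 2) ^ N * hk N 0 := by
    intro β
    have := (expand_left N β).symm.trans (expand_right N β)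
    exact_mod_cast this
  set P : Polynomial ℝ := ∑ k ∈ Finset.range (N + 1),
    Polynomial.C ((N.choose k : ℝ) ^ 2 * hk N k) * Polynomial.X ^ k with hP
  set R : Polynomial ℝ := Polynomial.C (hk N 0) * (1 + Polynomial.X) ^ N with hR
  have hPR : P = R := by
    refine Polynomial.eq_of_infinite_eval_eq P R ((Set.Ici_infinite (0 : ℝ)).mono fun y hy => ?_)
    have h2 := h1 (√y)
    rw [Real.sq_sqrt hy] at h2
    show P.eval y = R.eval y
    rw [hP, hR, Polynomial.eval_finsetSum]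
    simp only [Polynomial.eval_mul, Polynomial.eval_C, Polynomial.eval_pow, Polynomial.eval_X,
      Polynomial.eval_add, Polynomial.eval_one]
    rw [h2]
    ring
  have h3 := congrArg (fun p => Polynomial.coeff p k) hPR
  simp only [hP, hR, Polynomial.finsetSum_coeff, Polynomial.coeff_C_mul,
    Polynomial.coeff_one_add_X_pow, Polynomial.coeff_X_pow] at h3
  rw [Finset.sum_eq_single k] at h3
  · simp only [if_true, mul_one] at h3
    have h4 : (0 : ℝ) < N.choose k := by exact_mod_cast Nat.choose_pos hk'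
    have h5 : (N.choose k : ℝ) * ((N.choose k : ℝ) * hk N k) = (N.choose k : ℝ) * hk N 0 := by
      linear_combination h3
    exact mul_left_cancel₀ h4.ne' h5
  · intro l _ hl
    rw [if_neg hl.symm, mul_zero]
  · intro h
    exact absurd (Finset.mem_range.2 (by omega)) h

end Pool.Agent.H79.Ba
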