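import Pool.Agent.H79.Ba.S5

/-!
# Lower bound of the integral over the product of balls
-/

set_option autoImplicit false

open MeasureTheory Metric Set

namespace Pool.Agent.H79.Ba

lemma Mt_apply {n : ℕ} (r : Fin n → E3) (i j : Fin n) : Mt 0 r i j = fm (n - 1) j (r i) := by
  unfold Mt fm
  rw [Matrix.projVandermonde_apply, Fin.val_rev, show n - ((j : ℕ) + 1) = n - 1 - j by omega]

lemma det_expand {n : ℕ} (r : Fin n → E3) : (Mt 0 r).det =
    ∑ σ : Equiv.Perm (Fin n), (((Equiv.Perm.sign σ : ℤ) : ℝ) : ℂ) * ∏ i, fm (n - 1) (σ i) (r i) := by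
  rw [← Matrix.det_transpose, Matrix.det_apply']
  refine Finset.sum_congr rfl fun σ _ => ?_
  simp_rw [Matrix.transpose_apply, Mt_apply]
  push_cast
  rfl

lemma norm_det_expand {n : ℕ} (r : Fin n → E3) : ((‖(Mt 0 r).det‖ ^ 2 : ℝ) : ℂ) =
    ∑ σ : Equiv.Perm (Fin n), ∑ τ : Equiv.Perm (Fin n),
      ((((Equiv.Perm.sign σ : ℤ) : ℝ) * ((Equiv.Perm.sign τ : ℤ) : ℝ) : ℝ) : ℂ) *
        ∏ i, (fm (n - 1) (σ i) (r i) * (starRingEnd ℂ) (fm (n - 1) (τ i) (r i))) := by
  rw [← Complex.normSq_eq_norm_sq, ← Complex.mul_conj, det_expand, map_sum, Finset.sum_mul_sum]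
  refine Finset.sum_congr rfl fun σ _ => Finset.sum_congr rfl fun τ _ => ?_
  rw [map_mul, Complex.conj_ofReal, map_prod, Finset.prod_mul_distrib]
  push_cast
  ring

lemma andreief (n : ℕ) :
    ∫ r in {r : Fin n → E3 | ∀ i, ‖r i‖ ≤ 1}, ‖(Mt 0 r).det‖ ^ 2 =
      (n.factorial : ℝ) * ∏ k : Fin n, hk (n - 1) k := by
  have key : ((∫ r in {r : Fin n → E3 | ∀ i, ‖r i‖ ≤ 1}, ‖(Mt 0 r).det‖ ^ 2 : ℝ) : ℂ) =
      (((n.factorial : ℝ) * ∏ k : Fin n, hk (n - 1) k : ℝ) : ℂ) := by
    rw [← integral_complex_ofReal]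
    simp_rw [norm_det_expand]
    rw [set_eq, volume_pi, Measure.restrict_pi_pi]
    have hint : ∀ σ τ : Equiv.Perm (Fin n), Integrable (fun r : Fin n → E3 =>
        ∏ i, (fm (n - 1) (σ i) (r i) * (starRingEnd ℂ) (fm (n - 1) (τ i) (r i))))
        (Measure.pi fun _ => volume.restrict (closedBall (0 : E3) 1)) := by
      intro σ τ
      exact Integrable.fintype_prod
        (f := fun i x => fm (n - 1) (σ i) x * (starRingEnd ℂ) (fm (n - 1) (τ i) x))
        (fun i => int_prod (n - 1) (σ i) (τ i))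
    rw [integral_finsetSum]
    · have hσ : ∀ σ : Equiv.Perm (Fin n), ∫ r : Fin n → E3, ∑ τ : Equiv.Perm (Fin n),
          ((((Equiv.Perm.sign σ : ℤ) : ℝ) * ((Equiv.Perm.sign τ : ℤ) : ℝ) : ℝ) : ℂ) *
          ∏ i, (fm (n - 1) (σ i) (r i) * (starRingEnd ℂ) (fm (n - 1) (τ i) (r i)))
          ∂(Measure.pi fun _ => volume.restrict (closedBall (0 : E3) 1)) =
          ((∏ k : Fin n, hk (n - 1) k : ℝ) : ℂ) := by
        intro σ
        rw [integral_finsetSum]
        · rw [Finset.sum_eq_single σ]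
          · rw [integral_const_mul, integral_fintype_prod_eq_prod
              (fun i x => fm (n - 1) (σ i) x * (starRingEnd ℂ) (fm (n - 1) (σ i) x))]
            have h1 : ∀ i, ∫ x in closedBall (0 : E3) 1, fm (n - 1) (σ i) x *
                (starRingEnd ℂ) (fm (n - 1) (σ i) x) = (hk (n - 1) (σ i) : ℂ) :=
              fun i => J_self (n - 1) (σ i)
            simp_rw [h1]
            rw [Equiv.prod_comp σ (fun k : Fin n => (hk (n - 1) k : ℂ))]
            have h2 : (((Equiv.Perm.sign σ : ℤ) : ℝ) * ((Equiv.Perm.sign σ : ℤ) : ℝ)) = 1 := by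
              rcases Int.units_eq_one_or (Equiv.Perm.sign σ) with h | h <;> rw [h] <;> simp
            rw [h2]
            push_cast
            ring
          · intro τ _ hτ
            rw [integral_const_mul, integral_fintype_prod_eq_prod
              (fun i x => fm (n - 1) (σ i) x * (starRingEnd ℂ) (fm (n - 1) (τ i) x))]
            have h1 : ∃ i, σ i ≠ τ i := by
              by_contra h
              push Not at h
              exact hτ (Equiv.ext fun i => (h i).symm)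
            obtain ⟨i, hi⟩ := h1
            have h2 : ∫ x in closedBall (0 : E3) 1, fm (n - 1) (σ i) x *
                (starRingEnd ℂ) (fm (n - 1) (τ i) x) = 0 :=
              J_ne (n - 1) (σ i) (τ i) (fun h => hi (Fin.ext h))
            rw [Finset.prod_eq_zero (Finset.mem_univ i) h2, mul_zero]
          · intro h
            exact absurd (Finset.mem_univ _) h
        · intro τ _
          exact (hint σ τ).const_mul _
      simp_rw [hσ]
      rw [Finset.sum_const, Finset.card_univ, Fintype.card_perm, Fintype.card_fin, nsmul_eq_mul]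
      push_cast
      ring
    · intro σ _
      exact integrable_finsetSum _ fun τ _ => (hint σ τ).const_mul _
  exact_mod_cast key

lemma hk_nonneg (N k : ℕ) : 0 ≤ hk N k := integral_nonneg fun _ => by positivity

/-- lower bound in terms of `hk` -/
lemma F3_ge (n : ℕ) : Bn n * ((n.factorial : ℝ) * hk (n - 1) 0 ^ n) ≤ F3 n := by
  have h1 : ∫ r in {r : Fin n → E3 | ∀ i, ‖r i‖ ≤ 1}, 2 ^ (n * (n - 1)) * ‖(Mt 0 r).det‖ ^ 2 ≤
      F3 n := by
    unfold F3
    refine integral_mono_of_nonneg (Filter.Eventually.of_forall fun r => by positivity)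
      (Q_integrableOn n) (Filter.Eventually.of_forall fun r => Q_ge 0 (by simp) r)
  rw [integral_const_mul, andreief] at h1
  refine le_trans (le_of_eq ?_) h1
  have h2 : (∏ k : Fin n, ((n - 1).choose k : ℝ)) * ∏ k : Fin n, hk (n - 1) k = hk (n - 1) 0 ^ n := by
    rw [← Finset.prod_mul_distrib]
    have : ∀ k : Fin n, ((n - 1).choose k : ℝ) * hk (n - 1) k = hk (n - 1) 0 := by
      intro k
      exact choose_mul_hk (by omega)
    simp_rw [this]
    simp
  have h3 := prod_choose_pos n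
  unfold Bn
  rw [← h2]
  field_simp

lemma vol_box (a b : Fin 3 → ℝ) (h : a ≤ b) :
    volume.real {x : E3 | ∀ i, a i ≤ x i ∧ x i ≤ b i} = ∏ i, (b i - a i) := by
  have h1 : {x : E3 | ∀ i, a i ≤ x i ∧ x i ≤ b i} = (fun x : E3 => x.ofLp) ⁻¹' (Set.Icc a b) := by
    ext x
    simp [Set.mem_Icc, Pi.le_def, forall_and]
  rw [h1]
  unfold Measure.real
  rw [(PiLp.volume_preserving_ofLp (Fin 3)).measure_preimage measurableSet_Icc.nullMeasurableSet]
  exact Real.volume_Icc_pi_toReal h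

lemma pow_bound {n : ℕ} (hn : 1 ≤ n) : Real.exp (-1) ≤ (1 - 1 / (n : ℝ)) ^ (n - 1) := by
  rcases Nat.lt_or_ge 1 n with h | h
  · have hn1 : (1 : ℝ) < n := by exact_mod_cast h
    have h0 : (0 : ℝ) < (n : ℝ) - 1 := by linarith
    have h1 : 1 - 1 / (n : ℝ) = (1 + 1 / ((n : ℝ) - 1))⁻¹ := by
      have : (n : ℝ) - 1 ≠ 0 := h0.ne'
      field_simp
      ring
    have h2 : 1 + 1 / ((n : ℝ) - 1) ≤ Real.exp (1 / ((n : ℝ) - 1)) := by
      have := Real.add_one_le_exp (1 / ((n : ℝ) - 1))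
      linarith
    have h3 : (1 + 1 / ((n : ℝ) - 1)) ^ (n - 1) ≤ Real.exp 1 := by
      calc _ ≤ Real.exp (1 / ((n : ℝ) - 1)) ^ (n - 1) :=
            pow_le_pow_left₀ (by positivity) h2 _
        _ = Real.exp 1 := by
            rw [← Real.exp_nat_mul, Nat.cast_sub hn]
            congr 1
            push_cast
            field_simp
    rw [h1, inv_pow, Real.exp_neg]
    exact inv_anti₀ (by positivity) h3
  · have : n = 1 := by omega
    subst this
    simp

lemma hk_lower {n : ℕ} (hn : 1 ≤ n) : Real.exp (-1) / (2 * (n : ℝ) ^ 2) ≤ hk (n - 1) 0 := by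
  have hn0 : (0 : ℝ) < n := by exact_mod_cast hn
  have hn1 : (1 : ℝ) ≤ n := by exact_mod_cast hn
  set δ : ℝ := 1 / (2 * √n) with hδ
  have hsq : 0 < √(n : ℝ) := Real.sqrt_pos.2 hn0
  have hδ0 : 0 < δ := by positivity
  have hδ2 : δ ^ 2 = 1 / (4 * n) := by
    rw [hδ, div_pow, mul_pow, Real.sq_sqrt hn0.le]
    norm_num
  set a : Fin 3 → ℝ := ![-δ, -δ, 1 - 1 / n] with ha
  set b : Fin 3 → ℝ := ![δ, δ, 1 - 1 / (2 * n)] with hb
  have hinv : 1 / (2 * (n : ℝ)) ≤ 1 / n := by
    rw [div_le_div_iff₀ (by positivity) hn0]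
    linarith
  have hinv1 : 1 / (n : ℝ) ≤ 1 := by
    rw [div_le_one hn0]
    exact hn1
  have hinv0 : 0 < 1 / (n : ℝ) := by positivity
  have hab : a ≤ b := by
    intro i
    fin_cases i
    · simp [ha, hb]; linarith
    · simp [ha, hb]; linarith
    · simp only [ha, hb, Fin.reduceFinMk, Matrix.cons_val]
      linarith
  set S : Set E3 := {x : E3 | ∀ i, a i ≤ x i ∧ x i ≤ b i} with hS
  have hvol : volume.real S = 1 / (2 * (n : ℝ) ^ 2) := by
    rw [hS, vol_box a b hab, Fin.prod_univ_three]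
    simp only [ha, hb, Matrix.cons_val]
    have : (δ - -δ) * (δ - -δ) * (1 - 1 / (2 * (n : ℝ)) - (1 - 1 / n)) =
      4 * δ ^ 2 * (1 / n - 1 / (2 * n)) := by ring
    rw [this, hδ2]
    field_simp
    ring
  have hSm : MeasurableSet S := by
    have : S = (fun x : E3 => x.ofLp) ⁻¹' (Set.Icc a b) := by
      ext x
      simp [hS, Set.mem_Icc, Pi.le_def, forall_and]
    rw [this]
    exact (PiLp.volume_preserving_ofLp (Fin 3)).measurable measurableSet_Icc
  have hmem : ∀ x ∈ S, |x 0| ≤ δ ∧ |x 1| ≤ δ ∧ 1 - 1 / (n : ℝ) ≤ x 2 ∧ x 2 ≤ 1 - 1 / (2 * n) := by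
    intro x hx
    have h0 := hx 0
    have h1 := hx 1
    have h2 := hx 2
    simp only [ha, hb, Matrix.cons_val] at h0 h1 h2
    exact ⟨abs_le.2 h0, abs_le.2 h1, h2⟩
  have hSB : S ⊆ closedBall (0 : E3) 1 := by
    intro x hx
    obtain ⟨h0, h1, h2, h3⟩ := hmem x hx
    rw [mem_closedBall_zero_iff]
    have h4 := norm_sq_E3 x
    have h5 : x 0 ^ 2 ≤ δ ^ 2 := sq_le_sq' (abs_le.1 h0).1 (abs_le.1 h0).2
    have h6 : x 1 ^ 2 ≤ δ ^ 2 := sq_le_sq' (abs_le.1 h1).1 (abs_le.1 h1).2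
    have h7 : x 2 ^ 2 ≤ (1 - 1 / (2 * (n : ℝ))) ^ 2 := by
      refine pow_le_pow_left₀ (by linarith) h3 2
    have h8 : (1 - 1 / (2 * (n : ℝ))) ^ 2 + 2 * (1 / (4 * (n : ℝ))) ≤ 1 := by
      have e1 : 1 / (2 * (n : ℝ)) = (1 / n) / 2 := by field_simp
      have e2 : 1 / (4 * (n : ℝ)) = (1 / n) / 4 := by field_simp
      rw [e1, e2]
      nlinarith
    have h9 : ‖x‖ ^ 2 ≤ 1 := by
      rw [h4]
      rw [hδ2] at h5 h6
      linarith
    by_contra h10
    push Not at h10
    nlinarith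
  have hSfin : volume S ≠ ⊤ := ne_top_of_le_ne_top measure_closedBall_lt_top.ne (measure_mono hSB)
  have hint : IntegrableOn (fun x : E3 => ‖fm (n - 1) 0 x‖ ^ 2) (closedBall (0 : E3) 1) := by
    simp_rw [fm_zero]
    refine (Continuous.continuousOn ?_).integrableOn_compact (isCompact_closedBall 0 1)
    unfold su
    fun_prop
  have h1 : Real.exp (-1) * volume.real S ≤ ∫ x in S, ‖fm (n - 1) 0 x‖ ^ 2 := by
    refine setIntegral_ge_of_const_le_real hSm hSfin (fun x hx => ?_) (hint.mono_set hSB)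
    obtain ⟨_, _, h2, _⟩ := hmem x hx
    rw [fm_zero, su_sq]
    refine (pow_bound hn).trans ?_
    refine pow_le_pow_left₀ (by linarith) ?_ _
    have := (abs_le.1 (abs_le_norm x)).2
    linarith
  have h2 : ∫ x in S, ‖fm (n - 1) 0 x‖ ^ 2 ≤ hk (n - 1) 0 := by
    unfold hk
    exact setIntegral_mono_set hint (Filter.Eventually.of_forall fun x => by positivity)
      hSB.eventuallyLE
  rw [hvol] at h1
  calc _ = Real.exp (-1) * (1 / (2 * (n : ℝ) ^ 2)) := by ring
    _ ≤ _ := h1.trans h2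

end Pool.Agent.H79.Ba
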