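import Pool.Agent.H79.Ba.S6

/-!
# Stirling's formula and the final estimate
-/

set_option autoImplicit false

open MeasureTheory Metric Set

namespace Pool.Agent.H79.Ba

/-- `log (m^m / m!)` up to a bounded error -/
lemma log_fact_bounds {m : ℕ} (hm : 1 ≤ m) :
    (m : ℝ) * Real.log m - m + 1 / 2 * Real.log m ≤ Real.log m.factorial ∧
    Real.log m.factorial ≤ (m : ℝ) * Real.log m - m + 1 / 2 * Real.log m + 1 := by
  have hm0 : (0 : ℝ) < m := by exact_mod_cast hm
  constructor
  · have h := Stirling.le_factorial_stirling m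
    have hpos : 0 < √(2 * Real.pi * m) * ((m : ℝ) / Real.exp 1) ^ m := by positivity
    have h2 := Real.log_le_log hpos h
    rw [Real.log_mul (by positivity) (by positivity), Real.log_sqrt (by positivity),
      Real.log_pow, Real.log_div hm0.ne' (Real.exp_pos 1).ne', Real.log_exp,
      Real.log_mul (by positivity) hm0.ne'] at h2
    have h3 : 0 ≤ Real.log (2 * Real.pi) := Real.log_nonneg (by nlinarith [Real.pi_gt_three])
    nlinarith
  · obtain ⟨k, rfl⟩ : ∃ k, m = k + 1 := ⟨m - 1, by omega⟩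
    have h := Stirling.stirlingSeq'_antitone (Nat.zero_le k)
    simp only [Function.comp] at h
    rw [show Nat.succ 0 = 1 by rfl, Stirling.stirlingSeq_one] at h
    have h1 : Stirling.stirlingSeq (k + 1) ≤ Real.exp 1 / √2 := h
    unfold Stirling.stirlingSeq at h1
    have hd : 0 < √(2 * ((k + 1 : ℕ) : ℝ)) * (((k + 1 : ℕ) : ℝ) / Real.exp 1) ^ (k + 1) := by
      positivity
    rw [div_le_iff₀ hd] at h1
    have hf : (0 : ℝ) < (k + 1).factorial := by exact_mod_cast Nat.factorial_pos _
    have h2 := Real.log_le_log hf h1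
    rw [Real.log_mul (by positivity) (by positivity), Real.log_div (by positivity) (by positivity),
      Real.log_exp, Real.log_mul (by positivity) (by positivity), Real.log_sqrt (by positivity),
      Real.log_sqrt (by positivity), Real.log_pow, Real.log_div hm0.ne' (Real.exp_pos 1).ne',
      Real.log_exp, Real.log_mul (by positivity) hm0.ne'] at h2
    nlinarith

/-- product of the binomial coefficients in a row -/
noncomputable def Hc (N : ℕ) : ℝ := ∏ k ∈ Finset.range (N + 1), (N.choose k : ℝ)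

lemma Hc_pos (N : ℕ) : 0 < Hc N :=
  Finset.prod_pos fun k hk => by
    exact_mod_cast Nat.choose_pos (by rw [Finset.mem_range] at hk; omega)

lemma Hc_succ (N : ℕ) :
    Hc (N + 1) * ((N + 1).factorial : ℝ) = Hc N * ((N : ℝ) + 1) ^ (N + 1) := by
  unfold Hc
  rw [Finset.prod_range_succ, Nat.choose_self, Nat.cast_one, mul_one]
  have h1 : ((N + 1).factorial : ℝ) = ∏ k ∈ Finset.range (N + 1), ((N + 1 - k : ℕ) : ℝ) := by
    rw [← Finset.prod_range_add_one_eq_factorial, ← Finset.prod_range_reflect]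
    push_cast
    refine Finset.prod_congr rfl fun k hk => ?_
    rw [Finset.mem_range] at hk
    rw [show N + 1 - k = (N + 1 - 1 - k) + 1 by omega]
    push_cast
    rfl
  rw [h1, ← Finset.prod_mul_distrib]
  have h2 : ((N : ℝ) + 1) ^ (N + 1) = ∏ _k ∈ Finset.range (N + 1), ((N : ℝ) + 1) := by simp
  rw [h2, ← Finset.prod_mul_distrib]
  refine Finset.prod_congr rfl fun k _ => ?_
  have := Nat.choose_mul_succ_eq N k
  have h3 : ((N.choose k * (N + 1) : ℕ) : ℝ) = (((N + 1).choose k * (N + 1 - k) : ℕ) : ℝ) := by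
    rw [this]
  rw [Nat.cast_mul, Nat.cast_mul] at h3
  rw [← h3]
  push_cast
  ring

lemma log_Hc_succ (N : ℕ) : Real.log (Hc (N + 1)) =
    Real.log (Hc N) + ((N : ℝ) + 1) * Real.log ((N : ℝ) + 1) - Real.log ((N + 1).factorial) := by
  have h := congrArg Real.log (Hc_succ N)
  have hf : (0 : ℝ) < (N + 1).factorial := by exact_mod_cast Nat.factorial_pos _
  rw [Real.log_mul (Hc_pos _).ne' hf.ne', Real.log_mul (Hc_pos _).ne' (by positivity),
    Real.log_pow] at h
  push_cast at h
  linarith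

lemma log_Hc_bounds (N : ℕ) :
    (N : ℝ) * (N + 1) / 2 - 1 / 2 * Real.log N.factorial - N ≤ Real.log (Hc N) ∧
    Real.log (Hc N) ≤ (N : ℝ) * (N + 1) / 2 - 1 / 2 * Real.log N.factorial := by
  induction N with
  | zero => simp [Hc]
  | succ N ih =>
    have h := log_Hc_succ N
    obtain ⟨f1, f2⟩ := log_fact_bounds (m := N + 1) (by omega)
    have h4 : Real.log ((N + 1).factorial) = Real.log ((N : ℝ) + 1) + Real.log N.factorial := by
      rw [Nat.factorial_succ, Nat.cast_mul, Real.log_mul (by positivity)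
        (by exact_mod_cast (Nat.factorial_pos N).ne')]
      push_cast
      rfl
    push_cast at f1 f2 ⊢
    constructor
    · rw [h]
      nlinarith [ih.1]
    · rw [h]
      nlinarith [ih.2]

lemma log_Bn_bounds {n : ℕ} (hn : 1 ≤ n) :
    |Real.log (Bn n) - ((Real.log 2 - 1 / 2) * (n : ℝ) ^ 2 + 1 / 2 * n * Real.log n)| ≤ (3 : ℝ) * n := by
  obtain ⟨N, rfl⟩ : ∃ N, n = N + 1 := ⟨n - 1, by omega⟩
  have h1 : Bn (N + 1) = 2 ^ ((N + 1) * N) / Hc N := by
    unfold Bn Hc
    congr 1
    exact Fin.prod_univ_eq_prod_range (fun k => (N.choose k : ℝ)) (N + 1)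
  have h2 : Real.log (Bn (N + 1)) = ((N : ℝ) + 1) * N * Real.log 2 - Real.log (Hc N) := by
    rw [h1, Real.log_div (by positivity) (Hc_pos N).ne', Real.log_pow]
    push_cast
    ring
  obtain ⟨b1, b2⟩ := log_Hc_bounds N
  obtain ⟨f1, f2⟩ := log_fact_bounds (m := N + 1) (by omega)
  have h4 : Real.log ((N + 1).factorial) = Real.log ((N : ℝ) + 1) + Real.log N.factorial := by
    rw [Nat.factorial_succ, Nat.cast_mul, Real.log_mul (by positivity)
      (by exact_mod_cast (Nat.factorial_pos N).ne')]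
    push_cast
    rfl
  rw [h4] at f1 f2
  have hl1 : 0 ≤ Real.log ((N : ℝ) + 1) := Real.log_nonneg (by linarith [Nat.cast_nonneg (α := ℝ) N])
  have hl2 : Real.log ((N : ℝ) + 1) ≤ N := by
    have := Real.log_le_sub_one_of_pos (show (0 : ℝ) < (N : ℝ) + 1 by positivity)
    linarith
  have hlog2 : Real.log 2 ≤ 1 := by
    have := Real.log_le_sub_one_of_pos (show (0 : ℝ) < 2 by norm_num)
    linarith
  have hlog2' : 0 ≤ Real.log 2 := Real.log_nonneg (by norm_num)
  have hN : (0 : ℝ) ≤ N := Nat.cast_nonneg N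
  rw [h2]
  push_cast at f1 f2 ⊢
  rw [abs_le]
  constructor
  · nlinarith
  · nlinarith

/-- the asymptotics of `F₃(n, 3)` -/
theorem F3_asymp : ∃ C : ℝ, ∀ n : ℕ, 1 ≤ n → 0 < F3 n ∧
    |Real.log (F3 n) - ((Real.log 2 - 1 / 2) * (n : ℝ) ^ 2 - 1 / 2 * n * Real.log n)| ≤ C * n := by
  set V : ℝ := 78 * volume.real (ball (0 : E3) 1) with hV
  have hV0 : 0 < V := by have := vol_ball_pos; positivity
  refine ⟨|Real.log V| + 10, fun n hn => ?_⟩
  have hn0 : (0 : ℝ) < n := by exact_mod_cast hn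
  have hn1 : (1 : ℝ) ≤ n := by exact_mod_cast hn
  have hB := Bn_pos n
  have hh := hk_lower hn
  have hh0 : 0 < Real.exp (-1) / (2 * (n : ℝ) ^ 2) := by positivity
  have hf : (0 : ℝ) < n.factorial := by exact_mod_cast Nat.factorial_pos n
  have hlow : Bn n * ((n.factorial : ℝ) * (Real.exp (-1) / (2 * (n : ℝ) ^ 2)) ^ n) ≤ F3 n := by
    refine le_trans ?_ (F3_ge n)
    refine mul_le_mul_of_nonneg_left (mul_le_mul_of_nonneg_left ?_ hf.le) hB.le
    exact pow_le_pow_left₀ hh0.le hh n
  have hlowpos : 0 < Bn n * ((n.factorial : ℝ) * (Real.exp (-1) / (2 * (n : ℝ) ^ 2)) ^ n) := by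
    positivity
  have hpos : 0 < F3 n := lt_of_lt_of_le hlowpos hlow
  refine ⟨hpos, ?_⟩
  have l1 := Real.log_le_log hlowpos hlow
  rw [Real.log_mul hB.ne' (by positivity), Real.log_mul hf.ne' (by positivity), Real.log_pow,
    Real.log_div (by positivity) (by positivity), Real.log_exp, Real.log_mul (by norm_num)
      (by positivity), Real.log_pow] at l1
  have l2 := Real.log_le_log hpos (F3_le hn)
  rw [← hV, Real.log_mul hB.ne' (by positivity), Real.log_pow, Real.log_div hV0.ne' hn0.ne'] at l2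
  obtain ⟨f1, _⟩ := log_fact_bounds hn
  have hb := abs_le.1 (log_Bn_bounds hn)
  have hl : 0 ≤ Real.log n := Real.log_nonneg hn1
  have hlog2 : Real.log 2 ≤ 1 := by
    have := Real.log_le_sub_one_of_pos (show (0 : ℝ) < 2 by norm_num)
    linarith
  have ha := le_abs_self (Real.log V)
  have ha0 := abs_nonneg (Real.log V)
  push_cast at l1
  rw [abs_le]
  constructor
  · nlinarith [hb.1, mul_nonneg ha0 hn0.le, mul_le_mul_of_nonneg_left hlog2 hn0.le]
  · nlinarith [hb.2, mul_le_mul_of_nonneg_left ha hn0.le]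

end Pool.Agent.H79.Ba
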