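import Pool.Agent.H79.Ba.S7

/-!
# The spinor determinant for a general rotation invariant measure
-/

set_option autoImplicit false

open MeasureTheory Metric Set

namespace Pool.Agent.H79.Ba

/-- the hypotheses on the measure -/
structure Good (M : Measure E3) : Prop where
  fin : IsFiniteMeasure M
  inv : ∀ L : E3 ≃ₗᵢ[ℝ] E3, M.map L = M
  bdd : ∀ᵐ x ∂M, ‖x‖ ≤ 1
  zne : ∀ᵐ x ∂M, ze x ≠ 0

noncomputable def gh (M : Measure E3) (N k : ℕ) : ℝ := ∫ x, ‖fm N k x‖ ^ 2 ∂M

noncomputable def gJ (M : Measure E3) (N k l : ℕ) : ℂ :=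
  ∫ x, fm N k x * (starRingEnd ℂ) (fm N l x) ∂M

lemma gJ_self (M : Measure E3) (N k : ℕ) : gJ M N k k = (gh M N k : ℂ) := by
  unfold gJ gh
  rw [← integral_complex_ofReal]
  congr 1
  funext x
  rw [Complex.mul_conj, Complex.normSq_eq_norm_sq]

lemma gint_prod {M : Measure E3} (hM : Good M) (N k l : ℕ) :
    Integrable (fun x => fm N k x * (starRingEnd ℂ) (fm N l x)) M := by
  have := hM.fin
  refine Integrable.of_bound ?_ 1 ?_
  · exact ((fm_meas N k).mul (Complex.continuous_conj.measurable.comp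
      (fm_meas N l))).aestronglyMeasurable
  · filter_upwards [hM.bdd] with x hx'
    rw [norm_mul, Complex.norm_conj]
    have h1 := fm_bound N k x hx'
    have h2 := fm_bound N l x hx'
    have h3 := norm_nonneg (fm N k x)
    have h4 := norm_nonneg (fm N l x)
    nlinarith

lemma gcomp_isometry {M : Measure E3} (hM : Good M) {F : Type*} [NormedAddCommGroup F]
    [NormedSpace ℝ F] (L : E3 →ₗᵢ[ℝ] E3) (g : E3 → F) :
    ∫ x, g (L x) ∂M = ∫ x, g x ∂M := by
  set e := L.toLinearIsometryEquiv rfl with he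
  have h := e.toHomeomorph.measurableEmbedding.integral_map (μ := M) g
  have h2 : M.map e.toHomeomorph = M := hM.inv e
  rw [h2] at h
  exact h.symm

lemma gJ_rot {M : Measure E3} (hM : Good M) (c s : ℝ) (h : c ^ 2 + s ^ 2 = 1) (N k l : ℕ) :
    gJ M N k l = (⟨c, s⟩ : ℂ) ^ k * (starRingEnd ℂ) ((⟨c, s⟩ : ℂ) ^ l) * gJ M N k l := by
  have h1 := gcomp_isometry hM (rotz c s h)
    (fun x => fm N k x * (starRingEnd ℂ) (fm N l x))
  conv_lhs => unfold gJ
  rw [← h1]
  simp_rw [fm_rotz]
  unfold gJ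
  rw [← integral_const_mul]
  congr 1
  funext x
  rw [map_mul]
  ring

lemma gJ_ne {M : Measure E3} (hM : Good M) (N k l : ℕ) (hkl : k ≠ l) : gJ M N k l = 0 := by
  set θ : ℝ := Real.pi / ((k : ℝ) - l) with hθ
  have hne : (k : ℝ) - l ≠ 0 := by
    rw [sub_ne_zero]
    exact_mod_cast hkl
  have h := gJ_rot hM (Real.cos θ) (Real.sin θ)
    (by rw [add_comm]; exact Real.sin_sq_add_cos_sq θ) N k l
  have h1 : (⟨Real.cos θ, Real.sin θ⟩ : ℂ) = Complex.exp (θ * Complex.I) := by
    rw [Complex.exp_mul_I]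
    apply Complex.ext <;> simp [← Complex.ofReal_cos, ← Complex.ofReal_sin]
  rw [h1, map_pow, ← Complex.exp_conj, ← Complex.exp_nat_mul, ← Complex.exp_nat_mul,
    ← Complex.exp_add] at h
  have h2 : (k : ℂ) * (θ * Complex.I) + (l : ℂ) * (starRingEnd ℂ) (θ * Complex.I) =
      Real.pi * Complex.I := by
    rw [map_mul, Complex.conj_I, Complex.conj_ofReal, hθ]
    have : ((k : ℂ) - l) ≠ 0 := by exact_mod_cast hne
    push_cast
    field_simp
    ring
  rw [h2, Complex.exp_pi_mul_I] at h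
  have h3 : (2 : ℂ) * gJ M N k l = 0 := by linear_combination h
  simpa using h3

lemma gexpand_left {M : Measure E3} (hM : Good M) (N : ℕ) (β : ℝ) :
    ∫ x, (((β : ℂ) * sv 0 x + (su x : ℂ)) ^ N) *
      (starRingEnd ℂ) (((β : ℂ) * sv 0 x + (su x : ℂ)) ^ N) ∂M =
      ((∑ k ∈ Finset.range (N + 1), (N.choose k : ℝ) ^ 2 * gh M N k * (β ^ 2) ^ k : ℝ) : ℂ) := by
  have h1 : ∀ x : E3, ((β : ℂ) * sv 0 x + (su x : ℂ)) ^ N =
      ∑ k ∈ Finset.range (N + 1), ((β ^ k * N.choose k : ℝ) : ℂ) * fm N k x := by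
    intro x
    rw [add_pow]
    refine Finset.sum_congr rfl fun k _ => ?_
    unfold fm
    push_cast
    ring
  have h2 : ∀ x : E3, (((β : ℂ) * sv 0 x + (su x : ℂ)) ^ N) *
      (starRingEnd ℂ) (((β : ℂ) * sv 0 x + (su x : ℂ)) ^ N) =
      ∑ k ∈ Finset.range (N + 1), ∑ l ∈ Finset.range (N + 1),
        ((β ^ k * N.choose k * (β ^ l * N.choose l) : ℝ) : ℂ) *
          (fm N k x * (starRingEnd ℂ) (fm N l x)) := by
    intro x
    rw [h1 x, map_sum, Finset.sum_mul_sum]
    refine Finset.sum_congr rfl fun k _ => Finset.sum_congr rfl fun l _ => ?_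
    rw [map_mul, Complex.conj_ofReal]
    push_cast
    ring
  simp_rw [h2]
  rw [integral_finsetSum, Complex.ofReal_sum]
  · refine Finset.sum_congr rfl fun k hk' => ?_
    rw [integral_finsetSum]
    · rw [Finset.sum_eq_single k]
      · rw [integral_const_mul]
        have h3 := gJ_self M N k
        unfold gJ at h3
        rw [h3]
        push_cast
        ring
      · intro l _ hl
        rw [integral_const_mul]
        have h3 := gJ_ne hM N k l hl.symm
        unfold gJ at h3
        rw [h3, mul_zero]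
      · intro h
        exact absurd hk' h
    · intro l _
      exact (gint_prod hM N k l).const_mul _
  · intro k _
    exact integrable_finsetSum _ fun l _ => (gint_prod hM N k l).const_mul _

lemma gexpand_right {M : Measure E3} (hM : Good M) (N : ℕ) (β : ℝ) :
    ∫ x, (((β : ℂ) * sv 0 x + (su x : ℂ)) ^ N) *
      (starRingEnd ℂ) (((β : ℂ) * sv 0 x + (su x : ℂ)) ^ N) ∂M =
      (((1 + β ^ 2) ^ N * gh M N 0 : ℝ) : ℂ) := by
  have hb : (0 : ℝ) < 1 + β ^ 2 := by positivity
  set c : ℝ := (1 - β ^ 2) / (1 + β ^ 2) with hc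
  set s : ℝ := 2 * β / (1 + β ^ 2) with hs
  have hcs : c ^ 2 + s ^ 2 = 1 := by
    rw [hc, hs]
    field_simp
    ring
  have h1 : ∫ x, (((β : ℂ) * sv 0 x + (su x : ℂ)) ^ N) *
      (starRingEnd ℂ) (((β : ℂ) * sv 0 x + (su x : ℂ)) ^ N) ∂M =
      ∫ x, (((1 + β ^ 2) ^ N * (su (refl c s hcs x) ^ 2) ^ N : ℝ) : ℂ) ∂M := by
    refine integral_congr_ae ?_
    filter_upwards [hM.zne] with x hx
    rw [Complex.mul_conj, Complex.normSq_eq_norm_sq, norm_pow, ← pow_mul, mul_comm N 2, pow_mul,
      norm_sq_comb β x hx, ← mul_pow]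
    congr 2
    rw [su_sq, LinearIsometry.norm_map]
    have : (refl c s hcs x) 2 = s * x 0 + c * x 2 := by simp [refl]
    rw [this, hc, hs]
    field_simp
    ring
  rw [h1, integral_complex_ofReal, integral_const_mul,
    gcomp_isometry hM (refl c s hcs) (fun x => (su x ^ 2) ^ N)]
  unfold gh
  simp_rw [fm_zero]

lemma gchoose_mul_hk {M : Measure E3} (hM : Good M) {N k : ℕ} (hk' : k ≤ N) :
    (N.choose k : ℝ) * gh M N k = gh M N 0 := by
  have h1 : ∀ β : ℝ, ∑ k ∈ Finset.range (N + 1), (N.choose k : ℝ) ^ 2 * gh M N k * (β ^ 2) ^ k =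
      (1 + β ^ 2) ^ N * gh M N 0 := by
    intro β
    have := (gexpand_left hM N β).symm.trans (gexpand_right hM N β)
    exact_mod_cast this
  set P : Polynomial ℝ := ∑ k ∈ Finset.range (N + 1),
    Polynomial.C ((N.choose k : ℝ) ^ 2 * gh M N k) * Polynomial.X ^ k with hP
  set R : Polynomial ℝ := Polynomial.C (gh M N 0) * (1 + Polynomial.X) ^ N with hR
  have hPR : P = R := by
    refine Polynomial.eq_of_infinite_eval_eq P R ((Set.Ici_infinite (0 : ℝ)).mono fun y hy => ?_)
    have h2 := h1 (√y)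
    rw [Real.sq_sqrt hy] at h2
    show P.eval y = R.eval y
    rw [hP, hR, Polynomial.eval_finsetSum]
    simp only [Polynomial.eval_mul, Polynomial.eval_C, Polynomial.eval_pow, Polynomial.eval_X,
      Polynomial.eval_add, Polynomial.eval_one]
    rw [h2]
    ring
  have h3 := congrArg (fun p => Polynomial.coeff p k) hPR
  simp only [hP, hR, Polynomial.finsetSum_coeff, Polynomial.coeff_C_mul,
    Polynomial.coeff_one_add_X_pow, Polynomial.coeff_X_pow] at h3
  rw [Finset.sum_eq_single k] at h3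
  · simp only [if_true, mul_one] at h3
    have h4 : (0 : ℝ) < N.choose k := by exact_mod_cast Nat.choose_pos hk'
    have h5 : (N.choose k : ℝ) * ((N.choose k : ℝ) * gh M N k) = (N.choose k : ℝ) * gh M N 0 := by
      linear_combination h3
    exact mul_left_cancel₀ h4.ne' h5
  · intro l _ hl
    rw [if_neg hl.symm, mul_zero]
  · intro h
    exact absurd (Finset.mem_range.2 (by omega)) h

/-- the norm of the monomials -/
lemma gh_zero {M : Measure E3} (hM : Good M) (N : ℕ) :
    ((N : ℝ) + 1) * gh M N 0 = ∫ x, ‖x‖ ^ N ∂M := by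
  have h1 : ∀ᵐ x ∂M, ‖x‖ ^ N = ∑ k ∈ Finset.range (N + 1), (N.choose k : ℝ) * ‖fm N k x‖ ^ 2 := by
    filter_upwards [hM.zne] with x hx
    have h2 : ‖sv 0 x‖ ^ 2 = (‖x‖ - x 2) / 2 := by
      unfold sv
      rw [norm_mul, Complex.norm_real, Real.norm_of_nonneg (sw_nonneg x), mul_pow, sw_sq, ph_zero,
        norm_div, Complex.norm_real, norm_norm, div_self (norm_ne_zero_iff.2 hx)]
      ring
    have h3 : ‖x‖ = ‖sv 0 x‖ ^ 2 + su x ^ 2 := by
      rw [h2, su_sq]
      ring
    conv_lhs => rw [h3]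
    rw [add_pow]
    refine Finset.sum_congr rfl fun k _ => ?_
    unfold fm
    rw [norm_mul, norm_pow, norm_pow, Complex.norm_real, Real.norm_of_nonneg (su_nonneg x)]
    ring
  have hint : ∀ k, Integrable (fun x => ‖fm N k x‖ ^ 2) M := by
    intro k
    have h2 := (gint_prod hM N k k).norm
    refine h2.congr (Filter.Eventually.of_forall fun x => ?_)
    simp only [norm_mul, Complex.norm_conj]
    ring
  rw [integral_congr_ae h1, integral_finsetSum _ fun k _ => (hint k).const_mul _]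
  have h4 : ∀ k ∈ Finset.range (N + 1), ∫ x, (N.choose k : ℝ) * ‖fm N k x‖ ^ 2 ∂M = gh M N 0 := by
    intro k hk
    rw [integral_const_mul]
    exact gchoose_mul_hk hM (by rw [Finset.mem_range] at hk; omega)
  rw [Finset.sum_congr rfl h4]
  simp

/-- the integral of the squared determinant -/
lemma gandreief {M : Measure E3} (hM : Good M) (n : ℕ) :
    ∫ r : Fin n → E3, ‖(Mt 0 r).det‖ ^ 2 ∂(Measure.pi fun _ => M) =
      (n.factorial : ℝ) * ∏ k : Fin n, gh M (n - 1) k := by
  have := hM.fin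
  have key : ((∫ r : Fin n → E3, ‖(Mt 0 r).det‖ ^ 2 ∂(Measure.pi fun _ => M) : ℝ) : ℂ) =
      (((n.factorial : ℝ) * ∏ k : Fin n, gh M (n - 1) k : ℝ) : ℂ) := by
    rw [← integral_complex_ofReal]
    simp_rw [norm_det_expand]
    have hint : ∀ σ τ : Equiv.Perm (Fin n), Integrable (fun r : Fin n → E3 =>
        ∏ i, (fm (n - 1) (σ i) (r i) * (starRingEnd ℂ) (fm (n - 1) (τ i) (r i))))
        (Measure.pi fun _ => M) := by
      intro σ τ
      exact Integrable.fintype_prod
        (f := fun i x => fm (n - 1) (σ i) x * (starRingEnd ℂ) (fm (n - 1) (τ i) x))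
        (fun i => gint_prod hM (n - 1) (σ i) (τ i))
    rw [integral_finsetSum]
    · have hσ : ∀ σ : Equiv.Perm (Fin n), ∫ r : Fin n → E3, ∑ τ : Equiv.Perm (Fin n),
          ((((Equiv.Perm.sign σ : ℤ) : ℝ) * ((Equiv.Perm.sign τ : ℤ) : ℝ) : ℝ) : ℂ) *
          ∏ i, (fm (n - 1) (σ i) (r i) * (starRingEnd ℂ) (fm (n - 1) (τ i) (r i)))
          ∂(Measure.pi fun _ => M) =
          ((∏ k : Fin n, gh M (n - 1) k : ℝ) : ℂ) := by
        intro σ
        rw [integral_finsetSum]
        · rw [Finset.sum_eq_single σ]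
          · rw [integral_const_mul, integral_fintype_prod_eq_prod
              (fun i x => fm (n - 1) (σ i) x * (starRingEnd ℂ) (fm (n - 1) (σ i) x))]
            have h1 : ∀ i, ∫ x, fm (n - 1) (σ i) x *
                (starRingEnd ℂ) (fm (n - 1) (σ i) x) ∂M = (gh M (n - 1) (σ i) : ℂ) :=
              fun i => gJ_self M (n - 1) (σ i)
            simp_rw [h1]
            rw [Equiv.prod_comp σ (fun k : Fin n => (gh M (n - 1) k : ℂ))]
            have h2 : (((Equiv.Perm.sign σ : ℤ) : ℝ) * ((Equiv.Perm.sign σ : ℤ) : ℝ)) = 1 := by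
              rcases Int.units_eq_one_or (Equiv.Perm.sign σ) with h | h <;> rw [h] <;> simp
            rw [h2]
            push_cast
            ring
          · intro τ _ hτ
            rw [integral_const_mul, integral_fintype_prod_eq_prod
              (fun i x => fm (n - 1) (σ i) x * (starRingEnd ℂ) (fm (n - 1) (τ i) x))]
            have h1 : ∃ i, σ i ≠ τ i := by
              by_contra h
              push Not at h
              exact hτ (Equiv.ext fun i => (h i).symm)
            obtain ⟨i, hi⟩ := h1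
            have h2 : ∫ x, fm (n - 1) (σ i) x *
                (starRingEnd ℂ) (fm (n - 1) (τ i) x) ∂M = 0 :=
              gJ_ne hM (n - 1) (σ i) (τ i) (fun h => hi (Fin.ext h))
            rw [Finset.prod_eq_zero (Finset.mem_univ i) h2, mul_zero]
          · intro h
            exact absurd (Finset.mem_univ _) h
        · intro τ _
          exact (hint σ τ).const_mul _
      simp_rw [hσ]
      rw [Finset.sum_const, Finset.card_univ, Fintype.card_perm, Fintype.card_fin, nsmul_eq_mul]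
      push_cast
      ring
    · intro σ _
      exact integrable_finsetSum _ fun τ _ => (hint σ τ).const_mul _
  exact_mod_cast key

/-- closed form of the determinantal integral -/
lemma gdet {M : Measure E3} (hM : Good M) {n : ℕ} (hn : 1 ≤ n) :
    2 ^ (n * (n - 1)) * ∫ r : Fin n → E3, ‖(Mt 0 r).det‖ ^ 2 ∂(Measure.pi fun _ => M) =
      Bn n * ((n.factorial : ℝ) * ((∫ x, ‖x‖ ^ (n - 1) ∂M) / n) ^ n) := by
  rw [gandreief hM]
  have h0 := gh_zero hM (n - 1)
  have hn0 : (0 : ℝ) < n := by exact_mod_cast hn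
  have h1 : (∫ x, ‖x‖ ^ (n - 1) ∂M) / n = gh M (n - 1) 0 := by
    rw [← h0, Nat.cast_sub hn]
    push_cast
    field_simp
    ring
  rw [h1]
  have h2 : (∏ k : Fin n, ((n - 1).choose k : ℝ)) * ∏ k : Fin n, gh M (n - 1) k =
      gh M (n - 1) 0 ^ n := by
    rw [← Finset.prod_mul_distrib]
    have : ∀ k : Fin n, ((n - 1).choose k : ℝ) * gh M (n - 1) k = gh M (n - 1) 0 := by
      intro k
      exact gchoose_mul_hk hM (by omega)
    simp_rw [this]
    simp
  have h3 := prod_choose_pos n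
  unfold Bn
  rw [← h2]
  field_simp

end Pool.Agent.H79.Ba
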