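import Pool.Agent.H79.Ba.S8

/-!
# Exact lower bound, and the uniform measure on directions
-/

set_option autoImplicit false

open MeasureTheory Metric Set

namespace Pool.Agent.H79.Ba

lemma ball_inv (e : E3 ≃ₗᵢ[ℝ] E3) :
    (volume.restrict (closedBall (0 : E3) 1)).map e = volume.restrict (closedBall (0 : E3) 1) := by
  have h := (e.measurePreserving.restrict_preimage
    (measurableSet_closedBall (x := (0 : E3)) (ε := 1))).map_eq
  have h2 : e ⁻¹' closedBall 0 1 = closedBall 0 1 := by
    ext x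
    simp
  rw [h2] at h
  exact h

lemma good_ball : Good (volume.restrict (closedBall (0 : E3) 1)) where
  fin := ⟨by rw [Measure.restrict_apply_univ]; exact measure_closedBall_lt_top⟩
  inv := ball_inv
  bdd := (ae_restrict_iff' measurableSet_closedBall).2
    (Filter.Eventually.of_forall fun x hx => by simpa using hx)
  zne := ae_restrict_of_ae ae_ze

lemma radial_int (g : ℝ → ℝ) : ∫ x in closedBall (0 : E3) 1, g ‖x‖ =
    3 * volume.real (ball (0 : E3) 1) * ∫ y in Ioc (0 : ℝ) 1, y ^ 2 * g y := by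
  have h2 : ∫ x in closedBall (0 : E3) 1, g ‖x‖ =
      ∫ x : E3, (Set.Iic (1 : ℝ)).indicator g ‖x‖ := by
    rw [← integral_indicator measurableSet_closedBall]
    congr 1
    funext x
    by_cases h : ‖x‖ ≤ 1 <;> simp [Set.indicator, h]
  rw [h2, integral_fun_norm_addHaar]
  have h3 : Module.finrank ℝ E3 = 3 := by simp
  rw [h3, nsmul_eq_mul, smul_eq_mul]
  have h1 : ∫ y in Ioi (0 : ℝ), y ^ (3 - 1) • (Set.Iic (1 : ℝ)).indicator g y =
      ∫ y in Ioc (0 : ℝ) 1, y ^ 2 * g y := by
    rw [← integral_indicator measurableSet_Ioi, ← integral_indicator measurableSet_Ioc]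
    congr 1
    funext y
    by_cases h1 : 0 < y <;> by_cases h2 : y ≤ 1 <;> simp [Set.indicator, h1, h2]
  rw [h1]
  push_cast
  ring

lemma int_norm_pow (m : ℕ) : ∫ x in closedBall (0 : E3) 1, ‖x‖ ^ m =
    3 * volume.real (ball (0 : E3) 1) / (m + 3) := by
  rw [radial_int (fun y => y ^ m), ← intervalIntegral.integral_of_le (by norm_num : (0 : ℝ) ≤ 1)]
  have h1 : ∀ y : ℝ, y ^ 2 * y ^ m = y ^ (m + 2) := fun y => by ring
  simp_rw [h1]
  rw [integral_pow]
  push_cast
  simp
  field_simp
  ring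

/-- the lower bound with the exact constant -/
theorem F3_lower {n : ℕ} (hn : 1 ≤ n) :
    Bn n * ((n.factorial : ℝ) * (3 * volume.real (ball (0 : E3) 1) / (n + 2) / n) ^ n) ≤ F3 n := by
  have h1 : ∫ r in {r : Fin n → E3 | ∀ i, ‖r i‖ ≤ 1}, 2 ^ (n * (n - 1)) * ‖(Mt 0 r).det‖ ^ 2 ≤
      F3 n := by
    unfold F3
    refine integral_mono_of_nonneg (Filter.Eventually.of_forall fun r => by positivity)
      (Q_integrableOn n) (Filter.Eventually.of_forall fun r => Q_ge 0 (by simp) r)
  rw [integral_const_mul, set_eq, volume_pi, Measure.restrict_pi_pi, gdet good_ball hn,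
    int_norm_pow] at h1
  have h2 : ((n - 1 : ℕ) : ℝ) + 3 = n + 2 := by
    rw [Nat.cast_sub hn]
    push_cast
    ring
  rw [h2] at h1
  exact h1

/-- normalized volume on the ball -/
noncomputable def P0 : Measure E3 :=
  (volume (closedBall (0 : E3) 1))⁻¹ • volume.restrict (closedBall (0 : E3) 1)

lemma vol_ne_zero : volume (closedBall (0 : E3) 1) ≠ 0 := (measure_closedBall_pos _ _ one_pos).ne'

lemma vol_ne_top : volume (closedBall (0 : E3) 1) ≠ ⊤ := measure_closedBall_lt_top.ne

instance : IsProbabilityMeasure P0 := by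
  constructor
  unfold P0
  rw [Measure.smul_apply, Measure.restrict_apply_univ, smul_eq_mul]
  exact ENNReal.inv_mul_cancel vol_ne_zero vol_ne_top

lemma P0_inv (e : E3 ≃ₗᵢ[ℝ] E3) : P0.map e = P0 := by
  unfold P0
  rw [Measure.map_smul, ball_inv]

lemma P0_mp (e : E3 ≃ₗᵢ[ℝ] E3) : MeasurePreserving e P0 P0 :=
  ⟨e.continuous.measurable, P0_inv e⟩

/-- direction of a vector -/
noncomputable def dir (x : E3) : E3 := ‖x‖⁻¹ • x

lemma dir_meas : Measurable dir := by
  unfold dir
  exact measurable_norm.inv.smul measurable_id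

lemma dir_iso (e : E3 ≃ₗᵢ[ℝ] E3) (x : E3) : dir (e x) = e (dir x) := by
  unfold dir
  rw [LinearIsometryEquiv.norm_map, map_smul]

lemma norm_dir {x : E3} (hx : x ≠ 0) : ‖dir x‖ = 1 := by
  unfold dir
  rw [norm_smul, norm_inv, norm_norm, inv_mul_cancel₀ (norm_ne_zero_iff.2 hx)]

lemma P0_abs : P0 ≪ volume := by
  unfold P0
  exact (Measure.absolutelyContinuous_of_le Measure.restrict_le_self).smul_left _

/-- lines are null -/
lemma ae_dir_ne (p : E3) : ∀ᵐ x ∂P0, x ≠ 0 ∧ dir x ≠ p := by
  apply P0_abs.ae_le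
  have hne : (Submodule.span ℝ {p} : Submodule ℝ E3) ≠ ⊤ := by
    intro h
    have h1 : Module.finrank ℝ (Submodule.span ℝ {p} : Submodule ℝ E3) = 3 := by
      rw [h, finrank_top]
      simp
    have h2 : Module.finrank ℝ (Submodule.span ℝ {p} : Submodule ℝ E3) ≤ 1 := by
      simpa using finrank_span_le_card (R := ℝ) ({p} : Set E3)
    omega
  have h0 := Measure.addHaar_submodule (volume : Measure E3) (Submodule.span ℝ {p}) hne
  have h00 : ∀ᵐ x : E3, x ∉ (Submodule.span ℝ {p} : Submodule ℝ E3) := by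
    rw [ae_iff]
    simpa using h0
  filter_upwards [h00] with x hx
  have hx0 : x ≠ 0 := by
    intro h
    rw [h] at hx
    exact hx (Submodule.zero_mem _)
  refine ⟨hx0, fun h => hx ?_⟩
  rw [Submodule.mem_span_singleton]
  refine ⟨‖x‖, ?_⟩
  rw [← h]
  unfold dir
  rw [smul_smul, mul_inv_cancel₀ (norm_ne_zero_iff.2 hx0), one_smul]

lemma ae_P0_ball : ∀ᵐ x ∂P0, ‖x‖ ≤ 1 := by
  unfold P0
  refine Measure.ae_smul_measure ?_ _
  exact good_ball.bdd

lemma good_dir : Good (P0.map dir) where
  fin := inferInstance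
  inv := by
    intro L
    rw [Measure.map_map L.continuous.measurable dir_meas]
    have : (L : E3 → E3) ∘ dir = dir ∘ L := by
      funext x
      exact (dir_iso L x).symm
    rw [this, ← Measure.map_map dir_meas L.continuous.measurable, P0_inv]
  bdd := by
    rw [ae_map_iff dir_meas.aemeasurable (measurableSet_le measurable_norm measurable_const)]
    filter_upwards [ae_dir_ne 0] with x hx
    rw [norm_dir hx.1]
  zne := by
    refine (ae_map_iff dir_meas.aemeasurable (p := fun x => ze x ≠ 0)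
      (ze_meas (measurableSet_singleton 0).compl)).2 ?_
    have h1 : ∀ᵐ x ∂P0, ze x ≠ 0 := P0_abs.ae_le ae_ze
    filter_upwards [h1, ae_dir_ne 0] with x hx hx0
    intro h
    apply hx
    have h2 : ze x = (‖x‖ : ℂ) * ze (dir x) := by
      have h3 : x = ‖x‖ • dir x := by
        unfold dir
        rw [smul_smul, mul_inv_cancel₀ (norm_ne_zero_iff.2 hx0.1), one_smul]
      conv_lhs => rw [h3]
      apply Complex.ext <;> simp [ze]
    rw [h2, h, mul_zero]

/-- the moments of the height -/
lemma moments (N : ℕ) : ∫ x, ((1 + dir x 2) / 2) ^ N ∂P0 = 1 / ((N : ℝ) + 1) := by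
  have h := gh_zero good_dir N
  unfold gh at h
  simp_rw [fm_zero, su_sq] at h
  rw [integral_map dir_meas.aemeasurable, integral_map dir_meas.aemeasurable] at h
  · have h1 : ∫ x, ‖dir x‖ ^ N ∂P0 = 1 := by
      have : ∀ᵐ x ∂P0, ‖dir x‖ ^ N = 1 := by
        filter_upwards [ae_dir_ne 0] with x hx
        rw [norm_dir hx.1, one_pow]
      rw [integral_congr_ae this]
      simp
    have h2 : ∫ x, ((‖dir x‖ + dir x 2) / 2) ^ N ∂P0 = ∫ x, ((1 + dir x 2) / 2) ^ N ∂P0 := by
      refine integral_congr_ae ?_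
      filter_upwards [ae_dir_ne 0] with x hx
      rw [norm_dir hx.1]
    rw [h1, h2] at h
    rw [eq_div_iff (by positivity)]
    linarith
  · exact (Continuous.aestronglyMeasurable (by fun_prop))
  · exact (Continuous.aestronglyMeasurable (by fun_prop))

end Pool.Agent.H79.Ba
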